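import Pool.Agent.H.MP_1611f1_gt.PB.Mo.ColB

/-!
MODEL OF THE FIBRE SURFACE: the surface is Hausdorff, and compact outside of its collar.
-/

namespace Pool.Agent.H.MP_1611f1_gt.PB.Mo

open Complex Set Topology

noncomputable section

variable {c L : ℕ} {I : Type} [Fact (3 ≤ c)] (K : Comb c L I)

theorem Haus_norm_W (c : ℕ) (j : ℤ) : ‖W c j‖ = 1 := by
  unfold W
  exact Complex.norm_exp_ofReal_mul_I _

theorem Haus_R_le (c : ℕ) (j : ℤ) (z w : ℂ) : |R c j z - R c j w| ≤ dist z w := by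
  have h1 : R c j z - R c j w = R c j (z - w) := by
    unfold R
    rw [sub_mul, Complex.sub_re]
  rw [h1, Complex.dist_eq]
  unfold R
  refine (Complex.abs_re_le_norm _).trans ?_
  rw [norm_mul, RCLike.norm_conj, Haus_norm_W, mul_one]

/-- the values of the side functions at a point form a finite set -/
theorem Haus_fin (z : ℂ) : (Set.range fun m : ℤ => R c (2 * m) z).Finite := by
  refine (Set.finite_range fun i : Fin c => R c (2 * ((i : ℕ) : ℤ)) z).subset ?_
  rintro _ ⟨m, rfl⟩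
  obtain ⟨i, hi⟩ := PolyC_mod (c := c) Fact.out m
  exact ⟨i, (PolyC_R_even Fact.out hi z).symm⟩

/-- a radius for one point -/
theorem Haus_rad (z : ℂ) : ∃ r : ℝ, 0 < r ∧ ∀ (m : ℤ) (w : ℂ), R c (2 * m) w = ca c →
    dist w z < r → R c (2 * m) z = ca c := by
  have h1 : IsOpen (((Set.range fun m : ℤ => R c (2 * m) z) \ {ca c})ᶜ) :=
    ((Haus_fin (c := c) z).subset sdiff_subset).isClosed.isOpen_compl
  obtain ⟨r, hr, hb⟩ := Metric.isOpen_iff.1 h1 (ca c) (by simp)
  refine ⟨r, hr, fun m w hw hd => ?_⟩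
  by_contra h
  have h2 : R c (2 * m) z ∈ Metric.ball (ca c) r := by
    rw [Metric.mem_ball, Real.dist_eq, ← hw]
    refine (Haus_R_le c (2 * m) z w).trans_lt ?_
    rwa [dist_comm]
  exact hb h2 ⟨⟨m, rfl⟩, h⟩

/-- the positions of the representatives of a point form a finite set -/
theorem Haus_rep {i : I} {z : ℂ} (hz : z ∈ Pg c) :
    {w : ℂ | ∃ (j : I) (hw : w ∈ Pg c), pt K j w hw = pt K i z hz}.Finite := by
  by_cases h : ∃ m : ℤ, R c (2 * m) z = ca c
  · obtain ⟨m, hm⟩ := h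
    refine (Set.toFinite ({z, 2 * (ca c : ℂ) * W c (2 * m) - z} : Set ℂ)).subset ?_
    rintro w ⟨j, hw, h1⟩
    rcases (pt_eq_iff K hz hw).1 h1.symm with ⟨-, h2⟩ | ⟨l, h2, -, h3⟩
    · exact Or.inl h2.symm
    · right
      have h4 := side_unique Fact.out hz h2 hm
      have h5 : W c (2 * l) = W c (2 * m) := by
        have hc : 3 ≤ c := Fact.out
        refine W_per (by omega) ?_
        obtain ⟨k, hk⟩ := h4
        exact ⟨k, by linear_combination 2 * hk⟩
      rw [h3, h5]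
      rfl
  · refine (Set.toFinite ({z} : Set ℂ)).subset ?_
    rintro w ⟨j, hw, h1⟩
    rcases (pt_eq_iff K hz hw).1 h1.symm with ⟨-, h2⟩ | ⟨l, h2, -, h3⟩
    · exact h2.symm
    · exact absurd ⟨l, h2⟩ h

/-- a common radius for all representatives -/
theorem Haus_rad' {T : Set ℂ} (hT : T.Finite) : ∃ r : ℝ, 0 < r ∧ ∀ z ∈ T, ∀ (m : ℤ) (w : ℂ),
    R c (2 * m) w = ca c → dist w z < r → R c (2 * m) z = ca c := by
  induction T, hT using Set.Finite.induction_on with
  | empty => exact ⟨1, one_pos, fun z hz => hz.elim⟩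
  | insert _ _ ih =>
    rename_i a s _ _
    obtain ⟨r, hr, h1⟩ := ih
    obtain ⟨r', hr', h2⟩ := Haus_rad (c := c) a
    refine ⟨min r r', lt_min hr hr', ?_⟩
    rintro z (rfl | hz) m w hw hd
    · exact h2 m w hw (hd.trans_le (min_le_right _ _))
    · exact h1 z hz m w hw (hd.trans_le (min_le_left _ _))

theorem Haus_refl_dist (m : ℤ) (z w : ℂ) : edist (2 * (ca c : ℂ) * W c (2 * m) - z)
    (2 * (ca c : ℂ) * W c (2 * m) - w) = edist z w := by
  rw [edist_dist, edist_dist, Complex.dist_eq, Complex.dist_eq,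
    show 2 * (ca c : ℂ) * W c (2 * m) - z - (2 * (ca c : ℂ) * W c (2 * m) - w) = -(z - w) by ring,
    norm_neg]

variable [TopologicalSpace I] [DiscreteTopology I]

/-- PROOF: continuous functions to `ℝ` separate points. For `x = pt i₀ z₀` and `y = pt j w`, `x ≠ y`: if `z₀` is
not on a side: `f i z = if i = i₀ then max 0 (r - dist z z₀) else 0` with `r` so small that this is `0` on all
sides (`isOpen_int`) and at `y`; if `z₀` is on the side `m`, `z₀' = 2 ca W (2 m) - z₀`: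
`f i z = (if i = i₀ then max 0 (r - dist z z₀) else 0) +
(if i = σ m i₀ then max 0 (r - dist z z₀') else 0)` with `r` so small that it is `0` on all other
sides and at `y` (a point `pt j w` has at most two representatives, `pt_eq_iff`). `exists_glue_fun`. -/
theorem t2 : T2Space (Sf K) := by
  rw [t2Space_iff]
  intro x y hxy
  obtain ⟨i₀, z₀, hz₀, rfl⟩ := exists_pt K x
  obtain ⟨j, w, hw, rfl⟩ := exists_pt K y
  have hT := Haus_rep K (i := i₀) hz₀
  obtain ⟨r, hr, hrad⟩ := Haus_rad' (c := c) hT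
  let S : I → Set ℂ := fun i => {w : ℂ | ∃ hw : w ∈ Pg c, pt K i w hw = pt K i₀ z₀ hz₀}
  let f : I → Pg c → ENNReal := fun i z => min (ENNReal.ofReal r) (Metric.infEDist (z : ℂ) (S i))
  have hf : ∀ i, Continuous (f i) := fun i =>
    continuous_const.min (Metric.continuous_infEDist.comp continuous_subtype_val)
  have hle : ∀ (i : I) (m : ℤ) (z : ℂ) (hz : z ∈ Pg c) (hm : R c (2 * m) z = ca c),
      f (K.σ m i) ⟨2 * (ca c : ℂ) * W c (2 * m) - z, refl_mem Fact.out hz hm⟩ ≤ f i ⟨z, hz⟩ := by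
    intro i m z hz hm
    refine le_min (min_le_left _ _) ?_
    rw [Metric.le_infEDist]
    rintro z' ⟨hz', h1⟩
    by_cases hd : dist z z' < r
    · have h2 : R c (2 * m) z' = ca c := hrad z' ⟨i, hz', h1⟩ m z hm hd
      refine (min_le_right _ _).trans ?_
      refine (Metric.infEDist_le_edist_of_mem
        (y := 2 * (ca c : ℂ) * W c (2 * m) - z') ?_).trans (Haus_refl_dist m z z').le
      exact ⟨refl_mem Fact.out hz' h2, (pt_glue K hz' h2).symm.trans h1⟩
    · refine (min_le_left _ _).trans ?_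
      show ENNReal.ofReal r ≤ edist z z'
      rw [edist_dist]
      exact ENNReal.ofReal_le_ofReal (not_lt.1 hd)
  obtain ⟨F, hF⟩ := exists_glue_fun K f hf (by
    intro i m z hz hm
    refine le_antisymm ?_ (hle i m z hz hm)
    have h2 : R c (2 * m) (2 * (ca c : ℂ) * W c (2 * m) - z) = ca c := by
      rw [R_refl, hm]
      ring
    have h3 := hle (K.σ m i) m (2 * (ca c : ℂ) * W c (2 * m) - z) (refl_mem Fact.out hz hm) h2
    have h4 : (⟨2 * (ca c : ℂ) * W c (2 * m) - (2 * (ca c : ℂ) * W c (2 * m) - z),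
        refl_mem Fact.out (refl_mem Fact.out hz hm) h2⟩ : Pg c) = ⟨z, hz⟩ :=
      Subtype.ext (by ring)
    rw [h4, K.inv] at h3
    exact h3)
  refine separated_by_continuous F.continuous ?_
  have e1 : F (pt K i₀ z₀ hz₀) = f i₀ ⟨z₀, hz₀⟩ := hF i₀ ⟨z₀, hz₀⟩
  have e2 : F (pt K j w hw) = f j ⟨w, hw⟩ := hF j ⟨w, hw⟩
  rw [e1, e2]
  have e3 : f i₀ ⟨z₀, hz₀⟩ = 0 := by
    refine le_antisymm ((min_le_right _ _).trans ?_) bot_le
    have h0 : z₀ ∈ S i₀ := ⟨hz₀, rfl⟩
    refine (Metric.infEDist_le_edist_of_mem h0).trans ?_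
    rw [edist_self]
  rw [e3]
  intro h
  have h1 : Metric.infEDist w (S j) = 0 := by
    rcases min_eq_iff.1 h.symm with ⟨h2, -⟩ | ⟨h2, -⟩
    · exact absurd (ENNReal.ofReal_eq_zero.1 h2) (not_le.2 hr)
    · exact h2
  have h2 : (S j).Finite := hT.subset fun v hv => ⟨j, hv⟩
  rw [← Metric.mem_closure_iff_infEDist_zero, h2.isClosed.closure_eq] at h1
  obtain ⟨h3, h4⟩ := h1
  exact hxy h4.symm

/-- The surface without the part `r < ρ` of the collar is compact. PROOF: it is the union (over the finite set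
`I`) of the images of the compact sets `{z ∈ Pg c | ∀ m, sa² / 2 * (ρ - 1) ≤ 1 - R (2 m - 1) z}`
(closed and bounded in `ℂ`). -/
theorem compact_core [Finite I] {E : Surf (Sf K) Unit}
    (hE : ∀ (t : ℤ) (u : ℝ) (hu : |u| ≤ 1 / 2) (r : Ioo (1 : ℝ) 2),
      E.collar () (((((t + u) / L : ℝ)) : AddCircle (1 : ℝ)), r) = cpt K t u hu r)
    (ρ : ℝ) (hρ : 1 < ρ) (hρ' : ρ < 2) :
    IsCompact (E.collar () '' {z | (z.2 : ℝ) < ρ})ᶜ := by
  have hc : 3 ≤ c := Fact.out
  have hsa := sa_pos hc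
  have hca := ca_lt_one hc
  have hca' := ca_pos hc
  have hsq := ca_sq_add c
  have hopen : IsOpen (E.collar () '' {z | (z.2 : ℝ) < ρ}) := by
    refine (E.emb ()).isOpenMap _ ?_
    exact isOpen_lt (continuous_subtype_val.comp continuous_snd) continuous_const
  -- the compact set of the polygon
  obtain ⟨δ, hδ⟩ : ∃ δ : ℝ, δ = sa c ^ 2 / 2 * (ρ - 1) := ⟨_, rfl⟩
  have hδ0 : 0 < δ := by
    rw [hδ]
    have : 0 < ρ - 1 := by linarith
    positivity
  let Q : Set ℂ := {z | (∀ m : ℤ, R c (2 * m) z ≤ ca c) ∧ ∀ m : ℤ, R c (2 * m - 1) z ≤ 1 - δ}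
  have hQP : Q ⊆ Pg c := fun z hz => ⟨hz.1, fun m => by linarith [hz.2 m]⟩
  have hQc : IsClosed Q := by
    have h1 : Q = (⋂ m : ℤ, {z : ℂ | R c (2 * m) z ≤ ca c}) ∩
        ⋂ m : ℤ, {z : ℂ | R c (2 * m - 1) z ≤ 1 - δ} := by
      ext z
      simp only [Q, mem_ofPred_eq, mem_inter_iff, mem_iInter]
    rw [h1]
    exact (isClosed_iInter fun m => isClosed_le (continuous_R c _) continuous_const).inter
      (isClosed_iInter fun m => isClosed_le (continuous_R c _) continuous_const)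
  have hP : ∀ z ∈ Pg c, ∀ j : ℤ, R c j z ≤ 1 := by
    intro z hz j
    rcases Int.even_or_odd' j with ⟨k, rfl | rfl⟩
    · linarith [hz.1 k]
    · have h1 := hz.2 (k + 1)
      rw [show 2 * (k + 1) - 1 = 2 * k + 1 by ring] at h1
      exact h1.le
  have hQb : Bornology.IsBounded Q := by
    refine (Metric.isBounded_closedBall (x := (0 : ℂ)) (r := 2)).subset fun z hz => ?_
    rw [mem_closedBall_zero_iff]
    obtain ⟨j, x, y, hx, hy, e⟩ := exists_cone hc z
    have h1 := hP z (hQP hz) j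
    have h2 := hP z (hQP hz) (j + 1)
    have h5 : R c (j + 1) (W c j) = ca c := by
      have := PolyA_RW2 c (j + 1)
      rwa [add_sub_cancel_right] at this
    rw [e, R_add, R_smul, R_smul, PolyA_RW, PolyA_RW1] at h1
    rw [e, R_add, R_smul, R_smul, PolyA_RW, h5] at h2
    have h3 : 0 ≤ x * ca c := mul_nonneg hx hca'.le
    have h4 : 0 ≤ y * ca c := mul_nonneg hy hca'.le
    rw [e]
    refine (norm_add_le _ _).trans ?_
    rw [norm_mul, norm_mul, Haus_norm_W, Haus_norm_W, Complex.norm_real, Complex.norm_real,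
      Real.norm_of_nonneg hx, Real.norm_of_nonneg hy]
    linarith
  have hQ : IsCompact Q := Metric.isCompact_of_isClosed_isBounded hQc hQb
  have hQ' : IsCompact {z : Pg c | (z : ℂ) ∈ Q} := by
    rw [Subtype.isCompact_iff]
    have h1 : (Subtype.val '' {z : Pg c | (z : ℂ) ∈ Q} : Set ℂ) = Q := by
      ext z
      constructor
      · rintro ⟨w, hw, rfl⟩
        exact hw
      · intro hz
        exact ⟨⟨z, hQP hz⟩, hz, rfl⟩
    have h2 : IsCompact (Subtype.val '' {z : Pg c | (z : ℂ) ∈ Q} : Set ℂ) := by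
      rw [h1]
      exact hQ
    exact h2
  have hU : IsCompact (⋃ i : I, (fun z : Pg c => pt K i z z.2) '' {z : Pg c | (z : ℂ) ∈ Q}) :=
    isCompact_iUnion fun i => hQ'.image (continuous_pt K i)
  refine hU.of_isClosed_subset hopen.isClosed_compl ?_
  intro x hx
  obtain ⟨i, z, hz, rfl⟩ := exists_pt K x
  refine mem_iUnion.2 ⟨i, ⟨z, hz⟩, ⟨hz.1, fun m => ?_⟩, rfl⟩
  by_contra h
  rw [not_le] at h
  apply hx
  have h1 : ColB_r c m z < ρ := by
    unfold ColB_r
    have h2 : 2 * (1 - R c (2 * m - 1) z) / sa c ^ 2 < ρ - 1 := by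
      rw [div_lt_iff₀ (by positivity)]
      rw [hδ] at h
      linarith
    linarith
  have h2 : 1 < ColB_r c m z := by
    unfold ColB_r
    have h3 : 0 < 1 - R c (2 * m - 1) z := by linarith [hz.2 m]
    have h4 : 0 < 2 * (1 - R c (2 * m - 1) z) / sa c ^ 2 := by positivity
    linarith
  obtain ⟨t, ht, hm⟩ := K.onto i m
  obtain ⟨hu, h3⟩ := ColB_point K hz ht hm (r := ⟨ColB_r c m z, h2, by linarith⟩) rfl
  rw [h3, ← hE]
  exact ⟨_, h1, rfl⟩

end

end Pool.Agent.H.MP_1611f1_gt.PB.Mo
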