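import Pool.Agent.H.MP_1611f1_gt.PB.Mo.ModelA
import Pool.Agent.H.MP_1611f1_gt.PB.Mo.Haus

/-!
MODEL OF THE FIBRE SURFACE: existence of the surface, the strips and the twists.
-/

namespace Pool.Agent.H.MP_1611f1_gt.PB.Mo

open Complex Set Topology

noncomputable section

/-- the sign of the polygon `i` for the band `m` -/
def sgn {k c : ℕ} (β : Fin c → ℕ) (m : Fin c) (i : Fin k) : ℤ :=
  if (i : ℕ) = β m then 1 else if (i : ℕ) = β m + 1 then -1 else 0

theorem sgn_cases {k c : ℕ} (β : Fin c → ℕ) (m : Fin c) (i : Fin k) :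
    sgn β m i = 1 ∨ sgn β m i = -1 ∨ sgn β m i = 0 := by
  unfold sgn
  split_ifs <;> simp

theorem dvd_fin {c : ℕ} {m m' : Fin c} (h : (c : ℤ) ∣ (m : ℤ) - m') : m = m' := by
  obtain ⟨q, hq⟩ := h
  have h1 := m.2
  have h2 := m'.2
  ext
  have h3 : -(c : ℤ) < c * q := by omega
  have h4 : (c : ℤ) * q < c := by omega
  have h5 : (0 : ℤ) < c := by omega
  have h6 : q < 1 := by
    by_contra h7
    push Not at h7
    nlinarith
  have h8 : -1 < q := by
    by_contra h7
    push Not at h7
    nlinarith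
  have : q = 0 := by omega
  subst this
  omega

theorem dvd_ofNat {c : ℕ} [NeZero c] {m : Fin c} {t : ℕ} :
    (c : ℤ) ∣ (m : ℤ) - (t : ℤ) ↔ Fin.ofNat c t = m := by
  constructor
  · intro h
    apply dvd_fin
    have h1 : (((Fin.ofNat c t : Fin c) : ℕ) : ℤ) = (t : ℤ) % c := by
      simp [Fin.ofNat]
    rw [h1, ← Int.modEq_iff_dvd]
    have h2 : (t : ℤ) ≡ m [ZMOD c] := Int.modEq_iff_dvd.2 h
    exact (h2.symm.trans (Int.mod_modEq _ _).symm)
  · rintro rfl
    have h1 : (((Fin.ofNat c t : Fin c) : ℕ) : ℤ) = (t : ℤ) % c := by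
      simp [Fin.ofNat]
    rw [h1, ← Int.modEq_iff_dvd]
    exact (Int.mod_modEq _ _).symm

/-- the chord bands of bricks of the same column or of adjacent columns which do not cross are
disjoint -/
theorem ch_ne {c : ℕ} (hc : 3 ≤ c) {β : Fin c → ℕ} {m m' d d' : Fin c} (hm : Brick β m m')
    (hd : Brick β d d') (hmd : m ≠ d) (hcr : ¬ Cross β m m' d d')
    (hcol : β m = β d ∨ β m = β d + 1 ∨ β d = β m + 1)
    {t : ℝ} (ht : t ∈ Icc (0 : ℝ) 1) {s : ℝ} (hs : |s| ≤ wd c) {t' : ℝ}
    (ht' : t' ∈ Icc (0 : ℝ) 1) {s' : ℝ} (hs' : |s'| ≤ wd c) :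
    ch c m m' t s ≠ ch c d d' t' s' := by
  have hm2 := m'.2
  have hd2 := d'.2
  have h1 : (m : ℕ) < m' := hm.1
  have h2 : (d : ℕ) < d' := hd.1
  have e1 : (m : ℕ) ≠ d := fun h => hmd (Fin.ext h)
  unfold Cross at hcr
  push Not at hcr
  obtain ⟨c1, c2, c3⟩ := hcr
  have e2 : (m' : ℕ) ≠ d := fun h => c1 (Fin.ext h)
  have e3 : (d' : ℕ) ≠ m := fun h => c2 (Fin.ext h)
  -- four cases
  have hfour : (m' : ℕ) < d ∨ (d' : ℕ) < m ∨ ((m : ℕ) < d ∧ (d' : ℕ) < m') ∨
      ((d : ℕ) < m ∧ (m' : ℕ) < d') := by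
    rcases hcol with h | h
    · -- the same column
      rcases Nat.lt_or_gt_of_ne e1 with h3 | h3
      · left
        by_contra h4
        have h5 : d < m' := by
          rw [Fin.lt_def]
          omega
        exact hm.2.2 d h3 h5 h.symm
      · right
        left
        by_contra h4
        have h5 : m < d' := by
          rw [Fin.lt_def]
          omega
        exact hd.2.2 m h3 h5 h
    · have hne : β m ≠ β d := by omega
      have e4 : (m' : ℕ) ≠ d' := fun h5 => by
        have : m' = d' := Fin.ext h5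
        have h6 := hm.2.1
        have h7 := hd.2.1
        rw [this] at h6
        omega
      have h8 : β d = β m + 1 ∨ β m = β d + 1 := by omega
      obtain ⟨c4, c5⟩ := c3 h8
      simp only [Fin.lt_def, Fin.le_def] at c4 c5
      rcases Nat.lt_or_gt_of_ne e1 with h3 | h3
      · by_cases h4 : (d : ℕ) < m'
        · have := c4 h3 h4
          right; right; left
          omega
        · left
          omega
      · by_cases h4 : (m : ℕ) < d'
        · have := c5 h3 h4
          right; right; right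
          omega
        · right; left
          omega
  rcases hfour with h | h | ⟨h, h'⟩ | ⟨h, h'⟩
  · exact ch_disj_far hc (by exact_mod_cast h1) (by exact_mod_cast h) (by exact_mod_cast h2)
      (by omega) ht hs ht' hs'
  · exact (ch_disj_far hc (by exact_mod_cast h2) (by exact_mod_cast h) (by exact_mod_cast h1)
      (by omega) ht' hs' ht hs).symm
  · exact ch_disj_nested hc (by exact_mod_cast h) (by exact_mod_cast h2) (by exact_mod_cast h')
      (by omega) ht hs ht' hs'
  · exact (ch_disj_nested hc (by exact_mod_cast h) (by exact_mod_cast h1)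
      (by exact_mod_cast h') (by omega) ht' hs' ht hs).symm

/-- **For every positive braid word whose closure is a knot there is a surface with the arc system of
the fibre surface, with annuli around the cores of all bricks, such that arbitrary powers of the Dehn
twists along these annuli satisfy all hypotheses.** -/
theorem exists_model {k c : ℕ} [NeZero c] {β : Fin c → ℕ} (hβ : Knot k β) (hc : 3 ≤ c) :
    ∃ (S : Type) (_ : TopologicalSpace S) (_ : ConnectedSpace S) (E : Surf S Unit)
      (A : Bands E k β) (a : Fin c → AddCircle (1 : ℝ) × Icc (-1 : ℝ) 1 → S), T2Space S ∧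
      (∀ ρ : ℝ, 1 < ρ → ρ < 2 → IsCompact (E.collar () '' {z | (z.2 : ℝ) < ρ})ᶜ) ∧
      (∀ m m', Brick β m m' → (∀ z, z ≠ m → z ≠ m' → ∀ x, A.kap z (a m x) = 0) ∧
        (∀ θ r, A.kap m (a m (θ, r)) = ((1 / 2 : ℝ) : AddCircle (1 : ℝ)) ↔ θ = 0) ∧
        ∀ θ r, A.kap m' (a m (θ, r)) = ((1 / 2 : ℝ) : AddCircle (1 : ℝ)) ↔
          θ = ((1 / 2 : ℝ) : AddCircle (1 : ℝ))) ∧
      ∀ e : Fin c → ℤ, ∃ H : Bricks A, ∀ m m', Brick β m m' → IsTwist (a m) (e m) (H.h m) := by
  classical
  have : Fact (3 ≤ c) := ⟨hc⟩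
  obtain ⟨K, hlv, hσ⟩ := exists_comb hβ
  obtain ⟨E, hE⟩ := exists_surf K
  have hconn : ConnectedSpace (Sf K) := connected K
  -- the strips
  have hsg : ∀ (m : Fin c) (i : Fin k), sgn β m (K.σ m i) = -sgn β m i := by
    intro m i
    unfold sgn
    rw [hσ]
    by_cases h1 : (i : ℕ) = β m
    · rw [h1, Equiv.swap_apply_left]
      simp
    · by_cases h2 : (i : ℕ) = β m + 1
      · rw [h2, Equiv.swap_apply_right]
        simp
      · rw [Equiv.swap_apply_of_ne_of_ne h1 h2]
        simp [h1, h2]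
  choose F hF using fun m : Fin c => exists_kap K (sgn β m) (m : ℤ) (hsg m) (sgn_cases β m)
  have hends : ∀ (m : Fin c) (t : ℕ) (u : ℝ) (r : Ioo (1 : ℝ) 2), u ∈ Icc (0 : ℝ) 1 →
      F m (E.collar () ((((t + u) / (k * c) : ℝ) : AddCircle (1 : ℝ)), r)) =
        ((if Fin.ofNat c t = m ∧ level β t = β m then u else
          if Fin.ofNat c t = m ∧ level β t = β m + 1 then -u else 0 : ℝ) :
            AddCircle (1 : ℝ)) := by
    intro m t u r hu
    have h1 := kap_collar K (hsg m) (hF m) hE (t : ℤ) u hu r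
    push_cast at h1
    rw [h1]
    congr 1
    by_cases h2 : Fin.ofNat c t = m
    · rw [if_pos (dvd_ofNat.2 h2)]
      unfold sgn
      rw [hlv]
      by_cases h3 : level β t = β m
      · rw [if_pos h3, if_pos ⟨h2, h3⟩]
        push_cast
        ring
      · by_cases h4 : level β t = β m + 1
        · rw [if_neg h3, if_pos h4,
            if_neg (fun h : Fin.ofNat c t = m ∧ level β t = β m => h3 h.2), if_pos ⟨h2, h4⟩]
          push_cast
          ring
        · rw [if_neg h3, if_neg h4,
            if_neg (fun h : Fin.ofNat c t = m ∧ level β t = β m => h3 h.2),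
            if_neg (fun h : Fin.ofNat c t = m ∧ level β t = β m + 1 => h4 h.2)]
          push_cast
          ring
    · rw [if_neg (fun h => h2 (dvd_ofNat.1 h)), if_neg (fun h => h2 h.1),
        if_neg (fun h => h2 h.1)]
  let A : Bands E k β :=
    { kap := F
      disj := by
        intro m m' x hne
        obtain ⟨i, z, hz, rfl⟩ := exists_pt K x
        rcases kp_disj hc hz (l := m) (m := m') (fun h => hne (dvd_fin h)) with h | h
        · left
          rw [hF, h, mul_zero]
          exact AddCircle.coe_zero ..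
        · right
          rw [hF, h, mul_zero]
          exact AddCircle.coe_zero ..
      ends := hends
      reach := fun x hx => kap_reach K (sgn_cases β) hF hE x hx }
  -- the annuli
  have hpos : ∀ m : Fin c, β m + 1 < k := hβ.1
  have hann : ∀ m : Fin c, ∃ a : AddCircle (1 : ℝ) × Icc (-1 : ℝ) 1 → Sf K,
      ∀ m', Brick β m m' → IsAnn K (⟨β m, by have := hpos m; omega⟩ : Fin k)
        ⟨β m + 1, hpos m⟩ m m' a := by
    intro m
    by_cases h : ∃ m', Brick β m m'
    · obtain ⟨m', hm'⟩ := h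
      have h1 : ((m : ℕ) : ℤ) < (m' : ℕ) := by exact_mod_cast hm'.1
      have h2 : (((m' : ℕ) : ℤ)) < (m : ℕ) + c := by
        have := m'.2
        omega
      obtain ⟨a, g1, g2, g3, g4⟩ := exists_annulus K (i := (⟨β m, by have := hpos m; omega⟩ : Fin k))
        (j := ⟨β m + 1, hpos m⟩) h1 h2 (by
          ext
          rw [hσ]
          exact Equiv.swap_apply_left _ _) (by
          ext
          rw [hσ, hm'.2.1]
          exact Equiv.swap_apply_left _ _) (by
          intro h
          have := congrArg Fin.val h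
          simp at this)
      refine ⟨a, fun m'' hm'' => ?_⟩
      have : m'' = m' := by
        rcases lt_trichotomy m' m'' with h | h | h
        · exact absurd hm'.2.1 (hm''.2.2 m' hm'.1 h)
        · exact h.symm
        · exact absurd hm''.2.1 (hm'.2.2 m'' hm''.1 h)
      subst this
      exact ⟨g1, g2, g3, g4⟩
    · push Not at h
      obtain ⟨x⟩ : Nonempty (Sf K) := hconn.toNonempty
      exact ⟨fun _ => x, fun m' hm' => absurd hm' (h m')⟩
  choose a ha using hann
  have hlt : ∀ {m m' : Fin c}, Brick β m m' → ((m : ℕ) : ℤ) < (m' : ℕ) ∧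
      (((m' : ℕ) : ℤ)) < (m : ℕ) + c := fun {m m'} h =>
    ⟨by exact_mod_cast h.1, by have := m'.2; omega⟩
  have hj : ∀ {m m' : Fin c}, Brick β m m' →
      K.σ m (⟨β m, by have := hpos m; omega⟩ : Fin k) = ⟨β m + 1, hpos m⟩ ∧
      K.σ m' (⟨β m, by have := hpos m; omega⟩ : Fin k) = ⟨β m + 1, hpos m⟩ := by
    intro m m' h
    constructor
    · ext
      rw [hσ]
      exact Equiv.swap_apply_left _ _
    · ext
      rw [hσ, h.2.1]
      exact Equiv.swap_apply_left _ _
  have hs1 : ∀ m : Fin c, sgn β m (⟨β m, by have := hpos m; omega⟩ : Fin k) = 1 := fun m => by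
    simp [sgn]
  have hs2 : ∀ m : Fin c, sgn β m (⟨β m + 1, hpos m⟩ : Fin k) = -1 := fun m => by
    simp [sgn]
  refine ⟨Sf K, inferInstance, hconn, E, A, a, t2 K, compact_core K hE, ?_, ?_⟩
  · intro m m' hm
    refine ⟨fun z h1 h2 x => ?_, fun θ r => ?_, fun θ r => ?_⟩
    · exact (ha m m' hm).kap_zero (hF z) (fun h => h1 (dvd_fin h)) (fun h => h2 (dvd_fin h)) x
    · exact (ha m m' hm).kap_fst (hlt hm).1 (hlt hm).2 (hF m) (Or.inl (hs1 m))
        (Or.inr (hs2 m)) θ r
    · refine (ha m m' hm).kap_snd (hlt hm).1 (hlt hm).2 (hF m') (Or.inl ?_) (Or.inr ?_) θ r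
      · unfold sgn
        simp [hm.2.1]
      · unfold sgn
        simp [hm.2.1]
  · intro e
    have htw : ∀ m : Fin c, ∃ T : Sf K ≃ₜ Sf K, (∀ m', Brick β m m' → IsTwist (a m) (e m) T) ∧
        ((¬ ∃ m', Brick β m m') → T = 1) := by
      intro m
      by_cases h : ∃ m', Brick β m m'
      · obtain ⟨m', hm'⟩ := h
        obtain ⟨T, h1, h2⟩ := exists_twist_map (a m) (ha m m' hm').emb (ha m m' hm').inner (e m)
        exact ⟨T, fun _ _ => ⟨(ha m m' hm').emb, (ha m m' hm').inner, h1, h2⟩,
          fun h => absurd ⟨m', hm'⟩ h⟩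
      · exact ⟨1, fun m' hm' => absurd ⟨m', hm'⟩ h, fun _ => rfl⟩
    choose T hT hT1 using htw
    refine ⟨⟨T, ?_, ?_, ?_⟩, fun m m' hm => hT m m' hm⟩
    · intro m z
      by_cases h : ∃ m', Brick β m m'
      · obtain ⟨m', hm'⟩ := h
        apply (hT m m' hm').outside
        rintro ⟨x, hx⟩
        obtain ⟨θ, r⟩ := z
        obtain ⟨t, u, hu, rfl⟩ := exists_sector K.pos θ
        rw [hE t u hu r] at hx
        exact (ha m m' hm').collar (hlt hm').1 (hlt hm').2 (hj hm').1 (hj hm').2 x t u hu r hx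
      · rw [hT1 m h]
        rfl
    · intro m m' hm z h1 h2 x
      exact twist_kap (hT m m' hm) (F := A.kap z) (fun y => (ha m m' hm).kap_zero (hF z)
        (fun h => h1 (dvd_fin h)) (fun h => h2 (dvd_fin h)) y) x
    · intro m m' d d' hm hd hcr
      by_cases hmd : m = d
      · rw [hmd]
      refine twist_commute (hT m m' hm) (hT d d' hd) ?_
      refine (ha m m' hm).disj (hlt hm).1 (hlt hm).2 (hj hm).1 (hj hm).2 (ha d d' hd) ?_
      by_cases hcol : β m = β d ∨ β m = β d + 1 ∨ β d = β m + 1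
      · exact Or.inr fun t ht s hs t' ht' s' hs' => ch_ne hc hm hd hmd hcr hcol ht hs ht' hs'
      · left
        push Not at hcol
        obtain ⟨g1, g2, g3⟩ := hcol
        refine ⟨?_, ?_, ?_, ?_⟩ <;> intro h <;> have h' := congrArg Fin.val h <;>
          simp only at h' <;> omega

end

end Pool.Agent.H.MP_1611f1_gt.PB.Mo
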