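import Pool.Agent.H.MP_1611f1_gt.PB.Mo.ChordA

/-!
MODEL OF THE FIBRE SURFACE: coordinates in the bands of the chords.
-/

namespace Pool.Agent.H.MP_1611f1_gt.PB.Mo

open Complex Set

noncomputable section

variable {c : ℕ}

theorem ChordB_R (c : ℕ) (i j : ℤ) (x y : ℝ) {α : ℝ}
    (hα : α = Real.pi * j / c - Real.pi * i / c) :
    R c i (fr c j x y) = x * Real.cos α - y * Real.sin α := by
  have h1 : (fr c j x y).re = x * Real.cos (Real.pi * j / c) - y * Real.sin (Real.pi * j / c) := by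
    unfold fr
    rw [Complex.mul_re, Trig_W_re, Trig_W_im]
    simp
  have h2 : (fr c j x y).im = x * Real.sin (Real.pi * j / c) + y * Real.cos (Real.pi * j / c) := by
    unfold fr
    rw [Complex.mul_im, Trig_W_re, Trig_W_im]
    simp
  rw [Trig_R, h1, h2, hα, Real.cos_sub, Real.sin_sub]
  ring

theorem ChordB_J (c : ℕ) (i j : ℤ) (x y : ℝ) {α : ℝ}
    (hα : α = Real.pi * j / c - Real.pi * i / c) :
    J c i (fr c j x y) = x * Real.sin α + y * Real.cos α := by
  have h1 : (fr c j x y).re = x * Real.cos (Real.pi * j / c) - y * Real.sin (Real.pi * j / c) := by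
    unfold fr
    rw [Complex.mul_re, Trig_W_re, Trig_W_im]
    simp
  have h2 : (fr c j x y).im = x * Real.sin (Real.pi * j / c) + y * Real.cos (Real.pi * j / c) := by
    unfold fr
    rw [Complex.mul_im, Trig_W_re, Trig_W_im]
    simp
  rw [Trig_J, h1, h2, hα, Real.cos_sub, Real.sin_sub]
  ring

/-- the component in the direction `j + n` in the frame of the direction `j` -/
theorem ChordB_rot (c : ℕ) (i j : ℤ) (z : ℂ) {α : ℝ}
    (hα : α = Real.pi * j / c - Real.pi * i / c) :
    R c i z = R c j z * Real.cos α - J c j z * Real.sin α := by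
  have h := ChordB_R c i j (R c j z) (J c j z) hα
  rwa [fr_R_J] at h

theorem ChordB_ang (hc : 3 ≤ c) {m m' : ℤ} (h : m < m') (h' : m' < m + c) :
    Real.pi / c ≤ Real.pi * (m' - m) / c ∧ Real.pi * (m' - m) / c ≤ Real.pi - Real.pi / c := by
  have hc0 : (0 : ℝ) < c := by
    have : 0 < c := by omega
    exact_mod_cast this
  have h1 : (1 : ℝ) ≤ m' - m := by
    have : m + 1 ≤ m' := h
    have h2 : ((m + 1 : ℤ) : ℝ) ≤ (m' : ℝ) := by exact_mod_cast this
    push_cast at h2
    linarith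
  have h2 : (m' : ℝ) - m ≤ c - 1 := by
    have : m' ≤ m + c - 1 := by omega
    have h3 : (m' : ℝ) ≤ ((m + c - 1 : ℤ) : ℝ) := by exact_mod_cast this
    push_cast at h3
    linarith
  have hp := Real.pi_pos
  constructor
  · rw [div_le_div_iff_of_pos_right hc0]
    nlinarith
  · have e : Real.pi - Real.pi / c = Real.pi * (c - 1) / c := by field_simp
    rw [e, div_le_div_iff_of_pos_right hc0]
    nlinarith

theorem ChordB_sin (hc : 3 ≤ c) {m m' : ℤ} (h : m < m') (h' : m' < m + c) :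
    sa c ≤ Real.sin (Real.pi * (m' - m) / c) := by
  obtain ⟨h1, h2⟩ := ChordB_ang hc h h'
  have h3 := Trig_small hc
  have e := Real.sin_sub_sin (Real.pi * (m' - m) / c) (Real.pi / c)
  have e1 : 0 ≤ Real.sin ((Real.pi * (m' - m) / c - Real.pi / c) / 2) :=
    Real.sin_nonneg_of_nonneg_of_le_pi (by linarith) (by linarith [Real.pi_pos])
  have e2 : 0 ≤ Real.cos ((Real.pi * (m' - m) / c + Real.pi / c) / 2) :=
    Real.cos_nonneg_of_neg_pi_div_two_le_of_le (by linarith [Real.pi_pos]) (by linarith)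
  have e3 : 0 ≤ 2 * Real.sin ((Real.pi * (m' - m) / c - Real.pi / c) / 2) *
    Real.cos ((Real.pi * (m' - m) / c + Real.pi / c) / 2) := by positivity
  unfold sa
  linarith

theorem ChordB_wd (hc : 3 ≤ c) : wd c < ca c * sa c := by
  have h1 := ca_pos hc
  have h2 := sa_pos hc
  have h3 := sa_lt_one hc
  unfold wd
  have h4 := mul_pos h1 h2
  nlinarith

/-- the positive number `ca sin δ - s cos δ` -/
theorem ChordB_E (hc : 3 ≤ c) {m m' : ℤ} (h : m < m') (h' : m' < m + c) {s : ℝ}
    (hs : |s| ≤ wd c) : 0 < ca c * Real.sin (Real.pi * (m' - m) / c) -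
      s * Real.cos (Real.pi * (m' - m) / c) := by
  have h1 := ChordB_sin hc h h'
  have h2 := ChordB_wd hc
  have h3 : s * Real.cos (Real.pi * (m' - m) / c) ≤ |s| := by
    calc s * Real.cos (Real.pi * (m' - m) / c) ≤ |s * Real.cos (Real.pi * (m' - m) / c)| :=
          le_abs_self _
      _ = |s| * |Real.cos (Real.pi * (m' - m) / c)| := abs_mul _ _
      _ ≤ |s| * 1 := by
          apply mul_le_mul_of_nonneg_left (Real.abs_cos_le_one _) (abs_nonneg _)
      _ = |s| := mul_one _
  have h4 : ca c * sa c ≤ ca c * Real.sin (Real.pi * (m' - m) / c) :=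
    mul_le_mul_of_nonneg_left h1 (ca_pos hc).le
  linarith

theorem ChordB_Rmid (c : ℕ) (m m' : ℤ) (t s : ℝ) :
    R c (m + m') (ch c m m' t s) = ca c * Real.cos (Real.pi * (m' - m) / c) +
      s * Real.sin (Real.pi * (m' - m) / c) := by
  unfold ch
  rw [R_add, R_smul, R_smul,
    ChordB_R c (m + m') (2 * m) (ca c) s (α := -(Real.pi * (m' - m) / c)) (by push_cast; ring),
    ChordB_R c (m + m') (2 * m') (ca c) (-s) (α := Real.pi * (m' - m) / c) (by push_cast; ring),
    Real.cos_neg, Real.sin_neg]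
  ring

theorem ChordB_Jmid (c : ℕ) (m m' : ℤ) (t s : ℝ) :
    J c (m + m') (ch c m m' t s) = (2 * t - 1) * (ca c * Real.sin (Real.pi * (m' - m) / c) -
      s * Real.cos (Real.pi * (m' - m) / c)) := by
  unfold ch
  rw [J_add, J_smul, J_smul,
    ChordB_J c (m + m') (2 * m) (ca c) s (α := -(Real.pi * (m' - m) / c)) (by push_cast; ring),
    ChordB_J c (m + m') (2 * m') (ca c) (-s) (α := Real.pi * (m' - m) / c) (by push_cast; ring),
    Real.cos_neg, Real.sin_neg]
  ring

theorem ChordB_two (c : ℕ) (m m' : ℤ) (z : ℂ) :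
    R c (2 * m) z = R c (m + m') z * Real.cos (Real.pi * (m' - m) / c) -
      J c (m + m') z * Real.sin (Real.pi * (m' - m) / c) ∧
    R c (2 * m') z = R c (m + m') z * Real.cos (Real.pi * (m' - m) / c) +
      J c (m + m') z * Real.sin (Real.pi * (m' - m) / c) := by
  constructor
  · exact ChordB_rot c (2 * m) (m + m') z (by push_cast; ring)
  · rw [ChordB_rot c (2 * m') (m + m') z (α := -(Real.pi * (m' - m) / c)) (by push_cast; ring),
      Real.cos_neg, Real.sin_neg]
    ring

/-- the offset `s` of a point in the band of the chord `m, m'` -/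
def cs (c : ℕ) (m m' : ℤ) (z : ℂ) : ℝ :=
  (R c (m + m') z - ca c * Real.cos (Real.pi * (m' - m) / c)) /
    Real.sin (Real.pi * (m' - m) / c)

/-- the coordinate `t` of a point in the band of the chord `m, m'` -/
def ct (c : ℕ) (m m' : ℤ) (z : ℂ) : ℝ :=
  (ca c - R c (2 * m) z) / ((ca c - R c (2 * m) z) + (ca c - R c (2 * m') z))

theorem cs_ch (hc : 3 ≤ c) {m m' : ℤ} (h : m < m') (h' : m' < m + c) (t s : ℝ) :
    cs c m m' (ch c m m' t s) = s := by
  have h1 := ChordB_sin hc h h'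
  have h2 := sa_pos hc
  have h3 : Real.sin (Real.pi * (m' - m) / c) ≠ 0 := (h2.trans_le h1).ne'
  unfold cs
  rw [ChordB_Rmid, add_sub_cancel_left, mul_div_cancel_right₀ _ h3]

theorem ct_ch (hc : 3 ≤ c) {m m' : ℤ} (h : m < m') (h' : m' < m + c) {t s : ℝ}
    (hs : |s| ≤ wd c) : ct c m m' (ch c m m' t s) = t := by
  have h1 := ChordB_sin hc h h'
  have h2 := sa_pos hc
  have hE := ChordB_E hc h h' hs
  obtain ⟨e1, e2⟩ := ChordB_two c m m' (ch c m m' t s)
  rw [ChordB_Rmid, ChordB_Jmid] at e1 e2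
  unfold ct
  rw [e1, e2]
  have hsc := Real.cos_sq_add_sin_sq (Real.pi * (m' - m) / c)
  obtain ⟨S, hS⟩ : ∃ S, S = Real.sin (Real.pi * (m' - m) / c) := ⟨_, rfl⟩
  obtain ⟨C, hC⟩ : ∃ C, C = Real.cos (Real.pi * (m' - m) / c) := ⟨_, rfl⟩
  rw [← hS] at h1
  rw [← hS, ← hC] at hE hsc ⊢
  have hSpos : 0 < S := h2.trans_le h1
  have f1 : ca c - ((ca c * C + s * S) * C - (2 * t - 1) * (ca c * S - s * C) * S) =
      t * (2 * S * (ca c * S - s * C)) := by
    linear_combination -ca c * hsc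
  have f2 : ca c - ((ca c * C + s * S) * C + (2 * t - 1) * (ca c * S - s * C) * S) =
      (1 - t) * (2 * S * (ca c * S - s * C)) := by
    linear_combination -ca c * hsc
  rw [f1, f2]
  have hpos : 0 < 2 * S * (ca c * S - s * C) := by positivity
  rw [div_eq_iff (by nlinarith)]
  ring

theorem ct_mem (hc : 3 ≤ c) {z : ℂ} (hz : z ∈ Pg c) (m m' : ℤ) : ct c m m' z ∈ Icc (0 : ℝ) 1 := by
  have h1 : 0 ≤ ca c - R c (2 * m) z := by linarith [hz.1 m]
  have h2 : 0 ≤ ca c - R c (2 * m') z := by linarith [hz.1 m']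
  unfold ct
  constructor
  · positivity
  · apply div_le_one_of_le₀ <;> linarith

theorem ct_den_pos (hc : 3 ≤ c) {z : ℂ} (hz : z ∈ Pg c) {m m' : ℤ} (h : ¬ (c : ℤ) ∣ m - m') :
    0 < (ca c - R c (2 * m) z) + (ca c - R c (2 * m') z) := by
  have h1 : 0 ≤ ca c - R c (2 * m) z := by linarith [hz.1 m]
  have h2 : 0 ≤ ca c - R c (2 * m') z := by linarith [hz.1 m']
  by_contra hcon
  exact h (side_unique hc hz (by linarith) (by linarith))

/-- PROOF: the two real linear forms `R (m + m')` and `R (2 m) (1 - t) ...`: with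
`s = cs z`, `t = ct z` both points have the same `R (m + m')` and the same ratio; compare along the
line `R (m + m') = const`, on which `R (2 m)` and `R (2 m')` are affine, with the ends on the sides. -/
theorem ch_cs_ct (hc : 3 ≤ c) {m m' : ℤ} (h : m < m') (h' : m' < m + c) {z : ℂ} (hz : z ∈ Pg c)
    (hs : |cs c m m' z| ≤ wd c) : ch c m m' (ct c m m' z) (cs c m m' z) = z := by
  have h1 := ChordB_sin hc h h'
  have h2 := sa_pos hc
  have hE := ChordB_E hc h h' hs
  obtain ⟨s, hsdef⟩ : ∃ s, s = cs c m m' z := ⟨_, rfl⟩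
  obtain ⟨t, htdef⟩ : ∃ t, t = ct c m m' z := ⟨_, rfl⟩
  rw [← hsdef] at hs hE
  rw [← hsdef, ← htdef]
  obtain ⟨e1, e2⟩ := ChordB_two c m m' z
  have hndvd : ¬ (c : ℤ) ∣ m - m' := by
    rintro ⟨k, hk⟩
    have hc1 : (0 : ℤ) < c := by omega
    have h3 : (c : ℤ) * k < 0 := by omega
    have h4 : -(c : ℤ) < (c : ℤ) * k := by omega
    have h5 : k < 0 := by nlinarith
    have h6 : -1 < k := by nlinarith
    omega
  have hden := ct_den_pos hc hz hndvd
  have hS0 : Real.sin (Real.pi * (m' - m) / c) ≠ 0 := (h2.trans_le h1).ne'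
  have hX : R c (m + m') z = ca c * Real.cos (Real.pi * (m' - m) / c) +
      s * Real.sin (Real.pi * (m' - m) / c) := by
    rw [hsdef]
    unfold cs
    rw [div_mul_cancel₀ _ hS0]
    ring
  have hT : t * ((ca c - R c (2 * m) z) + (ca c - R c (2 * m') z)) = ca c - R c (2 * m) z := by
    rw [htdef]
    unfold ct
    rw [div_mul_cancel₀ _ hden.ne']
  have hY : J c (m + m') z = (2 * t - 1) * (ca c * Real.sin (Real.pi * (m' - m) / c) -
      s * Real.cos (Real.pi * (m' - m) / c)) := by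
    rw [e1, e2, hX] at hT
    have hsc := Real.cos_sq_add_sin_sq (Real.pi * (m' - m) / c)
    have h3 : Real.sin (Real.pi * (m' - m) / c) * J c (m + m') z =
        Real.sin (Real.pi * (m' - m) / c) * ((2 * t - 1) *
          (ca c * Real.sin (Real.pi * (m' - m) / c) - s * Real.cos (Real.pi * (m' - m) / c))) := by
      linear_combination -hT - (2 * t - 1) * ca c * hsc
    exact mul_left_cancel₀ hS0 h3
  have hf := fr_R_J c (m + m') (ch c m m' t s)
  rw [ChordB_Rmid, ChordB_Jmid, ← hX, ← hY, fr_R_J] at hf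
  exact hf.symm

@[fun_prop]
theorem continuous_cs (c : ℕ) (m m' : ℤ) : Continuous (cs c m m') := by
  unfold cs
  fun_prop

theorem continuousOn_ct (hc : 3 ≤ c) {m m' : ℤ} (h : ¬ (c : ℤ) ∣ m - m') :
    ContinuousOn (ct c m m') (Pg c) := by
  unfold ct
  refine ContinuousOn.div ?_ ?_ ?_
  · fun_prop
  · fun_prop
  · intro z hz
    exact (ct_den_pos hc hz h).ne'

/-- the ends of the bands are glued with the reversed orientation -/
theorem ch_glue_zero (c : ℕ) (m m' : ℤ) (s : ℝ) :
    2 * (ca c : ℂ) * W c (2 * m) - ch c m m' 0 s = ch c m m' 0 (-s) := by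
  unfold ch fr
  push_cast
  ring

theorem ch_glue_one (c : ℕ) (m m' : ℤ) (s : ℝ) :
    2 * (ca c : ℂ) * W c (2 * m') - ch c m m' 1 s = ch c m m' 1 (-s) := by
  unfold ch fr
  push_cast
  ring

/-- the band meets the side `l` only at its ends -/
theorem ch_side (hc : 3 ≤ c) {m m' : ℤ} (h : m < m') (h' : m' < m + c) {t s : ℝ}
    (ht : t ∈ Icc (0 : ℝ) 1) (hs : |s| ≤ wd c) {l : ℤ}
    (hl : R c (2 * l) (ch c m m' t s) = ca c) :
    ((c : ℤ) ∣ l - m ∧ t = 0) ∨ ((c : ℤ) ∣ l - m' ∧ t = 1) := by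
  have hca := ca_pos hc
  have hsa := sa_pos hc
  have hsc := ca_sq_add c
  have hbd : ∀ (n : ℤ) (y : ℝ), ¬ (c : ℤ) ∣ l - n → |y| ≤ wd c →
      R c (2 * l) (fr c (2 * n) (ca c) y) < ca c := by
    intro n y hn hy
    have hn' : ¬ (c : ℤ) ∣ n - l := by
      intro hd
      apply hn
      rw [← neg_sub]
      exact hd.neg_right
    have h1 := cos_two_le hc hn'
    rw [ChordB_R c (2 * l) (2 * n) (ca c) y (α := Real.pi * (2 * ((n - l : ℤ) : ℝ)) / c)
      (by push_cast; ring)]
    have h2 : -(y * Real.sin (Real.pi * (2 * ((n - l : ℤ) : ℝ)) / c)) ≤ |y| := by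
      calc -(y * Real.sin (Real.pi * (2 * ((n - l : ℤ) : ℝ)) / c))
          ≤ |y * Real.sin (Real.pi * (2 * ((n - l : ℤ) : ℝ)) / c)| := neg_le_abs _
        _ = |y| * |Real.sin (Real.pi * (2 * ((n - l : ℤ) : ℝ)) / c)| := abs_mul _ _
        _ ≤ |y| * 1 := mul_le_mul_of_nonneg_left (Real.abs_sin_le_one _) (abs_nonneg _)
        _ = |y| := mul_one _
    have h3 := mul_le_mul_of_nonneg_left h1 hca.le
    have h4 : wd c = ca c * sa c ^ 2 / 4 := rfl
    have h5 : 0 < ca c * sa c ^ 2 := by positivity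
    have h6 : ca c * (2 * ca c ^ 2 - 1) = ca c - 2 * (ca c * sa c ^ 2) := by
      linear_combination 2 * ca c * hsc
    linarith
  have hself : ∀ (n : ℤ) (y : ℝ), (c : ℤ) ∣ l - n → R c (2 * l) (fr c (2 * n) (ca c) y) = ca c := by
    intro n y hn
    have h1 : (2 * c : ℤ) ∣ 2 * l - 2 * n := by
      rw [← mul_sub]
      exact mul_dvd_mul_left 2 hn
    rw [R_per (by omega) h1, R_fr]
  have hs' : |(-s)| ≤ wd c := by rwa [abs_neg]
  unfold ch at hl
  rw [R_add, R_smul, R_smul] at hl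
  by_cases hm : (c : ℤ) ∣ l - m
  · left
    refine ⟨hm, ?_⟩
    have hm' : ¬ (c : ℤ) ∣ l - m' := by
      intro hd
      obtain ⟨k, hk⟩ := dvd_sub hm hd
      have hc1 : (0 : ℤ) < c := by omega
      have h3 : 0 < (c : ℤ) * k := by omega
      have h4 : (c : ℤ) * k < c := by omega
      have h5 : 0 < k := by nlinarith
      have h6 : k < 1 := by nlinarith
      omega
    have h1 := hbd m' (-s) hm' hs'
    rw [hself m s hm] at hl
    have h2 : t * (ca c - R c (2 * l) (fr c (2 * m') (ca c) (-s))) = 0 := by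
      linear_combination -hl
    rcases mul_eq_zero.1 h2 with h3 | h3
    · exact h3
    · linarith
  · right
    have h1 := hbd m s hm hs
    by_cases hm' : (c : ℤ) ∣ l - m'
    · refine ⟨hm', ?_⟩
      rw [hself m' (-s) hm'] at hl
      have h2 : (1 - t) * (ca c - R c (2 * l) (fr c (2 * m) (ca c) s)) = 0 := by
        linear_combination -hl
      rcases mul_eq_zero.1 h2 with h3 | h3
      · linarith
      · linarith
    · exfalso
      have h2 := hbd m' (-s) hm' hs'
      have ht0 := ht.1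
      have ht1 := ht.2
      rcases ht0.lt_or_eq with h3 | h3
      · have h4 := mul_lt_mul_of_pos_left h2 h3
        have h5 := mul_le_mul_of_nonneg_left h1.le (sub_nonneg.2 ht1)
        linarith
      · rw [← h3] at hl
        linarith

end

end Pool.Agent.H.MP_1611f1_gt.PB.Mo
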