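import Mathlib

/-!
MODEL OF THE FIBRE SURFACE: general topological lemmas.
-/

namespace Pool.Agent.H.MP_1611f1_gt.PB.Mo

open Set Topology

theorem TopB_locFin (Y : Type*) [TopologicalSpace Y] :
    LocallyFinite (fun t : ℤ => (Icc ((t : ℝ) - 1 / 2) ((t : ℝ) + 1 / 2) ×ˢ (univ : Set Y))) := by
  rintro ⟨x, y⟩
  refine ⟨Ioo (x - 1) (x + 1) ×ˢ univ, (isOpen_Ioo.prod isOpen_univ).mem_nhds
    ⟨⟨by simp, by simp⟩, mem_univ _⟩, ?_⟩
  refine (Set.finite_Icc (⌊x - 2⌋) (⌈x + 2⌉)).subset ?_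
  rintro t ⟨⟨x', y'⟩, ⟨⟨h1, h2⟩, -⟩, ⟨h3, h4⟩, -⟩
  simp only at h1 h2 h3 h4
  constructor
  · have h5 : (⌊x - 2⌋ : ℝ) ≤ x - 2 := Int.floor_le _
    have h6 : (⌊x - 2⌋ : ℝ) ≤ (t : ℝ) := by linarith
    exact_mod_cast h6
  · have h5 : x + 2 ≤ (⌈x + 2⌉ : ℝ) := Int.le_ceil _
    have h6 : (t : ℝ) ≤ (⌈x + 2⌉ : ℝ) := by linarith
    exact_mod_cast h6

theorem TopB_val {Y Z : Type*} (f : ℤ → ℝ → Y → Z)
    (hg : ∀ t y, f t (1 / 2) y = f (t + 1) (-(1 / 2)) y) (t : ℤ) {u : ℝ} (hu : |u| ≤ 1 / 2)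
    (y : Y) :
    f (round ((t : ℝ) + u)) (((t : ℝ) + u) - (round ((t : ℝ) + u) : ℝ)) y = f t u y := by
  obtain ⟨h1, h2⟩ := abs_le.1 hu
  rcases h2.lt_or_eq with h3 | h3
  · have h4 : round ((t : ℝ) + u) = t := by
      rw [round_eq, Int.floor_eq_iff]
      constructor <;> linarith
    rw [h4, add_sub_cancel_left]
  · have h4 : round ((t : ℝ) + u) = t + 1 := by
      rw [round_eq, Int.floor_eq_iff]
      push_cast
      constructor <;> linarith
    rw [h4, h3, hg]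
    congr 1
    push_cast
    ring

/-- Gluing of `L` maps to a map on the circle. The interval `[t - 1/2, t + 1/2] / L` is mapped by `f t`.
PROOF: on `ℝ` the function `x ↦ f (round x) (x - round x)` is continuous (near a half integer:
two pieces, `Continuous.if_le` or the union of two closed sets), `L`-periodic; pass to the quotient
(`ℝ × Y → AddCircle × Y` is an open quotient map) and rescale. -/
theorem exists_circle_glue {Y Z : Type*} [TopologicalSpace Y] [TopologicalSpace Z] {L : ℕ}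
    (hL : 0 < L) (f : ℤ → ℝ → Y → Z)
    (hf : ∀ t, ContinuousOn (fun p : ℝ × Y => f t p.1 p.2) (Icc (-(1 / 2)) (1 / 2) ×ˢ univ))
    (hg : ∀ t y, f t (1 / 2) y = f (t + 1) (-(1 / 2)) y)
    (hper : ∀ t u y, f (t + L) u y = f t u y) :
    ∃ F : C(AddCircle (1 : ℝ) × Y, Z), ∀ (t : ℤ) (u : ℝ) (y : Y), |u| ≤ 1 / 2 →
      F (((((t + u) / L : ℝ)) : AddCircle (1 : ℝ)), y) = f t u y := by
  classical
  have hL' : (0 : ℝ) < (L : ℝ) := by exact_mod_cast hL
  obtain ⟨g, hgdef⟩ : ∃ g : ℝ × Y → Z,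
      g = fun p => f (round p.1) (p.1 - (round p.1 : ℝ)) p.2 := ⟨_, rfl⟩
  have hgv : ∀ (t : ℤ) (u : ℝ) (y : Y), |u| ≤ 1 / 2 → g ((t : ℝ) + u, y) = f t u y := by
    intro t u y hu
    rw [hgdef]
    exact TopB_val f hg t hu y
  have hgc : Continuous g := by
    refine (TopB_locFin Y).continuous ?_ ?_ ?_
    · rw [eq_univ_iff_forall]
      rintro ⟨x, y⟩
      rw [mem_iUnion]
      obtain ⟨h1, h2⟩ := abs_le.1 (abs_sub_round x)
      exact ⟨round x, ⟨by simp only; linarith, by simp only; linarith⟩, mem_univ _⟩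
    · intro t
      exact isClosed_Icc.prod isClosed_univ
    · intro t
      have h1 : ContinuousOn (fun p : ℝ × Y => f t (p.1 - t) p.2)
          (Icc ((t : ℝ) - 1 / 2) ((t : ℝ) + 1 / 2) ×ˢ (univ : Set Y)) := by
        refine (hf t).comp (f := fun p : ℝ × Y => (p.1 - (t : ℝ), p.2)) ?_ ?_
        · exact Continuous.continuousOn (by fun_prop)
        · rintro ⟨x, y⟩ ⟨⟨h2, h3⟩, -⟩
          simp only at h2 h3
          exact ⟨⟨by simp only; linarith, by simp only; linarith⟩, mem_univ _⟩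
      refine h1.congr ?_
      rintro ⟨x, y⟩ ⟨⟨h2, h3⟩, -⟩
      simp only at h2 h3
      have h4 := hgv t (x - t) y (abs_le.2 ⟨by linarith, by linarith⟩)
      rw [add_sub_cancel] at h4
      exact h4
  have hgp : ∀ x y, g (x + (L : ℝ), y) = g (x, y) := by
    intro x y
    rw [hgdef]
    simp only
    rw [round_add_natCast, hper]
    congr 1
    push_cast
    ring
  have hP : ∀ y, Function.Periodic (fun x : ℝ => g ((L : ℝ) * x, y)) 1 := by
    intro y x
    simp only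
    rw [mul_add, mul_one, hgp]
  let F : AddCircle (1 : ℝ) × Y → Z := fun p => (hP p.2).lift p.1
  have hF : ∀ (x : ℝ) (y : Y), F ((x : AddCircle (1 : ℝ)), y) = g ((L : ℝ) * x, y) := fun x y =>
    (hP y).lift_coe x
  have hq : IsOpenQuotientMap
      (Prod.map (QuotientAddGroup.mk : ℝ → AddCircle (1 : ℝ)) (id : Y → Y)) :=
    IsOpenQuotientMap.prodMap QuotientAddGroup.isOpenQuotientMap_mk IsOpenQuotientMap.id
  have hFc : Continuous F := by
    rw [hq.isQuotientMap.continuous_iff]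
    have h1 : F ∘ (Prod.map (QuotientAddGroup.mk : ℝ → AddCircle (1 : ℝ)) (id : Y → Y)) =
        fun p : ℝ × Y => g ((L : ℝ) * p.1, p.2) := by
      funext p
      exact hF p.1 p.2
    rw [h1]
    exact hgc.comp (by fun_prop)
  refine ⟨⟨F, hFc⟩, ?_⟩
  intro t u y hu
  show F (((((t + u) / L : ℝ)) : AddCircle (1 : ℝ)), y) = f t u y
  rw [hF, mul_div_cancel₀ _ hL'.ne']
  exact hgv t u y hu

/-- every point of the circle is of this form -/
theorem exists_sector {L : ℕ} (hL : 0 < L) (θ : AddCircle (1 : ℝ)) :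
    ∃ (t : ℤ) (u : ℝ), |u| ≤ 1 / 2 ∧ θ = ((((t + u) / L : ℝ)) : AddCircle (1 : ℝ)) := by
  have hL' : (0 : ℝ) < (L : ℝ) := by exact_mod_cast hL
  obtain ⟨x, rfl⟩ := QuotientAddGroup.mk_surjective θ
  refine ⟨round ((L : ℝ) * x), (L : ℝ) * x - round ((L : ℝ) * x), abs_sub_round _, ?_⟩
  rw [add_sub_cancel, mul_div_cancel_left₀ _ hL'.ne']

/-- `(t + u) / L = (t' + u') / L` in `ℝ / ℤ` -/
theorem sector_eq_iff {L : ℕ} (hL : 0 < L) {t t' : ℤ} {u u' : ℝ} (hu : |u| ≤ 1 / 2)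
    (hu' : |u'| ≤ 1 / 2) :
    ((((t + u) / L : ℝ)) : AddCircle (1 : ℝ)) = ((((t' + u') / L : ℝ)) : AddCircle (1 : ℝ)) ↔
      ((L : ℤ) ∣ t - t' ∧ u = u') ∨ ((L : ℤ) ∣ t + 1 - t' ∧ u = 1 / 2 ∧ u' = -(1 / 2)) ∨
        ((L : ℤ) ∣ t - 1 - t' ∧ u = -(1 / 2) ∧ u' = 1 / 2) := by
  have hL' : (0 : ℝ) < (L : ℝ) := by exact_mod_cast hL
  obtain ⟨h1, h2⟩ := abs_le.1 hu
  obtain ⟨h3, h4⟩ := abs_le.1 hu'
  rw [← sub_eq_zero, ← AddCircle.coe_sub, AddCircle.coe_eq_zero_iff]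
  constructor
  · rintro ⟨n, hn⟩
    rw [zsmul_eq_mul, mul_one, eq_sub_iff_add_eq] at hn
    have hn' : (n : ℝ) * L + (t' + u') = t + u := by
      have h5 : ((n : ℝ) + (t' + u') / L) * L = (t + u) / L * L := by rw [hn]
      rw [add_mul, div_mul_cancel₀ _ hL'.ne', div_mul_cancel₀ _ hL'.ne'] at h5
      exact h5
    have h6 : ((n * L + t' - t : ℤ) : ℝ) = u - u' := by
      push_cast
      linarith
    have h7 : (n * L + t' - t : ℤ) < 2 := by
      have : ((n * L + t' - t : ℤ) : ℝ) < ((2 : ℤ) : ℝ) := by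
        rw [h6]
        push_cast
        linarith
      exact_mod_cast this
    have h8 : -2 < (n * L + t' - t : ℤ) := by
      have : (((-2 : ℤ)) : ℝ) < ((n * L + t' - t : ℤ) : ℝ) := by
        rw [h6]
        push_cast
        linarith
      exact_mod_cast this
    have h9 : (n * L + t' - t : ℤ) = 0 ∨ (n * L + t' - t : ℤ) = 1 ∨
        (n * L + t' - t : ℤ) = -1 := by omega
    rcases h9 with h9 | h9 | h9
    · left
      rw [h9] at h6
      push_cast at h6
      exact ⟨⟨n, by linarith⟩, by linarith⟩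
    · right; left
      rw [h9] at h6
      push_cast at h6
      exact ⟨⟨n, by linarith⟩, by linarith, by linarith⟩
    · right; right
      rw [h9] at h6
      push_cast at h6
      exact ⟨⟨n, by linarith⟩, by linarith, by linarith⟩
  · have key : ∀ n : ℤ, (n : ℝ) * L + (t' + u') = t + u →
        ∃ m : ℤ, m • (1 : ℝ) = (t + u) / L - (t' + u') / L := by
      intro n hn
      refine ⟨n, ?_⟩
      rw [zsmul_eq_mul, mul_one, ← hn]
      field_simp
      ring
    rintro (⟨⟨n, hn⟩, h⟩ | ⟨⟨n, hn⟩, h, h'⟩ | ⟨⟨n, hn⟩, h, h'⟩)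
    · refine key n ?_
      have h5 : (t : ℝ) - t' = L * n := by exact_mod_cast hn
      rw [h]
      linarith
    · refine key n ?_
      have h5 : (t : ℝ) + 1 - t' = L * n := by exact_mod_cast hn
      rw [h, h']
      linarith
    · refine key n ?_
      have h5 : (t : ℝ) - 1 - t' = L * n := by exact_mod_cast hn
      rw [h, h']
      linarith

end Pool.Agent.H.MP_1611f1_gt.PB.Mo
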