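import Pool.Agent.H.MP_1611f1_gt.PB.Mo.Space
import Pool.Agent.H.MP_1611f1_gt.PB.Mo.TopB
import Pool.Agent.H.MP_1611f1_gt.PB.Mo.ChordB

/-!
MODEL OF THE FIBRE SURFACE: annuli around the cores of the bricks.
-/

namespace Pool.Agent.H.MP_1611f1_gt.PB.Mo

open Complex Set Topology

noncomputable section

variable {c L : ℕ} {I : Type}

theorem Ann_wd_pos (hc : 3 ≤ c) : 0 < wd c := by
  have h1 := ca_pos hc
  have h2 := sa_pos hc
  unfold wd
  positivity

theorem Ann_ndvd {m m' : ℤ} (h : m < m') (h' : m' < m + c) : ¬ (c : ℤ) ∣ m - m' := by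
  intro hd
  have h1 : (c : ℤ) ∣ m' - m := by
    have h2 := (dvd_neg).2 hd
    rwa [neg_sub] at h2
  have h3 := Int.le_of_dvd (by omega) h1
  omega

theorem Ann_le (hc : 3 ≤ c) (r : Icc (-1 : ℝ) 1) : |wd c * r| ≤ wd c := by
  have h1 := Ann_wd_pos hc
  rw [abs_mul, abs_of_pos h1]
  have h2 : |(r : ℝ)| ≤ 1 := abs_le.2 r.2
  nlinarith [abs_nonneg (r : ℝ)]

theorem Ann_le' (hc : 3 ≤ c) (r : Icc (-1 : ℝ) 1) : |-(wd c * r)| ≤ wd c := by
  rw [abs_neg]
  exact Ann_le hc r

/-- clamping to the unit interval -/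
def Ann_cl (x : ℝ) : ℝ := max 0 (min 1 x)

theorem Ann_cl_mem (x : ℝ) : Ann_cl x ∈ Icc (0 : ℝ) 1 := by
  unfold Ann_cl
  exact ⟨le_max_left _ _, max_le zero_le_one (min_le_left _ _)⟩

theorem Ann_cl_eq {x : ℝ} (hx : x ∈ Icc (0 : ℝ) 1) : Ann_cl x = x := by
  unfold Ann_cl
  rw [min_eq_right hx.2, max_eq_right hx.1]

theorem Ann_cl_cont : Continuous Ann_cl := by
  unfold Ann_cl
  fun_prop

theorem Ann_ch_cont (m m' : ℤ) : Continuous fun p : ℝ × ℝ => ch c m m' p.1 p.2 := by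
  unfold ch fr
  fun_prop

theorem Ann_side_zero (m m' : ℤ) (s : ℝ) : R c (2 * m) (ch c m m' 0 s) = ca c := by
  have : ch c m m' 0 s = fr c (2 * m) (ca c) s := by
    unfold ch
    simp
  rw [this, R_fr]

theorem Ann_side_one (m m' : ℤ) (s : ℝ) : R c (2 * m') (ch c m m' 1 s) = ca c := by
  have : ch c m m' 1 s = fr c (2 * m') (ca c) (-s) := by
    unfold ch
    simp
  rw [this, R_fr]

variable [Fact (3 ≤ c)] (K : Comb c L I)

/-- the points of a band in the polygon `i`, seen from another polygon -/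
theorem Ann_eq {i j : I} {m m' : ℤ} (h : m < m') (h' : m' < m + c) (hj : K.σ m i = j)
    (hj' : K.σ m' i = j) {t s : ℝ} (ht : t ∈ Icc (0 : ℝ) 1) (hs : |s| ≤ wd c)
    (hz : ch c m m' t s ∈ Pg c) {k : I} {w : ℂ} (hw : w ∈ Pg c)
    (e : pt K i (ch c m m' t s) hz = pt K k w hw) :
    (k = i ∧ w = ch c m m' t s) ∨ (k = j ∧ (t = 0 ∨ t = 1) ∧ w = ch c m m' t (-s)) := by
  have hc : 3 ≤ c := Fact.out
  rw [pt_eq_iff] at e
  rcases e with ⟨h1, h2⟩ | ⟨l, h1, h2, h3⟩
  · exact Or.inl ⟨h1.symm, h2.symm⟩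
  · right
    rcases ch_side hc h h' ht hs h1 with ⟨hl, rfl⟩ | ⟨hl, rfl⟩
    · refine ⟨by rw [h2, K.σ_congr hl, hj], Or.inl rfl, ?_⟩
      have hW : W c (2 * l) = W c (2 * m) := W_per (by omega) (by
        rw [← mul_sub]
        exact mul_dvd_mul_left 2 hl)
      rw [h3, hW, ch_glue_zero]
    · refine ⟨by rw [h2, K.σ_congr hl, hj'], Or.inr rfl, ?_⟩
      have hW : W c (2 * l) = W c (2 * m') := W_per (by omega) (by
        rw [← mul_sub]
        exact mul_dvd_mul_left 2 hl)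
      rw [h3, hW, ch_glue_one]

theorem Ann_pt_congr {i : I} {z w : ℂ} (hz : z ∈ Pg c) (hw : w ∈ Pg c) (h : z = w) :
    pt K i z hz = pt K i w hw := by
  subst h
  rfl

theorem Ann_zero {i j : I} {m m' : ℤ} (hj : K.σ m i = j) {s s' : ℝ} (hs : s' = -s)
    (hz : ch c m m' 0 s ∈ Pg c) (hz' : ch c m m' 0 s' ∈ Pg c) :
    pt K i (ch c m m' 0 s) hz = pt K j (ch c m m' 0 s') hz' := by
  rw [pt_eq_iff]
  refine Or.inr ⟨m, Ann_side_zero m m' s, hj.symm, ?_⟩
  rw [ch_glue_zero, hs]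

theorem Ann_one {i j : I} {m m' : ℤ} (hj : K.σ m' i = j) {s s' : ℝ} (hs : s' = -s)
    (hz : ch c m m' 1 s ∈ Pg c) (hz' : ch c m m' 1 s' ∈ Pg c) :
    pt K i (ch c m m' 1 s) hz = pt K j (ch c m m' 1 s') hz' := by
  rw [pt_eq_iff]
  refine Or.inr ⟨m', Ann_side_one m m' s, hj.symm, ?_⟩
  rw [ch_glue_one, hs]

/-- every point of the circle lies on one of the two halves -/
theorem Ann_circle (θ : AddCircle (1 : ℝ)) : ∃ t ∈ Icc (0 : ℝ) 1,
    θ = ((t / 2 : ℝ) : AddCircle (1 : ℝ)) ∨ θ = ((1 - t / 2 : ℝ) : AddCircle (1 : ℝ)) := by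
  obtain ⟨x, hx, rfl⟩ : ∃ x ∈ Ico (0 : ℝ) (0 + 1), ((x : ℝ) : AddCircle (1 : ℝ)) = θ := by
    have := AddCircle.coe_image_Ico_eq (1 : ℝ) 0
    have h2 : θ ∈ ((↑) : ℝ → AddCircle (1 : ℝ)) '' Ico (0 : ℝ) (0 + 1) := by
      rw [this]
      trivial
    exact h2
  rw [zero_add] at hx
  by_cases h : x ≤ 1 / 2
  · refine ⟨2 * x, ⟨by linarith [hx.1], by linarith⟩, Or.inl ?_⟩
    congr 1
    ring
  · refine ⟨2 * (1 - x), ⟨by linarith [hx.2], by push Not at h; linarith⟩, Or.inr ?_⟩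
    congr 1
    ring

theorem Ann_coe {t : ℝ} (h : t = 0 ∨ t = 1) :
    ((1 - t / 2 : ℝ) : AddCircle (1 : ℝ)) = ((t / 2 : ℝ) : AddCircle (1 : ℝ)) := by
  rcases h with rfl | rfl
  · have : ((1 - 0 / 2 : ℝ) : AddCircle (1 : ℝ)) = (((0 / 2 : ℝ) + 1 : ℝ) : AddCircle (1 : ℝ)) := by
      congr 1
      ring
    rw [this, AddCircle.coe_add_period]
  · congr 1
    ring

variable [TopologicalSpace I] [DiscreteTopology I]

theorem Ann_cont (i : I) {m m' : ℤ} (hn : ¬ (c : ℤ) ∣ m - m') {X : Type*} [TopologicalSpace X]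
    {f g : X → ℝ} (hf : Continuous f) (hg : Continuous g) (h1 : ∀ x, f x ∈ Icc (0 : ℝ) 1)
    (h2 : ∀ x, |g x| ≤ wd c) :
    Continuous fun x => pt K i (ch c m m' (f x) (g x)) (ch_mem Fact.out hn (h1 x) (h2 x)) := by
  have h3 : Continuous fun x => (⟨ch c m m' (f x) (g x), ch_mem Fact.out hn (h1 x) (h2 x)⟩ :
      Pg c) := ((Ann_ch_cont m m').comp (hf.prodMk hg)).subtype_mk _
  exact (continuous_pt K i).comp h3

/-- existence of the map -/
theorem Ann_map {i j : I} {m m' : ℤ} (hn : ¬ (c : ℤ) ∣ m - m') (hj : K.σ m i = j)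
    (hj' : K.σ m' i = j) :
    ∃ a : AddCircle (1 : ℝ) × Icc (-1 : ℝ) 1 → Sf K, Continuous a ∧
      (∀ (t : ℝ) (ht : t ∈ Icc (0 : ℝ) 1) (r : Icc (-1 : ℝ) 1),
        a (((t / 2 : ℝ) : AddCircle (1 : ℝ)), r) = pt K i (ch c m m' t (wd c * r))
          (ch_mem Fact.out hn ht (Ann_le Fact.out r))) ∧
      (∀ (t : ℝ) (ht : t ∈ Icc (0 : ℝ) 1) (r : Icc (-1 : ℝ) 1),
        a (((1 - t / 2 : ℝ) : AddCircle (1 : ℝ)), r) =
          pt K j (ch c m m' t (-(wd c * r))) (ch_mem Fact.out hn ht (Ann_le' Fact.out r))) := by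
  have hc : 3 ≤ c := Fact.out
  have hij : K.σ m j = i := by rw [← hj, K.inv]
  have hij' : K.σ m' j = i := by rw [← hj', K.inv]
  set A : ℝ → Icc (-1 : ℝ) 1 → Sf K := fun u y =>
    pt K i (ch c m m' (Ann_cl (u + 1 / 2)) (wd c * y))
      (ch_mem hc hn (Ann_cl_mem _) (Ann_le hc y)) with hA
  set B : ℝ → Icc (-1 : ℝ) 1 → Sf K := fun u y =>
    pt K j (ch c m m' (Ann_cl (1 / 2 - u)) (-(wd c * y)))
      (ch_mem hc hn (Ann_cl_mem _) (Ann_le' hc y)) with hB
  have cA : Continuous fun p : ℝ × Icc (-1 : ℝ) 1 => A p.1 p.2 :=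
    Ann_cont K i hn (f := fun p : ℝ × Icc (-1 : ℝ) 1 => Ann_cl (p.1 + 1 / 2))
      (g := fun p => wd c * p.2) (Ann_cl_cont.comp (by fun_prop)) (by fun_prop)
      (fun p => Ann_cl_mem _) (fun p => Ann_le hc _)
  have cB : Continuous fun p : ℝ × Icc (-1 : ℝ) 1 => B p.1 p.2 :=
    Ann_cont K j hn (f := fun p : ℝ × Icc (-1 : ℝ) 1 => Ann_cl (1 / 2 - p.1))
      (g := fun p => -(wd c * p.2)) (Ann_cl_cont.comp (by fun_prop)) (by fun_prop)
      (fun p => Ann_cl_mem _) (fun p => Ann_le' hc _)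
  obtain ⟨F, hF⟩ := exists_circle_glue (L := 2) two_pos
    (fun (t : ℤ) (u : ℝ) (y : Icc (-1 : ℝ) 1) => if Even t then A u y else B u y) (by
      intro t
      by_cases ht : Even t
      · simp only [ht, if_true]
        exact cA.continuousOn
      · simp only [ht, if_false]
        exact cB.continuousOn) (by
      intro t y
      by_cases ht : Even t
      · have ht' : ¬ Even (t + 1) := by
          rw [Int.even_add_one]
          simpa using ht
        simp only [ht, ht', if_true, if_false, hA, hB]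
        have e1 : Ann_cl (1 / 2 + 1 / 2) = 1 := by
          rw [Ann_cl_eq (by norm_num)]
          norm_num
        have e2 : Ann_cl (1 / 2 - -(1 / 2)) = 1 := by
          rw [Ann_cl_eq (by norm_num)]
          norm_num
        simp only [e1, e2]
        exact Ann_one K hj' rfl _ _
      · have ht' : Even (t + 1) := by
          rw [Int.even_add_one]
          exact ht
        simp only [ht, ht', if_true, if_false, hA, hB]
        have e1 : Ann_cl (1 / 2 - 1 / 2) = 0 := by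
          rw [Ann_cl_eq (by norm_num)]
          norm_num
        have e2 : Ann_cl (-(1 / 2) + 1 / 2) = 0 := by
          rw [Ann_cl_eq (by norm_num)]
          norm_num
        simp only [e1, e2]
        exact Ann_zero K hij (by ring) _ _) (by
      intro t u y
      have : Even (t + ((2 : ℕ) : ℤ)) ↔ Even t := by
        simp
      simp only [this])
  refine ⟨fun x => F (x.1 + ((-(1 / 4) : ℝ) : AddCircle (1 : ℝ)), x.2), by fun_prop, ?_, ?_⟩
  · intro t ht r
    have h1 := hF 0 (t - 1 / 2) r (by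
      rw [abs_le]
      constructor <;> linarith [ht.1, ht.2])
    simp only [Even.zero, if_true] at h1
    have h2 : (((t / 2 : ℝ) : AddCircle (1 : ℝ)) + ((-(1 / 4) : ℝ) : AddCircle (1 : ℝ))) =
        (((((0 : ℤ) : ℝ) + (t - 1 / 2)) / ((2 : ℕ) : ℝ) : ℝ) : AddCircle (1 : ℝ)) := by
      rw [← AddCircle.coe_add]
      congr 1
      push_cast
      ring
    simp only [h2]
    rw [h1]
    simp only [hA]
    apply Ann_pt_congr
    rw [Ann_cl_eq (by
      constructor <;> linarith [ht.1, ht.2])]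
    congr 1
    ring
  · intro t ht r
    have h1 := hF 1 (1 / 2 - t) r (by
      rw [abs_le]
      constructor <;> linarith [ht.1, ht.2])
    have h3 : ¬ Even (1 : ℤ) := by decide
    simp only [h3, if_false] at h1
    have h2 : (((1 - t / 2 : ℝ) : AddCircle (1 : ℝ)) + ((-(1 / 4) : ℝ) : AddCircle (1 : ℝ))) =
        (((((1 : ℤ) : ℝ) + (1 / 2 - t)) / ((2 : ℕ) : ℝ) : ℝ) : AddCircle (1 : ℝ)) := by
      rw [← AddCircle.coe_add]
      congr 1
      push_cast
      ring
    simp only [h2]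
    rw [h1]
    simp only [hB]
    apply Ann_pt_congr
    rw [Ann_cl_eq (by
      constructor <;> linarith [ht.1, ht.2])]
    congr 1
    ring

/-- **The annulus of the brick** `(m, m')` between the polygons `i` and `j = σ m i = σ m' i`: on the first
half of the circle it runs in the polygon `i` from the side `m` to the side `m'`, on the second half
in the polygon `j` back. PROOF: `exists_circle_glue` with `L = 2`, `f t u r = pt i (ch m m' (u + 1/2) (wd * r))`
for even `t` and `pt j (ch m m' (1/2 - u) (- wd * r))` for odd `t` (`ch_glue_zero`, `ch_glue_one`).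
Injective: `pt_eq_iff`, `ch_side`, `cs_ch`, `ct_ch`. Closed embedding: a closed set `A` of the compact annulus is
compact; the preimage of its image in the polygon `i` is
`{z | |cs z| ≤ wd, (ct z, cs z / wd) ∈ ...}`, closed (`isClosed_iff_pt`, `ch_cs_ct`, `continuousOn_ct`). The
image of the open annulus has the preimages `{z | |cs z| < wd}` in the polygons `i` and `j`. -/
theorem exists_annulus {i j : I} {m m' : ℤ} (h : m < m') (h' : m' < m + c) (hj : K.σ m i = j)
    (hj' : K.σ m' i = j) (hij : i ≠ j) :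
    ∃ a : AddCircle (1 : ℝ) × Icc (-1 : ℝ) 1 → Sf K, IsClosedEmbedding a ∧
      IsOpen (a '' {z | |(z.2 : ℝ)| < 1}) ∧
      (∀ (t : ℝ) (ht : t ∈ Icc (0 : ℝ) 1) (r : Icc (-1 : ℝ) 1),
        ∃ hz, a (((t / 2 : ℝ) : AddCircle (1 : ℝ)), r) = pt K i (ch c m m' t (wd c * r)) hz) ∧
      (∀ (t : ℝ) (ht : t ∈ Icc (0 : ℝ) 1) (r : Icc (-1 : ℝ) 1),
        ∃ hz, a (((1 - t / 2 : ℝ) : AddCircle (1 : ℝ)), r) =
          pt K j (ch c m m' t (-(wd c * r))) hz) := by
  have hc : 3 ≤ c := Fact.out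
  have hn := Ann_ndvd h h'
  have hw := Ann_wd_pos hc
  have hji : K.σ m j = i := by rw [← hj, K.inv]
  have hji' : K.σ m' j = i := by rw [← hj', K.inv]
  obtain ⟨a, ca', hA, hB⟩ := Ann_map K hn hj hj'
  -- membership in the image of a set
  have key : ∀ (A : Set (AddCircle (1 : ℝ) × Icc (-1 : ℝ) 1)) (k : I) (z : Pg c),
      pt K k z z.2 ∈ a '' A ↔
        (k = i ∧ ∃ (t : ℝ) (_ : t ∈ Icc (0 : ℝ) 1) (r : Icc (-1 : ℝ) 1),
          (((t / 2 : ℝ) : AddCircle (1 : ℝ)), r) ∈ A ∧ (z : ℂ) = ch c m m' t (wd c * r)) ∨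
        (k = j ∧ ∃ (t : ℝ) (_ : t ∈ Icc (0 : ℝ) 1) (r : Icc (-1 : ℝ) 1),
          (((1 - t / 2 : ℝ) : AddCircle (1 : ℝ)), r) ∈ A ∧
            (z : ℂ) = ch c m m' t (-(wd c * r))) := by
    intro A k z
    constructor
    · rintro ⟨⟨θ, r⟩, hx, e⟩
      obtain ⟨t, ht, rfl | rfl⟩ := Ann_circle θ
      · rw [hA t ht r] at e
        rcases Ann_eq K h h' hj hj' ht (Ann_le hc r) _ z.2 e with ⟨h1, h2⟩ | ⟨h1, h2, h3⟩
        · exact Or.inl ⟨h1, t, ht, r, hx, h2⟩
        · refine Or.inr ⟨h1, t, ht, r, ?_, h3⟩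
          rw [Ann_coe h2]
          exact hx
      · rw [hB t ht r] at e
        rcases Ann_eq K h h' hji hji' ht (Ann_le' hc r) _ z.2 e with ⟨h1, h2⟩ | ⟨h1, h2, h3⟩
        · exact Or.inr ⟨h1, t, ht, r, hx, h2⟩
        · refine Or.inl ⟨h1, t, ht, r, ?_, ?_⟩
          · rw [← Ann_coe h2]
            exact hx
          · rw [h3, neg_neg]
    · rintro (⟨rfl, t, ht, r, hx, e⟩ | ⟨rfl, t, ht, r, hx, e⟩)
      · refine ⟨_, hx, ?_⟩
        rw [hA t ht r]
        exact Ann_pt_congr K _ _ e.symm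
      · refine ⟨_, hx, ?_⟩
        rw [hB t ht r]
        exact Ann_pt_congr K _ _ e.symm
  refine ⟨a, ?_, ?_, fun t ht r => ⟨_, hA t ht r⟩, fun t ht r => ⟨_, hB t ht r⟩⟩
  · -- closed embedding
    refine IsClosedEmbedding.of_continuous_injective_isClosedMap ca' ?_ ?_
    · -- injectivity
      have same : ∀ {t t' : ℝ} (ht : t ∈ Icc (0 : ℝ) 1) (ht' : t' ∈ Icc (0 : ℝ) 1) {s s' : ℝ}
          (hs : |s| ≤ wd c) (hs' : |s'| ≤ wd c), ch c m m' t s = ch c m m' t' s' →
          t = t' ∧ s = s' := by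
        intro t t' ht ht' s s' hs hs' e
        constructor
        · rw [← ct_ch hc h h' (t := t) hs, e, ct_ch hc h h' hs']
        · rw [← cs_ch hc h h' t s, e, cs_ch hc h h']
      have wr : ∀ {r r' : Icc (-1 : ℝ) 1}, wd c * (r : ℝ) = wd c * r' → r = r' := by
        intro r r' e
        exact Subtype.ext (mul_left_cancel₀ hw.ne' e)
      have wr' : ∀ {r r' : Icc (-1 : ℝ) 1}, -(wd c * (r : ℝ)) = -(wd c * r') → r = r' :=
        fun e => wr (neg_injective e)
      rintro ⟨θ, r⟩ ⟨θ', r'⟩ e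
      obtain ⟨t, ht, rfl | rfl⟩ := Ann_circle θ <;>
        obtain ⟨t', ht', rfl | rfl⟩ := Ann_circle θ'
      · rw [hA t ht r, hA t' ht' r'] at e
        rcases Ann_eq K h h' hj hj' ht (Ann_le hc r) _ _ e with ⟨-, h2⟩ | ⟨h1, -, -⟩
        · obtain ⟨e1, e2⟩ := same ht' ht (Ann_le hc r') (Ann_le hc r) h2
          rw [e1, wr e2]
        · exact absurd h1 hij
      · rw [hA t ht r, hB t' ht' r'] at e
        rcases Ann_eq K h h' hj hj' ht (Ann_le hc r) _ _ e with ⟨h1, -⟩ | ⟨-, h2, h3⟩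
        · exact absurd h1.symm hij
        · obtain ⟨e1, e2⟩ := same ht' ht (Ann_le' hc r') (by
            rw [abs_neg]
            exact Ann_le hc r) h3
          subst e1
          rw [Ann_coe h2, wr' e2]
      · rw [hB t ht r, hA t' ht' r'] at e
        rcases Ann_eq K h h' hji hji' ht (Ann_le' hc r) _ _ e with ⟨h1, -⟩ | ⟨-, h2, h3⟩
        · exact absurd h1 hij
        · rw [neg_neg] at h3
          obtain ⟨e1, e2⟩ := same ht' ht (Ann_le hc r') (Ann_le hc r) h3
          subst e1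
          rw [Ann_coe h2, wr e2]
      · rw [hB t ht r, hB t' ht' r'] at e
        rcases Ann_eq K h h' hji hji' ht (Ann_le' hc r) _ _ e with ⟨-, h2⟩ | ⟨h1, -, -⟩
        · obtain ⟨e1, e2⟩ := same ht' ht (Ann_le' hc r') (Ann_le' hc r) h2
          rw [e1, wr' e2]
        · exact absurd h1.symm hij
    · -- closed map
      intro A hA'
      rw [isClosed_iff_pt]
      intro k
      have comp : ∀ (g : ℝ → AddCircle (1 : ℝ)) (hg : Continuous g) (v : ℝ → ℝ)
          (hv : Continuous v), IsClosed {z : Pg c | ∃ (t : ℝ) (_ : t ∈ Icc (0 : ℝ) 1)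
            (r : Icc (-1 : ℝ) 1), (g t, r) ∈ A ∧ (z : ℂ) = ch c m m' t (v r)} := by
        intro g hg v hv
        have h1 : IsCompact {p : ℝ × Icc (-1 : ℝ) 1 | p.1 ∈ Icc (0 : ℝ) 1 ∧ (g p.1, p.2) ∈ A} := by
          have h2 : IsCompact (Icc (0 : ℝ) 1 ×ˢ (univ : Set (Icc (-1 : ℝ) 1))) :=
            isCompact_Icc.prod isCompact_univ
          have h3 : IsClosed {p : ℝ × Icc (-1 : ℝ) 1 | (g p.1, p.2) ∈ A} :=
            hA'.preimage (by fun_prop)
          refine (h2.inter_right h3).of_isClosed_subset ?_ ?_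
          · exact (isClosed_Icc.preimage continuous_fst).inter h3
          · rintro p ⟨h4, h5⟩
            exact ⟨⟨h4, trivial⟩, h5⟩
        have h4 : Continuous fun p : ℝ × Icc (-1 : ℝ) 1 => ch c m m' p.1 (v p.2) :=
          (Ann_ch_cont m m').comp
            (continuous_fst.prodMk (hv.comp (continuous_subtype_val.comp continuous_snd)))
        have h5 := (h1.image h4).isClosed.preimage (continuous_subtype_val (p := (· ∈ Pg c)))
        convert h5 using 1
        ext z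
        constructor
        · rintro ⟨t, ht, r, h6, h7⟩
          exact ⟨(t, r), ⟨ht, h6⟩, h7.symm⟩
        · rintro ⟨⟨t, r⟩, ⟨ht, h6⟩, h7⟩
          exact ⟨t, ht, r, h6, h7.symm⟩
      have c1 := comp (fun t => ((t / 2 : ℝ) : AddCircle (1 : ℝ)))
        ((AddCircle.continuous_mk' 1).comp (by fun_prop)) (fun r => wd c * r) (by fun_prop)
      have c2 := comp (fun t => ((1 - t / 2 : ℝ) : AddCircle (1 : ℝ)))
        ((AddCircle.continuous_mk' 1).comp (by fun_prop)) (fun r => -(wd c * r)) (by fun_prop)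
      simp only [key]
      by_cases hk : k = i <;> by_cases hk' : k = j
      · exact absurd (hk.symm.trans hk') hij
      · simpa [hk, hk', hij] using c1
      · simpa [hk, hk', hij.symm] using c2
      · simp [hk, hk']
  · -- open
    rw [isOpen_iff_pt]
    intro k
    simp only [key]
    have op : IsOpen {z : Pg c | |cs c m m' z| < wd c} :=
      isOpen_lt ((continuous_cs c m m').comp continuous_subtype_val).abs continuous_const
    have o1 : ∀ z : Pg c, (∃ (t : ℝ) (_ : t ∈ Icc (0 : ℝ) 1) (r : Icc (-1 : ℝ) 1),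
        (((t / 2 : ℝ) : AddCircle (1 : ℝ)), r) ∈
          {z : AddCircle (1 : ℝ) × Icc (-1 : ℝ) 1 | |(z.2 : ℝ)| < 1} ∧
          (z : ℂ) = ch c m m' t (wd c * r)) ↔ |cs c m m' z| < wd c := by
      intro z
      constructor
      · rintro ⟨t, ht, r, hr, e⟩
        rw [e, cs_ch hc h h', abs_mul, abs_of_pos hw]
        have : |(r : ℝ)| < 1 := hr
        nlinarith
      · intro hz
        refine ⟨ct c m m' z, ct_mem hc z.2 m m', ⟨cs c m m' z / wd c, ?_⟩, ?_, ?_⟩
        · rw [mem_Icc, ← abs_le, abs_div, abs_of_pos hw, div_le_one hw]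
          exact hz.le
        · show |cs c m m' z / wd c| < 1
          rw [abs_div, abs_of_pos hw, div_lt_one hw]
          exact hz
        · show (z : ℂ) = ch c m m' (ct c m m' z) (wd c * (cs c m m' z / wd c))
          rw [mul_div_cancel₀ _ hw.ne', ch_cs_ct hc h h' z.2 hz.le]
    have o2 : ∀ z : Pg c, (∃ (t : ℝ) (_ : t ∈ Icc (0 : ℝ) 1) (r : Icc (-1 : ℝ) 1),
        (((1 - t / 2 : ℝ) : AddCircle (1 : ℝ)), r) ∈
          {z : AddCircle (1 : ℝ) × Icc (-1 : ℝ) 1 | |(z.2 : ℝ)| < 1} ∧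
          (z : ℂ) = ch c m m' t (-(wd c * r))) ↔ |cs c m m' z| < wd c := by
      intro z
      constructor
      · rintro ⟨t, ht, r, hr, e⟩
        rw [e, cs_ch hc h h', abs_neg, abs_mul, abs_of_pos hw]
        have : |(r : ℝ)| < 1 := hr
        nlinarith
      · intro hz
        refine ⟨ct c m m' z, ct_mem hc z.2 m m', ⟨-(cs c m m' z / wd c), ?_⟩, ?_, ?_⟩
        · rw [mem_Icc, ← abs_le, abs_neg, abs_div, abs_of_pos hw, div_le_one hw]
          exact hz.le
        · show |-(cs c m m' z / wd c)| < 1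
          rw [abs_neg, abs_div, abs_of_pos hw, div_lt_one hw]
          exact hz
        · show (z : ℂ) = ch c m m' (ct c m m' z) (-(wd c * -(cs c m m' z / wd c)))
          rw [mul_neg, neg_neg, mul_div_cancel₀ _ hw.ne', ch_cs_ct hc h h' z.2 hz.le]
    simp only [o1, o2]
    by_cases hk : k = i <;> by_cases hk' : k = j
    · exact absurd (hk.symm.trans hk') hij
    · simpa [hk, hk', hij] using op
    · simpa [hk, hk', hij.symm] using op
    · simp [hk, hk']

end

end Pool.Agent.H.MP_1611f1_gt.PB.Mo
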