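import Pool.Agent.H.MP_1611f1_gt.PB.Mo.StripA

/-!
MODEL OF THE FIBRE SURFACE: the bands of the chords between two sides.
-/

namespace Pool.Agent.H.MP_1611f1_gt.PB.Mo

open Complex Set

noncomputable section

variable {c : ℕ}

/-- The half width of the chord bands. -/
def wd (c : ℕ) : ℝ := ca c * sa c ^ 2 / 4

/-- The band of segments between the sides `m` and `m'`, `t ∈ [0, 1]`, `|s| ≤ wd`. -/
def ch (c : ℕ) (m m' : ℤ) (t s : ℝ) : ℂ :=
  ((1 - t : ℝ) : ℂ) * fr c (2 * m) (ca c) s + (t : ℂ) * fr c (2 * m') (ca c) (-s)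

theorem ChordA_R_fr (i j : ℤ) (x y : ℝ) :
    R c i (fr c j x y) = x * Real.cos (Real.pi * (j - i) / c) -
      y * Real.sin (Real.pi * (j - i) / c) := by
  rw [← R_W, ← J_W]
  unfold R J fr
  rw [mul_assoc]
  simp only [Complex.mul_re, Complex.mul_im, Complex.add_re, Complex.add_im, Complex.ofReal_re,
    Complex.ofReal_im, Complex.I_re, Complex.I_im]
  ring

theorem ChordA_R_ch (i m m' : ℤ) (t s : ℝ) :
    R c i (ch c m m' t s) = (1 - t) * R c i (fr c (2 * m) (ca c) s) +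
      t * R c i (fr c (2 * m') (ca c) (-s)) := by
  unfold ch
  rw [R_add, R_smul, R_smul]

theorem ChordA_wd_le (hc : 3 ≤ c) : wd c ≤ sa c ^ 2 / 4 := by
  have h1 := ca_lt_one hc
  have h2 : 0 ≤ sa c ^ 2 := sq_nonneg _
  unfold wd
  nlinarith

/-- the odd directions of a point near the middle of a side -/
theorem ChordA_odd (hc : 3 ≤ c) (l m : ℤ) {s : ℝ} (hs : |s| ≤ wd c) :
    R c (2 * l - 1) (fr c (2 * m) (ca c) s) ≤ 1 - 3 / 4 * sa c ^ 2 := by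
  have h1 := ca_lt_one hc
  have h0 := ca_pos hc
  have h2 := ca_sq_add c
  have h3 := ChordA_wd_le hc
  rw [ChordA_R_fr]
  have hn : ¬ (2 * c : ℤ) ∣ (2 * m - (2 * l - 1)) := by
    rintro ⟨k, hk⟩
    have : (2 * (c * k - m + l) : ℤ) = 1 := by linarith
    omega
  have h4 := cos_le_ca hc hn
  have e : Real.pi * (((2 * m - (2 * l - 1) : ℤ)) : ℝ) / c =
      Real.pi * (((2 * m : ℤ) : ℝ) - ((2 * l - 1 : ℤ) : ℝ)) / c := by push_cast; ring
  rw [e] at h4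
  have h5 : |s * Real.sin (Real.pi * (((2 * m : ℤ) : ℝ) - ((2 * l - 1 : ℤ) : ℝ)) / c)| ≤ wd c := by
    rw [abs_mul]
    calc |s| * |Real.sin (Real.pi * (((2 * m : ℤ) : ℝ) - ((2 * l - 1 : ℤ) : ℝ)) / c)|
        ≤ |s| * 1 := mul_le_mul_of_nonneg_left (Real.abs_sin_le_one _) (abs_nonneg _)
      _ ≤ wd c := by rw [mul_one]; exact hs
  have h6 := neg_abs_le (s * Real.sin (Real.pi * (((2 * m : ℤ) : ℝ) - ((2 * l - 1 : ℤ) : ℝ)) / c))
  have h7 := mul_le_mul_of_nonneg_left h4 h0.le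
  nlinarith

/-- the side itself -/
theorem ChordA_same (hc : 3 ≤ c) {l m : ℤ} (h : (c : ℤ) ∣ l - m) (s : ℝ) :
    R c (2 * l) (fr c (2 * m) (ca c) s) = ca c := by
  have h1 : (2 * c : ℤ) ∣ 2 * l - 2 * m := by
    obtain ⟨k, hk⟩ := h
    exact ⟨k, by rw [← mul_sub, hk]; ring⟩
  rw [R_per (by omega) h1, R_fr]

/-- the other sides -/
theorem ChordA_even (hc : 3 ≤ c) {l m : ℤ} (h : ¬ (c : ℤ) ∣ l - m) {s : ℝ} (hs : |s| ≤ wd c) :
    R c (2 * l) (fr c (2 * m) (ca c) s) ≤ ca c - ca c * sa c ^ 2 := by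
  have h0 := ca_pos hc
  have h2 := ca_sq_add c
  rw [ChordA_R_fr]
  have hn : ¬ (c : ℤ) ∣ (m - l) := by
    intro hd
    apply h
    have := dvd_neg.2 hd
    rwa [neg_sub] at this
  have h4 := cos_two_le hc hn
  have e : Real.pi * (2 * ((m - l : ℤ) : ℝ)) / c =
      Real.pi * (((2 * m : ℤ) : ℝ) - ((2 * l : ℤ) : ℝ)) / c := by push_cast; ring
  rw [e] at h4
  have h5 : |s * Real.sin (Real.pi * (((2 * m : ℤ) : ℝ) - ((2 * l : ℤ) : ℝ)) / c)| ≤ wd c := by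
    rw [abs_mul]
    calc |s| * |Real.sin (Real.pi * (((2 * m : ℤ) : ℝ) - ((2 * l : ℤ) : ℝ)) / c)|
        ≤ |s| * 1 := mul_le_mul_of_nonneg_left (Real.abs_sin_le_one _) (abs_nonneg _)
      _ ≤ wd c := by rw [mul_one]; exact hs
  have h6 := neg_abs_le (s * Real.sin (Real.pi * (((2 * m : ℤ) : ℝ) - ((2 * l : ℤ) : ℝ)) / c))
  have h7 := mul_le_mul_of_nonneg_left h4 h0.le
  have h8 : wd c = ca c * sa c ^ 2 / 4 := rfl
  have h9 : ca c * (2 * ca c ^ 2 - 1) = ca c - 2 * (ca c * sa c ^ 2) := by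
    have : ca c ^ 2 = 1 - sa c ^ 2 := by linarith
    rw [this]; ring
  have h10 : 0 ≤ ca c * sa c ^ 2 := mul_nonneg h0.le (sq_nonneg _)
  linarith

theorem ChordA_even_le (hc : 3 ≤ c) (l m : ℤ) {s : ℝ} (hs : |s| ≤ wd c) :
    R c (2 * l) (fr c (2 * m) (ca c) s) ≤ ca c := by
  by_cases h : (c : ℤ) ∣ l - m
  · exact (ChordA_same hc h s).le
  · have h1 := ChordA_even hc h hs
    have h2 : 0 ≤ ca c * sa c ^ 2 := mul_nonneg (ca_pos hc).le (sq_nonneg _)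
    linarith

theorem ChordA_comb {t a b d : ℝ} (ht : t ∈ Icc (0 : ℝ) 1) (ha : a ≤ d) (hb : b ≤ d) :
    (1 - t) * a + t * b ≤ d := by
  have h1 : (1 - t) * a ≤ (1 - t) * d := mul_le_mul_of_nonneg_left ha (by linarith [ht.2])
  have h2 : t * b ≤ t * d := mul_le_mul_of_nonneg_left hb ht.1
  linarith

theorem ch_mem (hc : 3 ≤ c) {m m' : ℤ} (h : ¬ (c : ℤ) ∣ m - m') {t s : ℝ} (ht : t ∈ Icc (0 : ℝ) 1)
    (hs : |s| ≤ wd c) : ch c m m' t s ∈ Pg c := by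
  have hs' : |-s| ≤ wd c := by rwa [abs_neg]
  refine ⟨fun l => ?_, fun l => ?_⟩
  · rw [ChordA_R_ch]
    exact ChordA_comb ht (ChordA_even_le hc l m hs) (ChordA_even_le hc l m' hs')
  · rw [ChordA_R_ch]
    refine lt_of_le_of_lt (ChordA_comb ht (ChordA_odd hc l m hs) (ChordA_odd hc l m' hs')) ?_
    have h1 : 0 < sa c ^ 2 := pow_pos (sa_pos hc) 2
    linarith

/-- the chords avoid the corners `1 - R (2 l - 1) < sa² / 2` -/
theorem ch_corner (hc : 3 ≤ c) (m m' : ℤ) {t s : ℝ} (ht : t ∈ Icc (0 : ℝ) 1)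
    (hs : |s| ≤ wd c) (l : ℤ) : R c (2 * l - 1) (ch c m m' t s) ≤ 1 - 3 / 4 * sa c ^ 2 := by
  have hs' : |-s| ≤ wd c := by rwa [abs_neg]
  rw [ChordA_R_ch]
  exact ChordA_comb ht (ChordA_odd hc l m hs) (ChordA_odd hc l m' hs')

/-- the chords avoid all strips except those of the sides `m`, `m'`. PROOF: for `l ≢ m, m'`:
`ca - R (2 l) ≥ 2 ca sa² - wd ≥ ca sa²` and `dv ≥ 3/4 sa²`, so `dv - sa²/2 ≥ dv / 3` and the
product is `≥ 1`. -/
theorem ch_kp (hc : 3 ≤ c) {m m' l : ℤ} (h : ¬ (c : ℤ) ∣ l - m) (h' : ¬ (c : ℤ) ∣ l - m')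
    {t s : ℝ} (ht : t ∈ Icc (0 : ℝ) 1) (hs : |s| ≤ wd c) : kp c l (ch c m m' t s) = 0 := by
  have hs' : |-s| ≤ wd c := by rwa [abs_neg]
  have hca := ca_pos hc
  have hsa : 0 < sa c ^ 2 := pow_pos (sa_pos hc) 2
  have hD : R c (2 * l) (ch c m m' t s) ≤ ca c - ca c * sa c ^ 2 := by
    rw [ChordA_R_ch]
    exact ChordA_comb ht (ChordA_even hc h hs) (ChordA_even hc h' hs')
  have hv : 3 / 4 * sa c ^ 2 ≤ dv c l (ch c m m' t s) := by
    rw [dv_eq_min]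
    refine le_min ?_ ?_
    · have := ch_corner hc m m' ht hs l
      linarith
    · have := ch_corner hc m m' ht hs (l + 1)
      have e : (2 * (l + 1) - 1 : ℤ) = 2 * l + 1 := by ring
      rw [e] at this
      linarith
  unfold kp
  generalize R c (2 * l) (ch c m m' t s) = r at hD
  generalize dv c l (ch c m m' t s) = v at hv
  have hv0 : 0 < v := by linarith
  have h1 : v / 3 ≤ max 0 (v - sa c ^ 2 / 2) := le_trans (by linarith) (le_max_right _ _)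
  have h2 : v / sa c ^ 2 ≤ 1 + 3 / sa c ^ 2 * max 0 (v - sa c ^ 2 / 2) := by
    have h3 : 3 / sa c ^ 2 * (v / 3) ≤ 3 / sa c ^ 2 * max 0 (v - sa c ^ 2 / 2) :=
      mul_le_mul_of_nonneg_left h1 (by positivity)
    have h4 : 3 / sa c ^ 2 * (v / 3) = v / sa c ^ 2 := by ring
    linarith
  have h5 : ca c * sa c ^ 2 / (ca c * v) ≤ (ca c - r) / (ca c * v) :=
    div_le_div_of_nonneg_right (by linarith) (by positivity)
  have h6 : ca c * sa c ^ 2 / (ca c * v) * (v / sa c ^ 2) = 1 := by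
    have hsa' := (sa_pos hc).ne'
    field_simp
  have h7 : ca c * sa c ^ 2 / (ca c * v) * (v / sa c ^ 2) ≤
      (ca c - r) / (ca c * v) * (1 + 3 / sa c ^ 2 * max 0 (v - sa c ^ 2 / 2)) := by
    refine mul_le_mul h5 h2 (by positivity) ?_
    exact le_trans (by positivity) h5
  rw [h6] at h7
  rw [max_eq_left (by linarith), mul_zero]

end

end Pool.Agent.H.MP_1611f1_gt.PB.Mo
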