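import Pool.Agent.H.MP_1611f1_gt.PB.Mo.ChordA

/-!
MODEL OF THE FIBRE SURFACE: disjointness of the bands of chords.
-/

namespace Pool.Agent.H.MP_1611f1_gt.PB.Mo

open Complex Set

noncomputable section

variable {c : ℕ}

theorem ChordC_R_fr (c : ℕ) (i j : ℤ) (x y : ℝ) : R c i (fr c j x y) =
    x * Real.cos (Real.pi * (j - i) / c) - y * Real.sin (Real.pi * (j - i) / c) := by
  have h1 : (fr c j x y).re = x * Real.cos (Real.pi * j / c) - y * Real.sin (Real.pi * j / c) := by
    unfold fr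
    rw [Complex.mul_re, Trig_W_re, Trig_W_im]
    simp
  have h2 : (fr c j x y).im = x * Real.sin (Real.pi * j / c) + y * Real.cos (Real.pi * j / c) := by
    unfold fr
    rw [Complex.mul_im, Trig_W_re, Trig_W_im]
    simp
  rw [Trig_R, h1, h2, mul_sub, sub_div, Real.cos_sub, Real.sin_sub]
  ring

theorem ChordC_R_ch (c : ℕ) (m m' d d' : ℤ) (t s : ℝ) : R c (m + m') (ch c d d' t s) =
    (1 - t) * (ca c * Real.cos ((2 * d - m - m') * (Real.pi / c)) -
      s * Real.sin ((2 * d - m - m') * (Real.pi / c))) +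
    t * (ca c * Real.cos ((2 * d' - m - m') * (Real.pi / c)) -
      -s * Real.sin ((2 * d' - m - m') * (Real.pi / c))) := by
  have h : ∀ e : ℤ, Real.pi * (((2 * e : ℤ) : ℝ) - ((m + m' : ℤ) : ℝ)) / c =
      (2 * e - m - m') * (Real.pi / c) := by
    intro e
    push_cast
    ring
  unfold ch
  rw [R_add, R_smul, R_smul, ChordC_R_fr, ChordC_R_fr, h, h]

theorem ChordC_wd (hc : 3 ≤ c) : wd c < sa c := by
  have h1 := ca_pos hc
  have h2 := ca_lt_one hc
  have h3 := sa_pos hc
  have h4 := sa_lt_one hc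
  have h5 : ca c * sa c ≤ 1 := by nlinarith
  have h6 : wd c = ca c * sa c * sa c / 4 := by
    unfold wd
    ring
  have h7 : ca c * sa c * sa c ≤ 1 * sa c := mul_le_mul_of_nonneg_right h5 h3.le
  rw [h6]
  linarith

theorem ChordC_lower (hc : 3 ≤ c) {β θ s : ℝ} (hs : |s| ≤ sa c) (h1 : |β + Real.pi / c| ≤ θ)
    (h2 : |β - Real.pi / c| ≤ θ) (hθ : θ ≤ Real.pi) :
    Real.cos θ ≤ ca c * Real.cos β - s * Real.sin β := by
  have h3 : Real.cos θ ≤ Real.cos (β + Real.pi / c) := by
    rw [← Real.cos_abs (β + Real.pi / c)]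
    exact Real.cos_le_cos_of_nonneg_of_le_pi (abs_nonneg _) hθ h1
  have h4 : Real.cos θ ≤ Real.cos (β - Real.pi / c) := by
    rw [← Real.cos_abs (β - Real.pi / c)]
    exact Real.cos_le_cos_of_nonneg_of_le_pi (abs_nonneg _) hθ h2
  rw [Real.cos_add] at h3
  rw [Real.cos_sub] at h4
  change Real.cos θ ≤ Real.cos β * ca c - Real.sin β * sa c at h3
  change Real.cos θ ≤ Real.cos β * ca c + Real.sin β * sa c at h4
  obtain ⟨h5, h6⟩ := abs_le.1 hs
  have h7 := sa_pos hc
  have h8 : 0 ≤ (sa c + s) * (Real.cos β * ca c - Real.sin β * sa c - Real.cos θ) +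
      (sa c - s) * (Real.cos β * ca c + Real.sin β * sa c - Real.cos θ) :=
    add_nonneg (mul_nonneg (by linarith) (by linarith)) (mul_nonneg (by linarith) (by linarith))
  have h9 : 0 ≤ (2 * sa c) * (ca c * Real.cos β - s * Real.sin β - Real.cos θ) := by
    refine h8.trans (le_of_eq ?_)
    ring
  have h10 := nonneg_of_mul_nonneg_right h9 (by linarith)
  linarith

theorem ChordC_upper (hc : 3 ≤ c) {β θ s : ℝ} (hs : |s| ≤ sa c)
    (h1 : |β - Real.pi + Real.pi / c| ≤ Real.pi - θ)
    (h2 : |β - Real.pi - Real.pi / c| ≤ Real.pi - θ) (hθ : 0 ≤ θ) :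
    ca c * Real.cos β - s * Real.sin β ≤ Real.cos θ := by
  have h3 := ChordC_lower hc hs h1 h2 (by linarith)
  rw [Real.cos_pi_sub, Real.cos_sub_pi, Real.sin_sub_pi] at h3
  linarith

/-- the value on the band itself -/
theorem ChordC_self (c : ℕ) (m m' : ℤ) (t s : ℝ) : R c (m + m') (ch c m m' t s) =
    ca c * Real.cos ((m' - m) * (Real.pi / c)) + s * Real.sin ((m' - m) * (Real.pi / c)) := by
  have e1 : ((2 * m - m - m' : ℝ)) * (Real.pi / c) = -((m' - m) * (Real.pi / c)) := by ring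
  have e2 : ((2 * m' - m - m' : ℝ)) * (Real.pi / c) = (m' - m) * (Real.pi / c) := by ring
  rw [ChordC_R_ch, e1, e2, Real.cos_neg, Real.sin_neg]
  ring

theorem ChordC_comb {t a b x : ℝ} (ht : t ∈ Icc (0 : ℝ) 1) (ha : x ≤ a) (hb : x ≤ b) :
    x ≤ (1 - t) * a + t * b := by
  have h1 : 0 ≤ (1 - t) * (a - x) := mul_nonneg (by linarith [ht.2]) (by linarith)
  have h2 : 0 ≤ t * (b - x) := mul_nonneg ht.1 (by linarith)
  nlinarith

theorem ChordC_comb' {t a b x : ℝ} (ht : t ∈ Icc (0 : ℝ) 1) (ha : a ≤ x) (hb : b ≤ x) :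
    (1 - t) * a + t * b ≤ x := by
  have h1 : 0 ≤ (1 - t) * (x - a) := mul_nonneg (by linarith [ht.2]) (by linarith)
  have h2 : 0 ≤ t * (x - b) := mul_nonneg ht.1 (by linarith)
  nlinarith

/-- chords which do not interleave are disjoint: nested, `m < d < d' < m'`. PROOF: the linear form
`R (m + m')` is `< cos (π (m' - m - 1) / c)` on the band `m, m'` and `≥` this number on the band `d, d'`
(it is so at the vertices between). -/
theorem ch_disj_nested (hc : 3 ≤ c) {m m' d d' : ℤ} (h1 : m < d) (h2 : d < d') (h3 : d' < m')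
    (h4 : m' < m + c) {t s t' s' : ℝ} (ht : t ∈ Icc (0 : ℝ) 1) (hs : |s| ≤ wd c)
    (ht' : t' ∈ Icc (0 : ℝ) 1) (hs' : |s'| ≤ wd c) : ch c m m' t s ≠ ch c d d' t' s' := by
  have hwd := ChordC_wd hc
  have hsa := sa_pos hc
  have hq : 0 < Real.pi / c := (Trig_small hc).1
  have hpi : Real.pi = c * (Real.pi / c) := by
    have : (c : ℝ) ≠ 0 := by
      have : 0 < c := by omega
      exact_mod_cast this.ne'
    field_simp
  have e1 : (m : ℝ) + 1 ≤ d := by exact_mod_cast h1
  have e2 : (d : ℝ) + 1 ≤ d' := by exact_mod_cast h2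
  have e3 : (d' : ℝ) + 1 ≤ m' := by exact_mod_cast h3
  have e4 : (m' : ℝ) + 1 ≤ m + c := by exact_mod_cast h4
  have f1 := mul_nonneg (sub_nonneg.2 e1) hq.le
  have f2 := mul_nonneg (sub_nonneg.2 e2) hq.le
  have f3 := mul_nonneg (sub_nonneg.2 e3) hq.le
  have f4 := mul_nonneg (sub_nonneg.2 e4) hq.le
  intro heq
  have key : R c (m + m') (ch c m m' t s) < Real.cos (((m' - m - 1 : ℝ)) * (Real.pi / c)) := by
    have g1 : ((m' - m - 1 : ℝ)) * (Real.pi / c) = (m' - m) * (Real.pi / c) - Real.pi / c := by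
      ring
    rw [ChordC_self, g1, Real.cos_sub]
    change _ < _ * ca c + _ * sa c
    have g2 : 0 < Real.sin ((m' - m) * (Real.pi / c)) := by
      apply Real.sin_pos_of_pos_of_lt_pi
      · nlinarith
      · nlinarith
    have g3 : s * Real.sin ((m' - m) * (Real.pi / c)) <
        sa c * Real.sin ((m' - m) * (Real.pi / c)) :=
      mul_lt_mul_of_pos_right (lt_of_le_of_lt ((le_abs_self s).trans hs) hwd) g2
    linarith
  have key2 : Real.cos (((m' - m - 1 : ℝ)) * (Real.pi / c)) ≤
      R c (m + m') (ch c d d' t' s') := by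
    rw [ChordC_R_ch]
    apply ChordC_comb ht'
    · apply ChordC_lower hc (hs'.trans hwd.le)
      · rw [abs_le]
        constructor <;> nlinarith
      · rw [abs_le]
        constructor <;> nlinarith
      · nlinarith
    · apply ChordC_lower hc (by rw [abs_neg]; exact hs'.trans hwd.le)
      · rw [abs_le]
        constructor <;> nlinarith
      · rw [abs_le]
        constructor <;> nlinarith
      · nlinarith
  rw [← heq] at key2
  exact absurd key (not_lt.2 key2)

/-- `m < m' < d < d' < m + c`. PROOF: the linear form `R (m + m')` is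
`> cos (π (m' - m + 1) / c)` on the band `m, m'` and `≤` this number on the band `d, d'`. -/
theorem ch_disj_far (hc : 3 ≤ c) {m m' d d' : ℤ} (h1 : m < m') (h2 : m' < d) (h3 : d < d')
    (h4 : d' < m + c) {t s t' s' : ℝ} (ht : t ∈ Icc (0 : ℝ) 1) (hs : |s| ≤ wd c)
    (ht' : t' ∈ Icc (0 : ℝ) 1) (hs' : |s'| ≤ wd c) : ch c m m' t s ≠ ch c d d' t' s' := by
  have hwd := ChordC_wd hc
  have hsa := sa_pos hc
  have hq : 0 < Real.pi / c := (Trig_small hc).1
  have hpi : Real.pi = c * (Real.pi / c) := by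
    have : (c : ℝ) ≠ 0 := by
      have : 0 < c := by omega
      exact_mod_cast this.ne'
    field_simp
  have e1 : (m : ℝ) + 1 ≤ m' := by exact_mod_cast h1
  have e2 : (m' : ℝ) + 1 ≤ d := by exact_mod_cast h2
  have e3 : (d : ℝ) + 1 ≤ d' := by exact_mod_cast h3
  have e4 : (d' : ℝ) + 1 ≤ m + c := by exact_mod_cast h4
  have f1 := mul_nonneg (sub_nonneg.2 e1) hq.le
  have f2 := mul_nonneg (sub_nonneg.2 e2) hq.le
  have f3 := mul_nonneg (sub_nonneg.2 e3) hq.le
  have f4 := mul_nonneg (sub_nonneg.2 e4) hq.le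
  intro heq
  have key : Real.cos (((m' - m + 1 : ℝ)) * (Real.pi / c)) < R c (m + m') (ch c m m' t s) := by
    have g1 : ((m' - m + 1 : ℝ)) * (Real.pi / c) = (m' - m) * (Real.pi / c) + Real.pi / c := by
      ring
    rw [ChordC_self, g1, Real.cos_add]
    change _ * ca c - _ * sa c < _
    have g2 : 0 < Real.sin ((m' - m) * (Real.pi / c)) := by
      apply Real.sin_pos_of_pos_of_lt_pi
      · nlinarith
      · nlinarith
    have g3 : -sa c * Real.sin ((m' - m) * (Real.pi / c)) <
        s * Real.sin ((m' - m) * (Real.pi / c)) :=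
      mul_lt_mul_of_pos_right (lt_of_lt_of_le (by linarith) (neg_le_of_abs_le hs)) g2
    linarith
  have key2 : R c (m + m') (ch c d d' t' s') ≤
      Real.cos (((m' - m + 1 : ℝ)) * (Real.pi / c)) := by
    rw [ChordC_R_ch]
    apply ChordC_comb' ht'
    · apply ChordC_upper hc (hs'.trans hwd.le)
      · rw [abs_le]
        constructor <;> nlinarith
      · rw [abs_le]
        constructor <;> nlinarith
      · nlinarith
    · apply ChordC_upper hc (by rw [abs_neg]; exact hs'.trans hwd.le)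
      · rw [abs_le]
        constructor <;> nlinarith
      · rw [abs_le]
        constructor <;> nlinarith
      · nlinarith
  rw [← heq] at key2
  exact absurd key (not_lt.2 key2)

end

end Pool.Agent.H.MP_1611f1_gt.PB.Mo
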