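import Pool.Agent.H.MP_1611f1_gt.PB.Mo.TrigB

/-!
MODEL OF THE FIBRE SURFACE: the corner coordinates; open conditions.
-/

namespace Pool.Agent.H.MP_1611f1_gt.PB.Mo

open Complex Set

noncomputable section

variable {c : ℕ}

theorem PolyC_W_one (c : ℕ) : W c 1 = (ca c : ℂ) + (sa c : ℂ) * I := by
  unfold W ca sa
  rw [Complex.exp_mul_I]
  push_cast
  simp

theorem PolyC_W_neg_one (c : ℕ) : W c (-1) = (ca c : ℂ) - (sa c : ℂ) * I := by
  apply Complex.ext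
  · rw [Trig_W_re]
    have : Real.pi * ((-1 : ℤ) : ℝ) / c = -(Real.pi / c) := by push_cast; ring
    rw [this, Real.cos_neg]
    simp only [sub_re, ofReal_re, mul_re, ofReal_im, I_re, I_im]
    unfold ca
    ring
  · rw [Trig_W_im]
    have : Real.pi * ((-1 : ℤ) : ℝ) / c = -(Real.pi / c) := by push_cast; ring
    rw [this, Real.sin_neg]
    simp only [sub_im, ofReal_re, mul_im, ofReal_im, I_re, I_im]
    unfold sa
    ring

/-- `cp` as a convex combination -/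
theorem PolyC_comb (hc : 3 ≤ c) (m : ℤ) (u x : ℝ) :
    cp c m u x = ((1 - x / sa c ^ 2 : ℝ) : ℂ) * W c (2 * m - 1) +
      (((x / sa c ^ 2 * ((1 / 2 - u) * ca c) : ℝ) : ℂ) * W c (2 * m - 2) +
        ((x / sa c ^ 2 * ((1 / 2 + u) * ca c) : ℝ) : ℂ) * W c (2 * m)) := by
  have hs := sa_pos hc
  have hs' : (sa c : ℂ) ≠ 0 := by exact_mod_cast hs.ne'
  have h1 : W c (2 * m - 2) = W c (2 * m - 1) * ((ca c : ℂ) - (sa c : ℂ) * I) := by
    rw [← PolyC_W_neg_one, ← W_add]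
    congr 1
    ring
  have h2 : W c (2 * m) = W c (2 * m - 1) * ((ca c : ℂ) + (sa c : ℂ) * I) := by
    rw [← PolyC_W_one, ← W_add]
    congr 1
    ring
  have h3 : (ca c : ℂ) ^ 2 = 1 - (sa c : ℂ) ^ 2 := by
    have h := ca_sq_add c
    have h' : ca c ^ 2 = 1 - sa c ^ 2 := by linarith
    exact_mod_cast h'
  unfold cp fr
  rw [h1, h2]
  push_cast
  have key : (1 : ℂ) - x + (x : ℂ) * (2 * (ca c : ℂ) / (sa c : ℂ)) * (u : ℂ) * I =
      (1 - (x : ℂ) / (sa c : ℂ) ^ 2) +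
        ((x : ℂ) / (sa c : ℂ) ^ 2 * ((1 / 2 - (u : ℂ)) * (ca c : ℂ)) *
            ((ca c : ℂ) - (sa c : ℂ) * I) +
          (x : ℂ) / (sa c : ℂ) ^ 2 * ((1 / 2 + (u : ℂ)) * (ca c : ℂ)) *
            ((ca c : ℂ) + (sa c : ℂ) * I)) := by
    have e : (1 : ℂ) - (x : ℂ) / (sa c : ℂ) ^ 2 +
        ((x : ℂ) / (sa c : ℂ) ^ 2 * ((1 / 2 - (u : ℂ)) * (ca c : ℂ)) *
            ((ca c : ℂ) - (sa c : ℂ) * I) +
          (x : ℂ) / (sa c : ℂ) ^ 2 * ((1 / 2 + (u : ℂ)) * (ca c : ℂ)) *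
            ((ca c : ℂ) + (sa c : ℂ) * I)) =
        1 - (x : ℂ) / (sa c : ℂ) ^ 2 * (1 - (ca c : ℂ) ^ 2) +
          (x : ℂ) / (sa c : ℂ) ^ 2 * (2 * (u : ℂ) * (ca c : ℂ) * (sa c : ℂ) * I) := by
      ring
    rw [e, h3]
    field_simp
    ring
  linear_combination (W c (2 * m - 1)) * key

theorem PolyC_odd (hc : 3 ≤ c) {i j : ℤ} (h : ¬ (2 : ℤ) ∣ j - i) : R c i (W c j) ≤ ca c := by
  rw [R_W]
  have h1 : ¬ (2 * c : ℤ) ∣ (j - i) := fun h2 => h ((Dvd.intro _ rfl).trans h2)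
  have h2 := cos_le_ca hc h1
  push_cast at h2
  exact h2

theorem PolyC_le_one (c : ℕ) (i j : ℤ) : R c i (W c j) ≤ 1 := by
  rw [R_W]
  exact Real.cos_le_one _

/-- The corner points lie in the polygon. PROOF: `cp m u x = (1 - t) W (2 m - 1) +
t ((1/2 - u) ca W (2 m - 2) + (1/2 + u) ca W (2 m))`, `t = x / sa²`; the closed polygon is convex and
the midpoints of the sides satisfy `R (2 l - 1) ≤ ca² < 1`. -/
theorem cp_mem (hc : 3 ≤ c) (m : ℤ) {u x : ℝ} (hu : |u| ≤ 1 / 2) (hx : 0 < x)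
    (hx' : x < sa c ^ 2) : cp c m u x ∈ Pg c := by
  have hs := sa_pos hc
  have hca := ca_pos hc
  have hca1 := ca_lt_one hc
  have hsq := ca_sq_add c
  obtain ⟨hu1, hu2⟩ := abs_le.1 hu
  obtain ⟨t, ht⟩ : ∃ t : ℝ, t = x / sa c ^ 2 := ⟨_, rfl⟩
  have ht0 : 0 < t := by
    rw [ht]
    positivity
  have ht1 : t < 1 := by
    rw [ht, div_lt_one (by positivity)]
    exact hx'
  have hR : ∀ i : ℤ, R c i (cp c m u x) = (1 - t) * R c i (W c (2 * m - 1)) +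
      (t * ((1 / 2 - u) * ca c) * R c i (W c (2 * m - 2)) +
        t * ((1 / 2 + u) * ca c) * R c i (W c (2 * m))) := by
    intro i
    rw [PolyC_comb hc, R_add, R_add, R_smul, R_smul, R_smul, ← ht]
  have hu1' : 0 ≤ 1 / 2 - u := by linarith
  have hu2' : 0 ≤ 1 / 2 + u := by linarith
  refine ⟨fun l => ?_, fun l => ?_⟩
  · rw [hR]
    have h1 : R c (2 * l) (W c (2 * m - 1)) ≤ ca c := by
      apply PolyC_odd hc
      omega
    have h2 := PolyC_le_one c (2 * l) (2 * m - 2)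
    have h3 := PolyC_le_one c (2 * l) (2 * m)
    have h4 := mul_le_mul_of_nonneg_left h1 (by linarith : (0 : ℝ) ≤ 1 - t)
    have h5 := mul_le_mul_of_nonneg_left h2 (by positivity : 0 ≤ t * ((1 / 2 - u) * ca c))
    have h6 := mul_le_mul_of_nonneg_left h3 (by positivity : 0 ≤ t * ((1 / 2 + u) * ca c))
    calc _ ≤ (1 - t) * ca c + (t * ((1 / 2 - u) * ca c) * 1 + t * ((1 / 2 + u) * ca c) * 1) := by
          linarith
      _ = ca c := by ring
  · rw [hR]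
    have h1 := PolyC_le_one c (2 * l - 1) (2 * m - 1)
    have h2 : R c (2 * l - 1) (W c (2 * m - 2)) ≤ ca c := by
      apply PolyC_odd hc
      omega
    have h3 : R c (2 * l - 1) (W c (2 * m)) ≤ ca c := by
      apply PolyC_odd hc
      omega
    have h4 := mul_le_mul_of_nonneg_left h1 (by linarith : (0 : ℝ) ≤ 1 - t)
    have h5 := mul_le_mul_of_nonneg_left h2 (by positivity : 0 ≤ t * ((1 / 2 - u) * ca c))
    have h6 := mul_le_mul_of_nonneg_left h3 (by positivity : 0 ≤ t * ((1 / 2 + u) * ca c))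
    calc _ ≤ (1 - t) * 1 + (t * ((1 / 2 - u) * ca c) * ca c +
            t * ((1 / 2 + u) * ca c) * ca c) := by
          linarith
      _ = 1 - t * (1 - ca c ^ 2) := by ring
      _ < 1 := by
          have : 0 < 1 - ca c ^ 2 := by nlinarith
          have := mul_pos ht0 this
          linarith

theorem R_cp (c : ℕ) (m : ℤ) (u x : ℝ) : R c (2 * m - 1) (cp c m u x) = 1 - x :=
  R_fr c _ _ _

theorem J_cp (c : ℕ) (m : ℤ) (u x : ℝ) :
    J c (2 * m - 1) (cp c m u x) = x * (2 * ca c / sa c) * u :=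
  J_fr c _ _ _

/-- `R (2 m) (cp m u x) = ca - ca x (1 - 2 u)` -/
theorem R_cp_side (hc : 3 ≤ c) (m : ℤ) (u x : ℝ) :
    R c (2 * m) (cp c m u x) = ca c - ca c * x * (1 - 2 * u) := by
  have hs := (sa_pos hc).ne'
  have h := R_succ c (2 * m - 1) (cp c m u x)
  rw [sub_add_cancel, R_cp, J_cp] at h
  rw [h]
  field_simp
  ring

theorem R_cp_side' (hc : 3 ≤ c) (m : ℤ) (u x : ℝ) :
    R c (2 * m - 2) (cp c m u x) = ca c - ca c * x * (1 + 2 * u) := by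
  have hs := (sa_pos hc).ne'
  have h := R_pred c (2 * m - 1) (cp c m u x)
  rw [show 2 * m - 1 - 1 = 2 * m - 2 by ring, R_cp, J_cp] at h
  rw [h]
  field_simp
  ring

/-- the end of the corner `m` is glued to the beginning of the corner `m + 1` -/
theorem cp_glue (hc : 3 ≤ c) (m : ℤ) (x : ℝ) :
    2 * (ca c : ℂ) * W c (2 * m) - cp c m (1 / 2) x = cp c (m + 1) (-(1 / 2)) x := by
  have hs' : (sa c : ℂ) ≠ 0 := by exact_mod_cast (sa_pos hc).ne'
  have h1 : W c (2 * m - 1) = W c (2 * m) * ((ca c : ℂ) - (sa c : ℂ) * I) := by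
    rw [← PolyC_W_neg_one, ← W_add]
    congr 1
  have h2 : W c (2 * (m + 1) - 1) = W c (2 * m) * ((ca c : ℂ) + (sa c : ℂ) * I) := by
    rw [← PolyC_W_one, ← W_add]
    congr 1
    ring
  unfold cp fr
  rw [h1, h2]
  push_cast
  have hI : (I : ℂ) ^ 2 = -1 := Complex.I_sq
  have key : 2 * (ca c : ℂ) - (1 - (x : ℂ) + (x : ℂ) * (2 * (ca c : ℂ) / (sa c : ℂ)) * (1 / 2) * I) *
      ((ca c : ℂ) - (sa c : ℂ) * I) =
      (1 - (x : ℂ) + (x : ℂ) * (2 * (ca c : ℂ) / (sa c : ℂ)) * -(1 / 2) * I) *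
        ((ca c : ℂ) + (sa c : ℂ) * I) := by
    field_simp
    linear_combination (2 : ℂ) * (x : ℂ) * (sa c : ℂ) * (ca c : ℂ) * hI
  linear_combination (W c (2 * m)) * key

theorem cp_per (hc : 3 ≤ c) {m m' : ℤ} (h : (c : ℤ) ∣ m - m') (u x : ℝ) :
    cp c m u x = cp c m' u x := by
  unfold cp fr
  rw [W_per (c := c) (by omega) (i := 2 * m - 1) (j := 2 * m' - 1)]
  obtain ⟨k, hk⟩ := h
  exact ⟨k, by linear_combination 2 * hk⟩

/-- Coordinates in the corner `m`. PROOF: `R (2 m) z ≤ ca` and `R (2 m - 2) z ≤ ca` give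
`|J (2 m - 1) z| ≤ (1 - R (2 m - 1) z) ca / sa`. -/
theorem exists_cp (hc : 3 ≤ c) {z : ℂ} (hz : z ∈ Pg c) (m : ℤ) :
    |sa c / (2 * ca c) * (J c (2 * m - 1) z / (1 - R c (2 * m - 1) z))| ≤ 1 / 2 ∧
      cp c m (sa c / (2 * ca c) * (J c (2 * m - 1) z / (1 - R c (2 * m - 1) z)))
        (1 - R c (2 * m - 1) z) = z := by
  have hs := sa_pos hc
  have hca := ca_pos hc
  have h1 := hz.1 m
  have h2 := hz.1 (m - 1)
  have h3 := hz.2 m
  have e1 := R_succ c (2 * m - 1) z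
  have e2 := R_pred c (2 * m - 1) z
  rw [sub_add_cancel] at e1
  rw [show 2 * m - 1 - 1 = 2 * (m - 1) by ring] at e2
  rw [e1] at h1
  rw [e2] at h2
  obtain ⟨r, hr⟩ : ∃ r : ℝ, r = R c (2 * m - 1) z := ⟨_, rfl⟩
  obtain ⟨j, hj⟩ : ∃ j : ℝ, j = J c (2 * m - 1) z := ⟨_, rfl⟩
  have hcp : cp c m (sa c / (2 * ca c) * (J c (2 * m - 1) z / (1 - R c (2 * m - 1) z)))
        (1 - R c (2 * m - 1) z) = fr c (2 * m - 1) (R c (2 * m - 1) z) (J c (2 * m - 1) z) := by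
    have h4 : 1 - R c (2 * m - 1) z ≠ 0 := by linarith
    unfold cp
    congr 1
    · ring
    · field_simp
  refine ⟨?_, by rw [hcp, fr_R_J]⟩
  rw [← hr, ← hj] at h1 h2 ⊢
  rw [← hr] at h3
  have hr0 : 0 < 1 - r := by linarith
  rw [abs_le]
  have e3 : sa c / (2 * ca c) * (j / (1 - r)) = sa c * j / (2 * ca c * (1 - r)) := by
    field_simp
  rw [e3]
  constructor
  · rw [le_div_iff₀ (by positivity)]
    nlinarith
  · rw [div_le_iff₀ (by positivity)]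
    nlinarith

theorem PolyC_mod (hc : 3 ≤ c) (m : ℤ) : ∃ i : Fin c, (c : ℤ) ∣ m - (i : ℕ) := by
  have h0 : (0 : ℤ) < c := by omega
  have h1 := Int.emod_nonneg m h0.ne'
  have h2 := Int.emod_lt_of_pos m h0
  refine ⟨⟨(m % c).toNat, by omega⟩, ?_⟩
  have h3 : (((m % c).toNat : ℕ) : ℤ) = m % c := Int.toNat_of_nonneg h1
  simp only [h3]
  exact Int.dvd_self_sub_emod

theorem PolyC_R_even (hc : 3 ≤ c) {m m' : ℤ} (h : (c : ℤ) ∣ m - m') (z : ℂ) :
    R c (2 * m) z = R c (2 * m') z := by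
  obtain ⟨k, hk⟩ := h
  exact R_per (by omega) ⟨k, by linear_combination 2 * hk⟩ z

theorem PolyC_R_odd (hc : 3 ≤ c) {m m' : ℤ} (h : (c : ℤ) ∣ m - m') (z : ℂ) :
    R c (2 * m - 1) z = R c (2 * m' - 1) z := by
  obtain ⟨k, hk⟩ := h
  exact R_per (by omega) ⟨k, by linear_combination 2 * hk⟩ z

/-- the open polygon (`c` conditions suffice) -/
theorem isOpen_int (hc : 3 ≤ c) :
    IsOpen {z : ℂ | ∀ m : ℤ, R c (2 * m) z < ca c ∧ R c (2 * m - 1) z < 1} := by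
  have h1 : {z : ℂ | ∀ m : ℤ, R c (2 * m) z < ca c ∧ R c (2 * m - 1) z < 1} =
      ⋂ i : Fin c, ({z : ℂ | R c (2 * ((i : ℕ) : ℤ)) z < ca c} ∩
        {z : ℂ | R c (2 * ((i : ℕ) : ℤ) - 1) z < 1}) := by
    ext z
    simp only [mem_ofPred_eq, mem_iInter, mem_inter_iff]
    refine ⟨fun h i => h _, fun h m => ?_⟩
    obtain ⟨i, hi⟩ := PolyC_mod hc m
    rw [PolyC_R_even hc hi, PolyC_R_odd hc hi]
    exact h i
  rw [h1]
  apply isOpen_iInter_of_finite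
  intro i
  exact (isOpen_lt (by fun_prop) continuous_const).inter (isOpen_lt (by fun_prop) continuous_const)

/-- the open region below the side `m` -/
theorem isOpen_below (hc : 3 ≤ c) (m : ℤ) :
    IsOpen {z : ℂ | (∀ l : ℤ, ¬ (c : ℤ) ∣ l - m → R c (2 * l) z < ca c) ∧
      ∀ l : ℤ, R c (2 * l - 1) z < 1} := by
  have h1 : {z : ℂ | (∀ l : ℤ, ¬ (c : ℤ) ∣ l - m → R c (2 * l) z < ca c) ∧
      ∀ l : ℤ, R c (2 * l - 1) z < 1} =
      ⋂ i : Fin c, ((⋂ _ : ¬ (c : ℤ) ∣ ((i : ℕ) : ℤ) - m,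
          {z : ℂ | R c (2 * ((i : ℕ) : ℤ)) z < ca c}) ∩
        {z : ℂ | R c (2 * ((i : ℕ) : ℤ) - 1) z < 1}) := by
    ext z
    simp only [mem_ofPred_eq, mem_iInter, mem_inter_iff]
    refine ⟨fun h i => ⟨fun hi => h.1 _ hi, h.2 _⟩, fun h => ⟨fun l hl => ?_, fun l => ?_⟩⟩
    · obtain ⟨i, hi⟩ := PolyC_mod hc l
      rw [PolyC_R_even hc hi]
      refine (h i).1 fun h2 => hl ?_
      have := dvd_add hi h2
      rwa [sub_add_sub_cancel] at this
    · obtain ⟨i, hi⟩ := PolyC_mod hc l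
      rw [PolyC_R_odd hc hi]
      exact (h i).2
  rw [h1]
  apply isOpen_iInter_of_finite
  intro i
  refine IsOpen.inter ?_ (isOpen_lt (by fun_prop) continuous_const)
  apply isOpen_iInter_of_finite
  intro _
  exact isOpen_lt (by fun_prop) continuous_const

end

end Pool.Agent.H.MP_1611f1_gt.PB.Mo
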