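import Pool.Agent.H.MP_1611f1_gt.PB.Mo.Space
import Pool.Agent.H.MP_1611f1_gt.PB.Mo.PolyC

/-!
MODEL OF THE FIBRE SURFACE: the collar of the end.
-/

namespace Pool.Agent.H.MP_1611f1_gt.PB.Mo

open Complex Set Topology

noncomputable section

variable {c L : ℕ} {I : Type} [Fact (3 ≤ c)] (K : Comb c L I)

/-- the radial coordinate -/
def rad (c : ℕ) (r : Ioo (1 : ℝ) 2) : ℝ := sa c ^ 2 / 2 * (r - 1)

theorem rad_pos (r : Ioo (1 : ℝ) 2) : 0 < rad c r := by
  have h3 := sa_pos (c := c) Fact.out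
  have h4 : (0 : ℝ) < (r : ℝ) - 1 := sub_pos.2 r.2.1
  unfold rad
  positivity

theorem rad_lt (r : Ioo (1 : ℝ) 2) : rad c r < sa c ^ 2 / 2 := by
  have h3 := sa_pos (c := c) Fact.out
  have h4 : (r : ℝ) - 1 < 1 := by linarith [r.2.2]
  have h5 : 0 < sa c ^ 2 / 2 := by positivity
  unfold rad
  calc sa c ^ 2 / 2 * ((r : ℝ) - 1) < sa c ^ 2 / 2 * 1 := mul_lt_mul_of_pos_left h4 h5
    _ = sa c ^ 2 / 2 := mul_one _

theorem rad_cp {t : ℤ} {u : ℝ} (hu : |u| ≤ 1 / 2) (r : Ioo (1 : ℝ) 2) :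
    cp c t u (rad c r) ∈ Pg c := by
  have h3 := sa_pos (c := c) Fact.out
  have h4 := rad_lt (c := c) r
  exact cp_mem Fact.out t hu (rad_pos r) (by nlinarith [mul_pos h3 h3])

/-- the point of the collar in the corner number `t` of the walk -/
def cpt (t : ℤ) (u : ℝ) (hu : |u| ≤ 1 / 2) (r : Ioo (1 : ℝ) 2) : Sf K :=
  pt K (K.lv t) (cp c t u (rad c r)) (rad_cp hu r)

theorem ColA_big (r : Ioo (1 : ℝ) 2) : ca c ^ 2 < 1 - rad c r := by
  have h1 := rad_lt (c := c) r
  have h2 := ca_sq_add c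
  have h3 := sa_pos (c := c) Fact.out
  nlinarith [mul_pos h3 h3]

theorem ColA_rad_inj {r r' : Ioo (1 : ℝ) 2} (h : rad c r = rad c r') : r = r' := by
  have h3 := sa_pos (c := c) Fact.out
  unfold rad at h
  have h4 : sa c ^ 2 / 2 ≠ 0 := by positivity
  have h5 := mul_left_cancel₀ h4 h
  apply Subtype.ext
  linarith

theorem ColA_core {t t' : ℤ} {u u' : ℝ} (hu : |u| ≤ 1 / 2) (r r' : Ioo (1 : ℝ) 2)
    (hlv : K.lv t = K.lv t') (h : cp c t u (rad c r) = cp c t' u' (rad c r')) :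
    r = r' ∧ (L : ℤ) ∣ t - t' ∧ u = u' := by
  have hc : 3 ≤ c := Fact.out
  have hz : cp c t u (rad c r) ∈ Pg c := rad_cp hu r
  have h1 : R c (2 * t - 1) (cp c t u (rad c r)) = 1 - rad c r := R_cp c t u _
  have h2 : R c (2 * t' - 1) (cp c t u (rad c r)) = 1 - rad c r' := by
    rw [h]
    exact R_cp c t' u' _
  have hd : (c : ℤ) ∣ t - t' := corner_unique hc hz (by rw [h1]; exact ColA_big r)
    (by rw [h2]; exact ColA_big r')
  have hd2 : (2 * c : ℤ) ∣ (2 * t - 1) - (2 * t' - 1) := by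
    obtain ⟨k, hk⟩ := hd
    exact ⟨k, by linear_combination 2 * hk⟩
  have h3 := R_per (by omega : 0 < c) hd2 (cp c t u (rad c r))
  rw [h1, h2] at h3
  have hrr : r = r' := ColA_rad_inj (by linarith)
  refine ⟨hrr, K.inj t t' hlv hd, ?_⟩
  have h4 := J_per (by omega : 0 < c) hd2 (cp c t u (rad c r))
  rw [J_cp] at h4
  rw [h, J_cp, ← hrr] at h4
  have h5 : rad c r * (2 * ca c / sa c) ≠ 0 := by
    have h6 := rad_pos (c := c) r
    have h7 := ca_pos hc
    have h8 := sa_pos hc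
    positivity
  exact mul_left_cancel₀ h5 h4

theorem ColA_step_back (t : ℤ) : K.σ (t - 1) (K.lv t) = K.lv (t - 1) := by
  have h1 := K.step (t - 1)
  rw [sub_add_cancel] at h1
  rw [h1, K.inv]

/-- Equality of collar points. PROOF: `pt_eq_iff`, `corner_unique`, `R_cp`, `J_cp`, `K.inj`, and for the glued
case `side_corner`, `cp_glue`. -/
theorem cpt_eq_iff {t t' : ℤ} {u u' : ℝ} (hu : |u| ≤ 1 / 2) (hu' : |u'| ≤ 1 / 2)
    (r r' : Ioo (1 : ℝ) 2) : cpt K t u hu r = cpt K t' u' hu' r' ↔ r = r' ∧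
      (((L : ℤ) ∣ t - t' ∧ u = u') ∨ ((L : ℤ) ∣ t + 1 - t' ∧ u = 1 / 2 ∧ u' = -(1 / 2)) ∨
        ((L : ℤ) ∣ t - 1 - t' ∧ u = -(1 / 2) ∧ u' = 1 / 2)) := by
  have hc : 3 ≤ c := Fact.out
  have hc0 : 0 < c := by omega
  have hca := ca_pos hc
  have hx := rad_pos (c := c) r
  unfold cpt
  rw [pt_eq_iff]
  constructor
  · rintro (⟨h1, h2⟩ | ⟨m, h1, h2, h3⟩)
    · obtain ⟨e1, e2, e3⟩ := ColA_core K hu r r' h1 h2
      exact ⟨e1, Or.inl ⟨e2, e3⟩⟩
    · have hb : ca c ^ 2 < R c (2 * t - 1) (cp c t u (rad c r)) := by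
        rw [R_cp]
        exact ColA_big r
      rcases side_corner hc (rad_cp hu r) h1 hb with hd | hd
      · have hd2 : (2 * c : ℤ) ∣ 2 * t - 2 * m := by
          obtain ⟨k, hk⟩ := hd
          exact ⟨k, by linear_combination 2 * hk⟩
        rw [← R_per hc0 hd2, R_cp_side hc] at h1
        have hu1 : u = 1 / 2 := by
          have h4 : ca c * rad c r * (1 - 2 * u) = 0 := by linarith
          rcases mul_eq_zero.1 h4 with h5 | h5
          · exact absurd h5 (by positivity)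
          · linarith
        have hlv : K.lv (t + 1) = K.lv t' := by rw [h2, K.step, K.σ_congr hd]
        have hcp : cp c (t + 1) (-(1 / 2)) (rad c r) = cp c t' u' (rad c r') := by
          rw [h3, ← W_per hc0 hd2, hu1, cp_glue hc]
        obtain ⟨e1, e2, e3⟩ := ColA_core K (by rw [abs_neg, abs_of_pos] <;> norm_num) r r' hlv hcp
        exact ⟨e1, Or.inr (Or.inl ⟨e2, hu1, e3.symm⟩)⟩
      · have hd2 : (2 * c : ℤ) ∣ (2 * t - 2) - 2 * m := by
          obtain ⟨k, hk⟩ := hd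
          exact ⟨k, by linear_combination 2 * hk⟩
        rw [← R_per hc0 hd2, R_cp_side' hc] at h1
        have hu1 : u = -(1 / 2) := by
          have h4 : ca c * rad c r * (1 + 2 * u) = 0 := by linarith
          rcases mul_eq_zero.1 h4 with h5 | h5
          · exact absurd h5 (by positivity)
          · linarith
        have hd3 : (c : ℤ) ∣ (t - 1) - m := by
          have e : (t - 1) - m = t - (m + 1) := by ring
          rw [e]
          exact hd
        have hlv : K.lv (t - 1) = K.lv t' := by rw [h2, ← K.σ_congr hd3, ColA_step_back]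
        have hcp : cp c (t - 1) (1 / 2) (rad c r) = cp c t' u' (rad c r') := by
          have h6 := cp_glue hc (t - 1) (rad c r)
          rw [sub_add_cancel] at h6
          have e2 : (2 : ℤ) * (t - 1) = 2 * t - 2 := by ring
          rw [e2] at h6
          rw [h3, ← W_per hc0 hd2, hu1, ← h6]
          ring
        obtain ⟨e1, e2, e3⟩ := ColA_core K (by rw [abs_of_pos]; norm_num) r r' hlv hcp
        exact ⟨e1, Or.inr (Or.inr ⟨e2, hu1, e3.symm⟩)⟩
  · rintro ⟨rfl, h⟩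
    rcases h with ⟨h1, rfl⟩ | ⟨h1, rfl, rfl⟩ | ⟨h1, rfl, rfl⟩
    · have hd : (c : ℤ) ∣ t - t' := (Int.natCast_dvd_natCast.2 K.dvd).trans h1
      exact Or.inl ⟨K.lv_congr h1, cp_per hc hd _ _⟩
    · have hd : (c : ℤ) ∣ t + 1 - t' := (Int.natCast_dvd_natCast.2 K.dvd).trans h1
      refine Or.inr ⟨t, ?_, ?_, ?_⟩
      · rw [R_cp_side hc]
        ring
      · rw [← K.lv_congr h1, K.step]
      · rw [cp_glue hc, cp_per hc hd]
    · have hd : (c : ℤ) ∣ t - 1 - t' := (Int.natCast_dvd_natCast.2 K.dvd).trans h1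
      have e2 : (2 : ℤ) * (t - 1) = 2 * t - 2 := by ring
      refine Or.inr ⟨t - 1, ?_, ?_, ?_⟩
      · rw [e2, R_cp_side' hc]
        ring
      · rw [← K.lv_congr h1, ColA_step_back]
      · have h6 := cp_glue hc (t - 1) (rad c r)
        rw [sub_add_cancel] at h6
        rw [← cp_per hc hd, ← h6]
        ring

end

end Pool.Agent.H.MP_1611f1_gt.PB.Mo
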