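import Pool.Agent.H.MP_1611f1_gt.PB.Mo.FlatB
import Pool.Agent.H.MP_1611f1_gt.PB.Mo.TopB
import Pool.Agent.H.MP_1611f1_gt.PB.Mo.ColA

/-!
MODEL OF THE FIBRE SURFACE: the collar of the end (existence).
-/

namespace Pool.Agent.H.MP_1611f1_gt.PB.Mo

open Complex Set Topology

noncomputable section

variable {c L : ℕ} {I : Type} [Fact (3 ≤ c)] (K : Comb c L I)
/-- the angular coordinate in the corner `m` -/
def ColB_u (c : ℕ) (m : ℤ) (z : ℂ) : ℝ :=
  sa c / (2 * ca c) * (J c (2 * m - 1) z / (1 - R c (2 * m - 1) z))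

/-- the radial coordinate in the corner `m` -/
def ColB_r (c : ℕ) (m : ℤ) (z : ℂ) : ℝ := 1 + 2 * (1 - R c (2 * m - 1) z) / sa c ^ 2

omit [Fact (3 ≤ c)] in
theorem ColB_cont_u (m : ℤ) : Continuous fun z : Pg c => ColB_u c m z := by
  unfold ColB_u
  refine continuous_const.mul (Continuous.div ?_ ?_ fun z => ?_)
  · exact (continuous_J c _).comp continuous_subtype_val
  · exact continuous_const.sub ((continuous_R c _).comp continuous_subtype_val)
  · have h := z.2.2 m
    have : 0 < 1 - R c (2 * m - 1) (z : ℂ) := by linarith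
    exact this.ne'

omit [Fact (3 ≤ c)] in
theorem ColB_cont_r (m : ℤ) : Continuous fun z : Pg c => ColB_r c m z := by
  unfold ColB_r
  have h : Continuous fun z : Pg c => R c (2 * m - 1) (z : ℂ) :=
    (continuous_R c _).comp continuous_subtype_val
  fun_prop

theorem ColB_cpt_congr {t : ℤ} {u u' : ℝ} (h : u = u') (hu : |u| ≤ 1 / 2) (hu' : |u'| ≤ 1 / 2)
    (r : Ioo (1 : ℝ) 2) : cpt K t u hu r = cpt K t u' hu' r := by
  subst h
  rfl

theorem ColB_pt_congr {i j : I} {z w : ℂ} (hi : i = j) (h : z = w) (hz : z ∈ Pg c) (hw : w ∈ Pg c) :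
    pt K i z hz = pt K j w hw := by
  subst hi
  subst h
  rfl

theorem ColB_rad_eq {z : ℂ} {m : ℤ} {r : Ioo (1 : ℝ) 2} (hr : (r : ℝ) = ColB_r c m z) :
    rad c r = 1 - R c (2 * m - 1) z := by
  have h := sa_pos (c := c) Fact.out
  unfold rad
  rw [hr]
  unfold ColB_r
  field_simp
  ring

theorem ColB_point {i : I} {z : ℂ} (hz : z ∈ Pg c) {m t : ℤ} (ht : K.lv t = i)
    (hm : (c : ℤ) ∣ t - m) {r : Ioo (1 : ℝ) 2} (hr : (r : ℝ) = ColB_r c m z) :
    ∃ hu : |ColB_u c m z| ≤ 1 / 2, pt K i z hz = cpt K t (ColB_u c m z) hu r := by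
  obtain ⟨h1, h2⟩ := exists_cp Fact.out hz m
  refine ⟨h1, ?_⟩
  unfold cpt
  refine ColB_pt_congr K ht.symm ?_ _ _
  rw [cp_per Fact.out hm, ColB_rad_eq hr]
  exact h2.symm

theorem ColB_rep {i : I} {z : ℂ} (hz : z ∈ Pg c) {t : ℤ} {u : ℝ} (hu : |u| ≤ 1 / 2)
    (r : Ioo (1 : ℝ) 2) (h : pt K i z hz = cpt K t u hu r) :
    ∃ (t' : ℤ) (u' : ℝ) (_ : |u'| ≤ 1 / 2), K.lv t' = i ∧ z = cp c t' u' (rad c r) ∧
      ((((t + u) / L : ℝ)) : AddCircle (1 : ℝ)) = ((((t' + u') / L : ℝ)) : AddCircle (1 : ℝ)) := by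
  have hc : 3 ≤ c := Fact.out
  have hc0 : 0 < c := by omega
  have hca := ca_pos hc
  unfold cpt at h
  rcases (pt_eq_iff K hz (rad_cp hu r)).1 h with ⟨h1, h2⟩ | ⟨m, h1, h2, h3⟩
  · exact ⟨t, u, hu, h1.symm, h2, rfl⟩
  · have hz' : z = 2 * (ca c : ℂ) * W c (2 * m) - cp c t u (rad c r) := by
      rw [h3]
      ring
    have hi : i = K.σ m (K.lv t) := by rw [h2, K.inv]
    have hside : R c (2 * m) (cp c t u (rad c r)) = ca c := by
      rw [h3, R_refl, h1]
      ring
    have hx := rad_pos (c := c) r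
    have hx' := rad_lt (c := c) r
    have hcor : ca c ^ 2 < R c (2 * t - 1) (cp c t u (rad c r)) := by
      rw [R_cp]
      have h5 := ca_sq_add c
      have h6 := sa_pos hc
      nlinarith
    rcases side_corner hc (rad_cp hu r) hside hcor with h4 | h4
    · have hu' : u = 1 / 2 := by
        have h5 : R c (2 * t) (cp c t u (rad c r)) = ca c := by
          rw [← hside]
          refine R_per hc0 ?_ _
          obtain ⟨k, hk⟩ := h4
          exact ⟨k, by linarith⟩
        rw [R_cp_side hc] at h5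
        have h7 : ca c * rad c r * (1 - 2 * u) = 0 := by linarith
        rcases mul_eq_zero.1 h7 with h6 | h6
        · exact absurd h6 (mul_pos hca hx).ne'
        · linarith
      subst hu'
      refine ⟨t + 1, -(1 / 2), by norm_num [abs_le], ?_, ?_, ?_⟩
      · rw [K.step, hi, K.σ_congr h4]
      · have h8 : W c (2 * m) = W c (2 * t) := by
          refine W_per hc0 ?_
          obtain ⟨k, hk⟩ := h4
          exact ⟨-k, by linarith⟩
        rw [hz', ← cp_glue hc t, h8]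
      · push_cast
        congr 2
        ring
    · have hu' : u = -(1 / 2) := by
        have h5 : R c (2 * t - 2) (cp c t u (rad c r)) = ca c := by
          rw [← hside]
          refine R_per hc0 ?_ _
          obtain ⟨k, hk⟩ := h4
          exact ⟨k, by linarith⟩
        rw [R_cp_side' hc] at h5
        have h7 : ca c * rad c r * (1 + 2 * u) = 0 := by linarith
        rcases mul_eq_zero.1 h7 with h6 | h6
        · exact absurd h6 (mul_pos hca hx).ne'
        · linarith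
      subst hu'
      have h9 : (c : ℤ) ∣ (t - 1) - m := by
        obtain ⟨k, hk⟩ := h4
        exact ⟨k, by linarith⟩
      refine ⟨t - 1, 1 / 2, by norm_num [abs_le], ?_, ?_, ?_⟩
      · have h10 := K.step (t - 1)
        rw [sub_add_cancel] at h10
        rw [hi, h10, K.σ_congr h9, K.inv]
      · have h8 : W c (2 * m) = W c (2 * (t - 1)) := by
          refine W_per hc0 ?_
          obtain ⟨k, hk⟩ := h9
          exact ⟨-k, by linarith⟩
        have h11 := cp_glue hc (t - 1) (rad c r)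
        rw [sub_add_cancel] at h11
        rw [hz', h8, ← h11]
        ring
      · push_cast
        congr 2
        ring

/-- in the corner `t` the coordinates of `cp t u (rad r)` are `u` and `r` -/
theorem ColB_coord {t : ℤ} {u : ℝ} (r : Ioo (1 : ℝ) 2) :
    ColB_u c t (cp c t u (rad c r)) = u ∧ ColB_r c t (cp c t u (rad c r)) = r := by
  have hc : 3 ≤ c := Fact.out
  have hca := ca_pos hc
  have hsa := sa_pos hc
  have hx := rad_pos (c := c) r
  constructor
  · unfold ColB_u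
    rw [R_cp, J_cp]
    have h1 : 1 - (1 - rad c r) = rad c r := by ring
    rw [h1]
    field_simp
  · unfold ColB_r
    rw [R_cp]
    unfold rad
    field_simp
    ring

/-- the clamped coordinate -/
def ColB_cl (u : ℝ) : ℝ := max (-(1 / 2)) (min (1 / 2) u)

theorem ColB_cl_abs (u : ℝ) : |ColB_cl u| ≤ 1 / 2 := by
  unfold ColB_cl
  rw [abs_le]
  exact ⟨le_max_left _ _, max_le (by norm_num) (min_le_left _ _)⟩

theorem ColB_cl_eq {u : ℝ} (hu : |u| ≤ 1 / 2) : ColB_cl u = u := by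
  unfold ColB_cl
  obtain ⟨h1, h2⟩ := abs_le.1 hu
  rw [min_eq_right h2, max_eq_right h1]

variable [TopologicalSpace I] [DiscreteTopology I]

/-- **The collar.** PROOF: `exists_circle_glue` with `f t u r = cpt t u r` (extended by clamping `u`). Injective by
`cpt_eq_iff` and `sector_eq_iff`. Open: for `O` open, the preimage of `F '' O` in the polygon `i` is the union
over the corners `m` of `{z | ca² < ... , 1 - R (2 m - 1) z < sa² / 2 and the point
((t + u) / L, 1 + 2 (1 - R) / sa²) ∈ O}`, `u = sa / (2 ca) * J (2 m - 1) / (1 - R (2 m - 1))`, `t` the time with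
`lv t = i`, `t ≡ m` (`K.onto`, `exists_cp`), a union of open sets. The closed part: the preimage of
`F '' {r ≤ r₀}` in the polygon `i` is `⋃ m, {z | 1 - R (2 m - 1) z ≤ sa² / 2 * (r₀ - 1)}`, a finite
union of closed sets. -/
theorem exists_collar : ∃ F : AddCircle (1 : ℝ) × Ioo (1 : ℝ) 2 → Sf K, IsOpenEmbedding F ∧
    (∀ (t : ℤ) (u : ℝ) (hu : |u| ≤ 1 / 2) (r : Ioo (1 : ℝ) 2),
      F (((((t + u) / L : ℝ)) : AddCircle (1 : ℝ)), r) = cpt K t u hu r) ∧
    ∀ r : ℝ, r < 2 → IsClosed (F '' {z | (z.2 : ℝ) ≤ r}) := by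
  have hc : 3 ≤ c := Fact.out
  have hc0 : 0 < c := by omega
  have hL := K.pos
  have hsa := sa_pos hc
  have hA : ∀ t : ℤ, ContinuousOn (fun p : ℝ × Ioo (1 : ℝ) 2 =>
      cpt K t (ColB_cl p.1) (ColB_cl_abs p.1) p.2) (Icc (-(1 / 2)) (1 / 2) ×ˢ univ) := by
    intro t
    refine Continuous.continuousOn ?_
    have h1 : Continuous fun p : ℝ × Ioo (1 : ℝ) 2 => cp c t (ColB_cl p.1) (rad c p.2) := by
      unfold cp fr ColB_cl rad
      fun_prop
    exact (continuous_pt K (K.lv t)).comp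
      (h1.subtype_mk fun p => rad_cp (ColB_cl_abs p.1) p.2)
  have hB : ∀ (t : ℤ) (y : Ioo (1 : ℝ) 2), cpt K t (ColB_cl (1 / 2)) (ColB_cl_abs (1 / 2)) y =
      cpt K (t + 1) (ColB_cl (-(1 / 2))) (ColB_cl_abs (-(1 / 2))) y := by
    intro t y
    refine (cpt_eq_iff K _ _ _ _).2 ⟨rfl, Or.inr (Or.inl ⟨by simp, ?_, ?_⟩)⟩
    · exact ColB_cl_eq (by norm_num [abs_le])
    · exact ColB_cl_eq (by norm_num [abs_le])
  have hC : ∀ (t : ℤ) (u : ℝ) (y : Ioo (1 : ℝ) 2), cpt K (t + L) (ColB_cl u) (ColB_cl_abs u) y =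
      cpt K t (ColB_cl u) (ColB_cl_abs u) y := fun t u y =>
    (cpt_eq_iff K _ _ _ _).2 ⟨rfl, Or.inl ⟨by simp, rfl⟩⟩
  obtain ⟨F, hF⟩ := exists_circle_glue (Y := Ioo (1 : ℝ) 2) (Z := Sf K) hL
    (fun t u r => cpt K t (ColB_cl u) (ColB_cl_abs u) r) hA hB hC
  have hF' : ∀ (t : ℤ) (u : ℝ) (hu : |u| ≤ 1 / 2) (r : Ioo (1 : ℝ) 2),
      F (((((t + u) / L : ℝ)) : AddCircle (1 : ℝ)), r) = cpt K t u hu r := by
    intro t u hu r
    rw [hF t u r hu]
    exact ColB_cpt_congr K (ColB_cl_eq hu) _ _ _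
  choose τ hτ using K.onto
  have hpt : ∀ (i : I) (z : ℂ) (hz : z ∈ Pg c) (m : ℤ) (r : Ioo (1 : ℝ) 2),
      (r : ℝ) = ColB_r c m z → pt K i z hz =
        F (((((τ i m + ColB_u c m z) / L : ℝ)) : AddCircle (1 : ℝ)), r) := by
    intro i z hz m r hr
    obtain ⟨hu, h1⟩ := ColB_point K hz (hτ i m).1 (hτ i m).2 hr
    rw [h1, hF']
  have hrep : ∀ (i : I) (z : ℂ) (hz : z ∈ Pg c) (θ : AddCircle (1 : ℝ)) (r : Ioo (1 : ℝ) 2),
      pt K i z hz = F (θ, r) → ∃ m : ℤ, (r : ℝ) = ColB_r c m z ∧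
        θ = ((((τ i m + ColB_u c m z) / L : ℝ)) : AddCircle (1 : ℝ)) := by
    intro i z hz θ r h
    obtain ⟨t, u, hu, rfl⟩ := exists_sector hL θ
    rw [hF' t u hu r] at h
    obtain ⟨t', u', hu', h1, h2, h3⟩ := ColB_rep K hz hu r h
    obtain ⟨h4, h5⟩ := ColB_coord (c := c) (t := t') (u := u') r
    refine ⟨t', ?_, ?_⟩
    · rw [h2, h5]
    · rw [h3, h2, h4]
      refine (sector_eq_iff hL hu' hu').2 (Or.inl ⟨?_, rfl⟩)
      refine K.inj _ _ ?_ ?_
      · rw [h1, (hτ i t').1]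
      · obtain ⟨k, hk⟩ := (hτ i t').2
        exact ⟨-k, by linarith⟩
  refine ⟨F, ?_, hF', ?_⟩
  · refine IsOpenEmbedding.of_continuous_injective_isOpenMap F.continuous ?_ ?_
    · rintro ⟨θ, r⟩ ⟨θ', r'⟩ h
      obtain ⟨t, u, hu, rfl⟩ := exists_sector hL θ
      obtain ⟨t', u', hu', rfl⟩ := exists_sector hL θ'
      rw [hF' t u hu r, hF' t' u' hu' r', cpt_eq_iff] at h
      rw [(sector_eq_iff hL hu hu').2 h.2, h.1]
    · intro O hO
      have hO' : IsOpen ((fun p : AddCircle (1 : ℝ) × Ioo (1 : ℝ) 2 => (p.1, (p.2 : ℝ))) '' O) :=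
        (IsOpenMap.id.prodMap isOpen_Ioo.isOpenMap_subtype_val) O hO
      rw [isOpen_iff_pt]
      intro i
      have h1 : {z : Pg c | pt K i z z.2 ∈ F '' O} = ⋃ m : ℤ,
          (fun z : Pg c => (((((τ i m + ColB_u c m z) / L : ℝ)) : AddCircle (1 : ℝ)),
            ColB_r c m z)) ⁻¹'
              ((fun p : AddCircle (1 : ℝ) × Ioo (1 : ℝ) 2 => (p.1, (p.2 : ℝ))) '' O) := by
        ext z
        simp only [mem_ofPred_eq, mem_image, mem_iUnion, mem_preimage, Prod.exists, Prod.mk.injEq]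
        constructor
        · rintro ⟨θ, r, h2, h3⟩
          obtain ⟨m, h4, h5⟩ := hrep i z z.2 θ r h3.symm
          exact ⟨m, θ, r, h2, h5, h4⟩
        · rintro ⟨m, θ, r, h2, h3, h4⟩
          exact ⟨θ, r, h2, by rw [hpt i z z.2 m r h4, h3]⟩
      rw [h1]
      refine isOpen_iUnion fun m => hO'.preimage ?_
      have h2 := ColB_cont_u (c := c) m
      have h3 := ColB_cont_r (c := c) m
      refine Continuous.prodMk ?_ h3
      refine (AddCircle.continuous_mk' (1 : ℝ)).comp ?_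
      fun_prop
  · intro r₀ hr₀
    rw [isClosed_iff_pt]
    intro i
    have h1 : {z : Pg c | pt K i z z.2 ∈ F '' {z | (z.2 : ℝ) ≤ r₀}} =
        ⋃ m : Fin c, {z : Pg c | ColB_r c ((m : ℕ) : ℤ) z ≤ r₀} := by
      ext z
      simp only [mem_ofPred_eq, mem_image, mem_iUnion, Prod.exists]
      constructor
      · rintro ⟨θ, r, h2, h3⟩
        obtain ⟨m, h4, h5⟩ := hrep i z z.2 θ r h3.symm
        have hcz : (0 : ℤ) < c := by exact_mod_cast hc0
        have h6 := Int.emod_nonneg m hcz.ne'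
        have h7 := Int.emod_lt_of_pos m hcz
        refine ⟨⟨(m % c).toNat, by omega⟩, ?_⟩
        have h8 : (((m % c).toNat : ℕ) : ℤ) = m % c := by omega
        have h9 : ColB_r c (m % c) (z : ℂ) = ColB_r c m z := by
          unfold ColB_r
          have h10 : R c (2 * (m % c) - 1) (z : ℂ) = R c (2 * m - 1) z := by
            refine R_per hc0 ⟨-(m / c), ?_⟩ _
            have h11 := Int.emod_add_mul_ediv m c
            linarith
          rw [h10]
        show ColB_r c (((m % c).toNat : ℕ) : ℤ) (z : ℂ) ≤ r₀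
        rw [h8, h9, ← h4]
        exact h2
      · rintro ⟨m, h2⟩
        have h3 : (1 : ℝ) < ColB_r c ((m : ℕ) : ℤ) (z : ℂ) := by
          have h4 := z.2.2 ((m : ℕ) : ℤ)
          unfold ColB_r
          have h5 : 0 < 2 * (1 - R c (2 * ((m : ℕ) : ℤ) - 1) (z : ℂ)) / sa c ^ 2 := by
            apply div_pos _ (by positivity)
            linarith
          linarith
        exact ⟨_, ⟨ColB_r c ((m : ℕ) : ℤ) (z : ℂ), h3, by linarith⟩, h2,
          (hpt i z z.2 _ ⟨ColB_r c ((m : ℕ) : ℤ) (z : ℂ), h3, by linarith⟩ rfl).symm⟩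
    rw [h1]
    refine isClosed_iUnion_of_finite fun m => ?_
    exact isClosed_le (ColB_cont_r _) continuous_const

/-- the surface with its collar -/
theorem exists_surf : ∃ E : Surf (Sf K) Unit, ∀ (t : ℤ) (u : ℝ) (hu : |u| ≤ 1 / 2)
    (r : Ioo (1 : ℝ) 2), E.collar () (((((t + u) / L : ℝ)) : AddCircle (1 : ℝ)), r) =
      cpt K t u hu r := by
  obtain ⟨F, h1, h2, h3⟩ := exists_collar K
  exact ⟨⟨flat K, fun _ => F, fun _ => h1, fun _ _ _ _ _ => rfl, fun _ => h3⟩, h2⟩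

end

end Pool.Agent.H.MP_1611f1_gt.PB.Mo
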