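import Mathlib

/-!
MODEL OF THE FIBRE SURFACE: general topological lemmas.
-/

namespace Pool.Agent.H.MP_1611f1_gt.PB.Mo

open Set Topology

/-- Charts from a pair of open maps with the same fibres. PROOF: `source = range Ψ`, `target = range g`,
`toFun x = g (w)` for any `w` with `Ψ w = x`, `invFun b = Ψ w` for any `w` with `g w = b`;
`toFun ⁻¹' O ∩ range Ψ = Ψ '' (g ⁻¹' O)` is open, and conversely. -/
theorem exists_chart_of_pair {V S B : Type*} [TopologicalSpace V] [TopologicalSpace S]
    [TopologicalSpace B] (Ψ : V → S) (g : V → B) (hΨ : Continuous Ψ) (hg : Continuous g)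
    (oΨ : IsOpenMap Ψ) (og : IsOpenMap g) (h : ∀ v w, Ψ v = Ψ w ↔ g v = g w) [Nonempty V] :
    ∃ e : OpenPartialHomeomorph S B, e.source = range Ψ := by
  classical
  let f : S → B := fun x => if hx : ∃ v, Ψ v = x then g hx.choose else g (Classical.arbitrary V)
  let k : B → S := fun b => if hb : ∃ v, g v = b then Ψ hb.choose else Ψ (Classical.arbitrary V)
  have hf : ∀ v, f (Ψ v) = g v := by
    intro v
    have hx : ∃ w, Ψ w = Ψ v := ⟨v, rfl⟩
    show (if hx : ∃ w, Ψ w = Ψ v then g hx.choose else g (Classical.arbitrary V)) = g v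
    rw [dif_pos hx]
    exact (h _ _).1 hx.choose_spec
  have hk : ∀ v, k (g v) = Ψ v := by
    intro v
    have hx : ∃ w, g w = g v := ⟨v, rfl⟩
    show (if hx : ∃ w, g w = g v then Ψ hx.choose else Ψ (Classical.arbitrary V)) = Ψ v
    rw [dif_pos hx]
    exact (h _ _).2 hx.choose_spec
  refine ⟨{ toFun := f, invFun := k, source := range Ψ, target := range g,
            map_source' := ?_, map_target' := ?_, left_inv' := ?_, right_inv' := ?_,
            open_source := oΨ.isOpen_range, open_target := og.isOpen_range,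
            continuousOn_toFun := ?_, continuousOn_invFun := ?_ }, rfl⟩
  · rintro x ⟨v, rfl⟩
    rw [hf]
    exact mem_range_self v
  · rintro b ⟨v, rfl⟩
    rw [hk]
    exact mem_range_self v
  · rintro x ⟨v, rfl⟩
    rw [hf, hk]
  · rintro b ⟨v, rfl⟩
    rw [hk, hf]
  · rw [continuousOn_open_iff oΨ.isOpen_range]
    intro t ht
    have h1 : range Ψ ∩ f ⁻¹' t = Ψ '' (g ⁻¹' t) := by
      ext x
      constructor
      · rintro ⟨⟨v, rfl⟩, h2⟩
        rw [mem_preimage, hf] at h2
        exact ⟨v, h2, rfl⟩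
      · rintro ⟨v, h2, rfl⟩
        refine ⟨mem_range_self v, ?_⟩
        rw [mem_preimage, hf]
        exact h2
    rw [h1]
    exact oΨ _ (ht.preimage hg)
  · rw [continuousOn_open_iff og.isOpen_range]
    intro t ht
    have h1 : range g ∩ k ⁻¹' t = g '' (Ψ ⁻¹' t) := by
      ext x
      constructor
      · rintro ⟨⟨v, rfl⟩, h2⟩
        rw [mem_preimage, hk] at h2
        exact ⟨v, h2, rfl⟩
      · rintro ⟨v, h2, rfl⟩
        refine ⟨mem_range_self v, ?_⟩
        rw [mem_preimage, hk]
        exact h2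
    rw [h1]
    exact og _ (ht.preimage hΨ)

end Pool.Agent.H.MP_1611f1_gt.PB.Mo
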