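import Pool.Agent.H.MP_1611f1_gt.PB.Mo.Space
import Pool.Agent.H.MP_1611f1_gt.PB.Mo.TopA
import Pool.Agent.H.MP_1611f1_gt.PB.Mo.PolyC

/-!
MODEL OF THE FIBRE SURFACE: the surface is flat.
-/

namespace Pool.Agent.H.MP_1611f1_gt.PB.Mo

open Complex Set Topology

noncomputable section

variable {c L : ℕ} {I : Type} [Fact (3 ≤ c)] (K : Comb c L I)
variable [TopologicalSpace I] [DiscreteTopology I]

/-- rotation by `π` about the midpoint of the side `m` -/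
def FlatA_rho (c : ℕ) (m : ℤ) (w : ℂ) : ℂ := 2 * (ca c : ℂ) * W c (2 * m) - w

theorem FlatA_rho_rho (c : ℕ) (m : ℤ) (w : ℂ) : FlatA_rho c m (FlatA_rho c m w) = w := by
  unfold FlatA_rho
  ring

theorem FlatA_rho_cont (c : ℕ) (m : ℤ) : Continuous (FlatA_rho c m) := by
  unfold FlatA_rho
  fun_prop

theorem FlatA_R_rho (c : ℕ) (m : ℤ) (w : ℂ) :
    R c (2 * m) (FlatA_rho c m w) = 2 * ca c - R c (2 * m) w := R_refl c m w

/-- the symmetric neighbourhood of the side `m` -/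
def FlatA_V (c : ℕ) (m : ℤ) : Set ℂ :=
  {w | ((∀ l : ℤ, ¬ (c : ℤ) ∣ l - m → R c (2 * l) w < ca c) ∧ ∀ l : ℤ, R c (2 * l - 1) w < 1) ∧
    ((∀ l : ℤ, ¬ (c : ℤ) ∣ l - m → R c (2 * l) (FlatA_rho c m w) < ca c) ∧
      ∀ l : ℤ, R c (2 * l - 1) (FlatA_rho c m w) < 1)}

omit [Fact (3 ≤ c)] in
theorem FlatA_open (hc : 3 ≤ c) (m : ℤ) : IsOpen (FlatA_V c m) :=
  (isOpen_below hc m).inter ((isOpen_below hc m).preimage (FlatA_rho_cont c m))

omit [Fact (3 ≤ c)] in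
theorem FlatA_V_rho {m : ℤ} {w : ℂ} (h : w ∈ FlatA_V c m) : FlatA_rho c m w ∈ FlatA_V c m := by
  refine ⟨h.2, ?_⟩
  rw [FlatA_rho_rho]
  exact h.1

omit [Fact (3 ≤ c)] in
theorem FlatA_mem_Pg (hc : 3 ≤ c) {m : ℤ} {w : ℂ} (h : w ∈ FlatA_V c m)
    (hR : R c (2 * m) w ≤ ca c) : w ∈ Pg c := by
  refine ⟨fun l => ?_, h.1.2⟩
  by_cases hl : (c : ℤ) ∣ l - m
  · have h1 : R c (2 * l) w = R c (2 * m) w := by
      refine R_per (by omega) ?_ w
      rw [← mul_sub]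
      exact mul_dvd_mul_left 2 hl
    rw [h1]
    exact hR
  · exact (h.1.1 l hl).le

omit [Fact (3 ≤ c)] in
theorem FlatA_mem_or (hc : 3 ≤ c) {m : ℤ} {w : ℂ} (h : w ∈ FlatA_V c m) :
    w ∈ Pg c ∨ FlatA_rho c m w ∈ Pg c := by
  rcases le_total (R c (2 * m) w) (ca c) with h1 | h1
  · exact Or.inl (FlatA_mem_Pg hc h h1)
  · refine Or.inr (FlatA_mem_Pg hc (FlatA_V_rho h) ?_)
    rw [FlatA_R_rho]
    linarith

omit [Fact (3 ≤ c)] in
theorem FlatA_dvd {l m : ℤ} {w : ℂ} (h : w ∈ FlatA_V c m) (hl : R c (2 * l) w = ca c) :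
    (c : ℤ) ∣ l - m := by
  by_contra h1
  exact absurd hl (h.1.1 l h1).ne

omit [Fact (3 ≤ c)] in
theorem FlatA_mem_V (hc : 3 ≤ c) {z : ℂ} (hz : z ∈ Pg c) {m : ℤ} (hm : R c (2 * m) z = ca c) :
    z ∈ FlatA_V c m := by
  have key : ∀ w ∈ Pg c, R c (2 * m) w = ca c →
      (∀ l : ℤ, ¬ (c : ℤ) ∣ l - m → R c (2 * l) w < ca c) ∧ ∀ l : ℤ, R c (2 * l - 1) w < 1 := by
    intro w hw hR
    refine ⟨fun l hl => lt_of_le_of_ne (hw.1 l) fun h => hl ?_, hw.2⟩
    exact side_unique hc hw h hR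
  refine ⟨key z hz hm, key _ (refl_mem hc hz hm) ?_⟩
  have h1 := FlatA_R_rho c m z
  rw [hm] at h1
  show R c (2 * m) (FlatA_rho c m z) = ca c
  rw [h1]
  ring

omit [TopologicalSpace I] [DiscreteTopology I] in
/-- the gluing of the two halves -/
theorem FlatA_psi (i : I) (m : ℤ) : ∃ Ψ : FlatA_V c m → Sf K, ∀ w : FlatA_V c m,
    (∀ h : (w : ℂ) ∈ Pg c, Ψ w = pt K i w h) ∧
    ∀ h : FlatA_rho c m w ∈ Pg c, Ψ w = pt K (K.σ m i) (FlatA_rho c m w) h := by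
  have hc : 3 ≤ c := Fact.out
  have key : ∀ w : FlatA_V c m, ∃ s : Sf K, (∀ h : (w : ℂ) ∈ Pg c, s = pt K i w h) ∧
      ∀ h : FlatA_rho c m w ∈ Pg c, s = pt K (K.σ m i) (FlatA_rho c m w) h := by
    rintro ⟨w, hw⟩
    by_cases h1 : w ∈ Pg c
    · refine ⟨pt K i w h1, fun _ => rfl, fun h2 => ?_⟩
      have h3 : R c (2 * m) w = ca c := by
        have h4 := h1.1 m
        have h5 := h2.1 m
        have h6 : R c (2 * m) (FlatA_rho c m w) = 2 * ca c - R c (2 * m) w := FlatA_R_rho c m w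
        change R c (2 * m) (FlatA_rho c m w) ≤ ca c at h5
        linarith
      exact pt_glue K h1 h3
    · have h2 := (FlatA_mem_or hc hw).resolve_left h1
      exact ⟨pt K (K.σ m i) (FlatA_rho c m w) h2, fun h => absurd h h1, fun _ => rfl⟩
  choose Ψ hΨ using key
  exact ⟨Ψ, hΨ⟩

omit [TopologicalSpace I] [DiscreteTopology I] in
/-- the points of the polygons in the image -/
theorem FlatA_iff {i : I} {m : ℤ} {Ψ : FlatA_V c m → Sf K} (hΨ : ∀ w : FlatA_V c m,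
    (∀ h : (w : ℂ) ∈ Pg c, Ψ w = pt K i w h) ∧
    ∀ h : FlatA_rho c m w ∈ Pg c, Ψ w = pt K (K.σ m i) (FlatA_rho c m w) h)
    (w : FlatA_V c m) (j : I) {z : ℂ} (hz : z ∈ Pg c) :
    pt K j z hz = Ψ w ↔ (j = i ∧ z = w) ∨ (j = K.σ m i ∧ z = FlatA_rho c m w) := by
  have hc : 3 ≤ c := Fact.out
  have hW : ∀ {l : ℤ}, (c : ℤ) ∣ l - m → W c (2 * l) = W c (2 * m) := by
    intro l hl
    refine W_per (by omega) ?_
    rw [← mul_sub]
    exact mul_dvd_mul_left 2 hl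
  constructor
  · intro h
    by_cases h1 : (w : ℂ) ∈ Pg c
    · rw [(hΨ w).1 h1, eq_comm, pt_eq_iff K h1 hz] at h
      rcases h with ⟨h2, h3⟩ | ⟨l, h2, h3, h4⟩
      · exact Or.inl ⟨h2.symm, h3.symm⟩
      · have h5 := FlatA_dvd w.2 h2
        refine Or.inr ⟨?_, ?_⟩
        · rw [h3, K.σ_congr h5]
        · rw [h4, hW h5]
          rfl
    · have h2 := (FlatA_mem_or hc w.2).resolve_left h1
      rw [(hΨ w).2 h2, eq_comm, pt_eq_iff K h2 hz] at h
      rcases h with ⟨h3, h4⟩ | ⟨l, h3, h4, h5⟩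
      · exact Or.inr ⟨h3.symm, h4.symm⟩
      · have h6 := FlatA_dvd (FlatA_V_rho w.2) h3
        refine Or.inl ⟨?_, ?_⟩
        · rw [h4, K.σ_congr h6, K.inv]
        · rw [h5, hW h6]
          exact FlatA_rho_rho c m w
  · rintro (⟨rfl, rfl⟩ | ⟨rfl, rfl⟩)
    · exact ((hΨ w).1 hz).symm
    · exact ((hΨ w).2 hz).symm

omit [TopologicalSpace I] [DiscreteTopology I] in
/-- the fibres -/
theorem FlatA_fib {i : I} {m : ℤ} {Ψ : FlatA_V c m → Sf K} (hΨ : ∀ w : FlatA_V c m,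
    (∀ h : (w : ℂ) ∈ Pg c, Ψ w = pt K i w h) ∧
    ∀ h : FlatA_rho c m w ∈ Pg c, Ψ w = pt K (K.σ m i) (FlatA_rho c m w) h)
    (v w : FlatA_V c m) :
    Ψ v = Ψ w ↔ (v : ℂ) = w ∨ (K.σ m i = i ∧ (v : ℂ) = FlatA_rho c m w) := by
  have hc : 3 ≤ c := Fact.out
  by_cases h1 : (v : ℂ) ∈ Pg c
  · rw [(hΨ v).1 h1, FlatA_iff K hΨ w i h1]
    constructor
    · rintro (⟨_, h⟩ | ⟨h2, h⟩)
      · exact Or.inl h
      · exact Or.inr ⟨h2.symm, h⟩
    · rintro (h | ⟨h2, h⟩)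
      · exact Or.inl ⟨rfl, h⟩
      · exact Or.inr ⟨h2.symm, h⟩
  · have h2 := (FlatA_mem_or hc v.2).resolve_left h1
    rw [(hΨ v).2 h2, FlatA_iff K hΨ w _ h2]
    constructor
    · rintro (⟨h3, h⟩ | ⟨_, h⟩)
      · refine Or.inr ⟨h3, ?_⟩
        rw [← h, FlatA_rho_rho]
      · refine Or.inl ?_
        rw [← FlatA_rho_rho c m v, h, FlatA_rho_rho]
    · rintro (h | ⟨h3, h⟩)
      · exact Or.inr ⟨rfl, by rw [h]⟩
      · exact Or.inl ⟨h3, by rw [h, FlatA_rho_rho]⟩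

theorem FlatA_cont {i : I} {m : ℤ} {Ψ : FlatA_V c m → Sf K} (hΨ : ∀ w : FlatA_V c m,
    (∀ h : (w : ℂ) ∈ Pg c, Ψ w = pt K i w h) ∧
    ∀ h : FlatA_rho c m w ∈ Pg c, Ψ w = pt K (K.σ m i) (FlatA_rho c m w) h) :
    Continuous Ψ := by
  have hc : 3 ≤ c := Fact.out
  have hR : Continuous fun w : FlatA_V c m => R c (2 * m) w :=
    (continuous_R c (2 * m)).comp continuous_subtype_val
  have c1 : IsClosed {w : FlatA_V c m | R c (2 * m) w ≤ ca c} := isClosed_le hR continuous_const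
  have c2 : IsClosed {w : FlatA_V c m | ca c ≤ R c (2 * m) w} := isClosed_le continuous_const hR
  have h1 : ContinuousOn Ψ {w : FlatA_V c m | R c (2 * m) w ≤ ca c} := by
    rw [continuousOn_iff_continuous_domRestrict]
    have hm : ∀ w : {w : FlatA_V c m | R c (2 * m) w ≤ ca c}, ((w : FlatA_V c m) : ℂ) ∈ Pg c :=
      fun w => FlatA_mem_Pg hc w.1.2 w.2
    have h2 : Continuous fun w : {w : FlatA_V c m | R c (2 * m) w ≤ ca c} =>
        (⟨((w : FlatA_V c m) : ℂ), hm w⟩ : Pg c) :=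
      (continuous_subtype_val.comp continuous_subtype_val).subtype_mk _
    have h3 := (continuous_pt K i).comp h2
    refine h3.congr fun w => ?_
    exact ((hΨ w.1).1 (hm w)).symm
  have h2 : ContinuousOn Ψ {w : FlatA_V c m | ca c ≤ R c (2 * m) w} := by
    rw [continuousOn_iff_continuous_domRestrict]
    have hm : ∀ w : {w : FlatA_V c m | ca c ≤ R c (2 * m) w},
        FlatA_rho c m ((w : FlatA_V c m) : ℂ) ∈ Pg c := by
      intro w
      refine FlatA_mem_Pg hc (FlatA_V_rho w.1.2) ?_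
      have h3 : ca c ≤ R c (2 * m) ((w : FlatA_V c m) : ℂ) := w.2
      rw [FlatA_R_rho]
      linarith
    have h3 : Continuous fun w : {w : FlatA_V c m | ca c ≤ R c (2 * m) w} =>
        (⟨FlatA_rho c m ((w : FlatA_V c m) : ℂ), hm w⟩ : Pg c) :=
      ((FlatA_rho_cont c m).comp (continuous_subtype_val.comp continuous_subtype_val)).subtype_mk _
    have h4 := (continuous_pt K (K.σ m i)).comp h3
    refine h4.congr fun w => ?_
    exact ((hΨ w.1).2 (hm w)).symm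
  have h3 := h1.union_of_isClosed h2 c1 c2
  have h4 : {w : FlatA_V c m | R c (2 * m) w ≤ ca c} ∪ {w : FlatA_V c m | ca c ≤ R c (2 * m) w} =
      Set.univ := by
    ext w
    refine ⟨fun _ => Set.mem_univ _, fun _ => ?_⟩
    rcases le_total (R c (2 * m) w) (ca c) with h | h
    · exact Or.inl h
    · exact Or.inr h
  rw [h4, continuousOn_univ] at h3
  exact h3

theorem FlatA_openMap {i : I} {m : ℤ} {Ψ : FlatA_V c m → Sf K} (hΨ : ∀ w : FlatA_V c m,
    (∀ h : (w : ℂ) ∈ Pg c, Ψ w = pt K i w h) ∧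
    ∀ h : FlatA_rho c m w ∈ Pg c, Ψ w = pt K (K.σ m i) (FlatA_rho c m w) h) :
    IsOpenMap Ψ := by
  have hc : 3 ≤ c := Fact.out
  intro O hO
  rw [isOpen_iff_pt K]
  intro j
  have hO' : IsOpen (Subtype.val '' O : Set ℂ) := (FlatA_open hc m).isOpenMap_subtype_val O hO
  have e : {z : Pg c | pt K j z z.2 ∈ Ψ '' O} =
      ({z : Pg c | j = i} ∩ (fun z : Pg c => (z : ℂ)) ⁻¹' (Subtype.val '' O)) ∪
      ({z : Pg c | j = K.σ m i} ∩ (fun z : Pg c => FlatA_rho c m z) ⁻¹' (Subtype.val '' O)) := by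
    ext z
    constructor
    · rintro ⟨w, hw, h⟩
      rcases (FlatA_iff K hΨ w j z.2).1 h.symm with ⟨h1, h2⟩ | ⟨h1, h2⟩
      · exact Or.inl ⟨h1, w, hw, h2.symm⟩
      · refine Or.inr ⟨h1, w, hw, ?_⟩
        show (w : ℂ) = FlatA_rho c m z
        rw [h2, FlatA_rho_rho]
    · rintro (⟨h1, w, hw, h2⟩ | ⟨h1, w, hw, h2⟩)
      · exact ⟨w, hw, ((FlatA_iff K hΨ w j z.2).2 (Or.inl ⟨h1, h2.symm⟩)).symm⟩
      · refine ⟨w, hw, ((FlatA_iff K hΨ w j z.2).2 (Or.inr ⟨h1, ?_⟩)).symm⟩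
        rw [h2]
        exact (FlatA_rho_rho c m z).symm
  rw [e]
  refine (isOpen_const.inter (hO'.preimage continuous_subtype_val)).union
    (isOpen_const.inter (hO'.preimage ((FlatA_rho_cont c m).comp continuous_subtype_val)))

/-- Charts around the points of the sides. PROOF: `V = {w | both w and w' = 2 ca W (2 m) - w satisfy the
strict inequalities of the directions not ≡ 2 m}` (open, `isOpen_below`), `Ψ w = pt i w` if
`R (2 m) w ≤ ca`, and `pt (σ m i) w'` otherwise (i.e. `R (2 m) w ≥ ca`); it is continuous (two closed pieces, they agree on the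
side by `pt_glue`) and open: for `O ⊆ V` open the preimage of `Ψ '' O` in the polygon `j` is
`{z | (j = i ∧ z ∈ O) ∨ (j = σ m i ∧ z' ∈ O)}` (`isOpen_iff_pt`). If `σ m i ≠ i`, `Ψ` is
injective, take `g w = w`; if `σ m i = i` then `Ψ w = Ψ w' ↔ w' = w ∨ w' = 2 ca W (2 m) - w`, take
`g w = (w - ca W (2 m)) ^ 2` (open: `isOpenQuotientMap_pow`). `exists_chart_of_pair`, and `ℂ ≃ₜ ℝ × ℝ`
(`Complex.equivRealProdCLM`). -/
theorem flat_side (i : I) {z : ℂ} (hz : z ∈ Pg c) {m : ℤ} (hm : R c (2 * m) z = ca c) :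
    ∃ e : OpenPartialHomeomorph (Sf K) (ℝ × ℝ), pt K i z hz ∈ e.source := by
  have hc : 3 ≤ c := Fact.out
  obtain ⟨Ψ, hΨ⟩ := FlatA_psi K i m
  have hzV : z ∈ FlatA_V c m := FlatA_mem_V hc hz hm
  have : Nonempty (FlatA_V c m) := ⟨⟨z, hzV⟩⟩
  have hcont := FlatA_cont K hΨ
  have hopen := FlatA_openMap K hΨ
  have hfib := FlatA_fib K hΨ
  have hval : IsOpenMap fun w : FlatA_V c m => (w : ℂ) := (FlatA_open hc m).isOpenMap_subtype_val
  have hE : IsOpenMap fun b : ℂ => Complex.equivRealProdCLM b :=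
    Complex.equivRealProdCLM.toHomeomorph.isOpenMap
  have hEc : Continuous fun b : ℂ => Complex.equivRealProdCLM b :=
    Complex.equivRealProdCLM.continuous
  have hEi : ∀ a b : ℂ, Complex.equivRealProdCLM a = Complex.equivRealProdCLM b ↔ a = b :=
    fun a b => Complex.equivRealProdCLM.injective.eq_iff
  have hmem : pt K i z hz ∈ Set.range Ψ := ⟨⟨z, hzV⟩, (hΨ ⟨z, hzV⟩).1 hz⟩
  by_cases hσ : K.σ m i = i
  · have h1 : IsOpenMap fun w : FlatA_V c m => ((w : ℂ) - (ca c : ℂ) * W c (2 * m)) ^ 2 := by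
      have h2 : IsOpenMap fun b : ℂ => b - (ca c : ℂ) * W c (2 * m) :=
        (Homeomorph.subRight ((ca c : ℂ) * W c (2 * m))).isOpenMap
      exact (isOpenQuotientMap_pow 2).isOpenMap.comp (h2.comp hval)
    have h1c : Continuous fun w : FlatA_V c m => ((w : ℂ) - (ca c : ℂ) * W c (2 * m)) ^ 2 := by
      fun_prop
    obtain ⟨e, he⟩ := exists_chart_of_pair Ψ
      (fun w : FlatA_V c m => Complex.equivRealProdCLM (((w : ℂ) - (ca c : ℂ) * W c (2 * m)) ^ 2))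
      hcont (hEc.comp h1c) hopen (hE.comp h1) (fun v w => by
        rw [hfib, hEi, sq_eq_sq_iff_eq_or_eq_neg]
        refine or_congr ?_ ?_
        · exact ⟨fun h => by rw [h], fun h => by linear_combination h⟩
        · unfold FlatA_rho
          exact ⟨fun h => by linear_combination h.2, fun h => ⟨hσ, by linear_combination h⟩⟩)
    exact ⟨e, by rw [he]; exact hmem⟩
  · obtain ⟨e, he⟩ := exists_chart_of_pair Ψ
      (fun w : FlatA_V c m => Complex.equivRealProdCLM (w : ℂ))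
      hcont (hEc.comp continuous_subtype_val) hopen (hE.comp hval) (fun v w => by
        rw [hfib, hEi]
        exact ⟨fun h => h.resolve_right fun h2 => hσ h2.1, Or.inl⟩)
    exact ⟨e, by rw [he]; exact hmem⟩

end

end Pool.Agent.H.MP_1611f1_gt.PB.Mo
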