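import Pool.Agent.H.MP_1611f1_gt.PB.Mo.FlatA

/-!
MODEL OF THE FIBRE SURFACE: the surface is flat.
-/

namespace Pool.Agent.H.MP_1611f1_gt.PB.Mo

open Complex Set Topology

noncomputable section

variable {c L : ℕ} {I : Type} [Fact (3 ≤ c)] (K : Comb c L I)
variable [TopologicalSpace I] [DiscreteTopology I]

theorem flatB_zero_mem (hc : 3 ≤ c) : (0 : ℂ) ∈ Pg c := by
  refine ⟨fun m => ?_, fun m => ?_⟩
  · rw [Trig_R]; simp; exact (ca_pos hc).le
  · rw [Trig_R]; simp

theorem flatB_mid_mem (hc : 3 ≤ c) (t : ℤ) : (ca c : ℂ) * W c (2 * t) ∈ Pg c := by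
  have h0 := ca_pos hc
  have h1 := ca_lt_one hc
  refine ⟨fun m => ?_, fun m => ?_⟩
  · rw [R_smul, R_W]
    have := Real.cos_le_one (Real.pi * (((2 * t : ℤ) : ℝ) - ((2 * m : ℤ) : ℝ)) / c)
    nlinarith
  · rw [R_smul, R_W]
    have := Real.cos_le_one (Real.pi * (((2 * t : ℤ) : ℝ) - ((2 * m - 1 : ℤ) : ℝ)) / c)
    nlinarith

theorem flatB_mid_side (t : ℤ) : R c (2 * t) ((ca c : ℂ) * W c (2 * t)) = ca c := by
  rw [R_smul, R_W, sub_self, mul_zero, zero_div, Real.cos_zero, mul_one]

/-- Charts around the interior points: `Ψ = pt i` on the open polygon. -/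
theorem flat_int (i : I) {z : ℂ} (hz : z ∈ Pg c) (hin : ∀ m : ℤ, R c (2 * m) z ≠ ca c) :
    ∃ e : OpenPartialHomeomorph (Sf K) (ℝ × ℝ), pt K i z hz ∈ e.source := by
  have hc : 3 ≤ c := Fact.out
  set V : Set ℂ := {z : ℂ | ∀ m : ℤ, R c (2 * m) z < ca c ∧ R c (2 * m - 1) z < 1} with hV
  have hVo : IsOpen V := isOpen_int hc
  have hVP : ∀ w ∈ V, w ∈ Pg c := fun w hw => ⟨fun m => (hw m).1.le, fun m => (hw m).2⟩
  have hzV : z ∈ V := fun m => ⟨lt_of_le_of_ne (hz.1 m) (hin m), hz.2 m⟩
  let Ψ : V → Sf K := fun w => pt K i w.1 (hVP w.1 w.2)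
  let g : V → ℝ × ℝ := fun w => Complex.equivRealProdCLM w.1
  have hΨc : Continuous Ψ := by
    have h := continuous_pt K i
    exact h.comp (f := fun w : V => (⟨w.1, hVP w.1 w.2⟩ : Pg c))
      (Continuous.subtype_mk continuous_subtype_val _)
  have hgc : Continuous g := Complex.equivRealProdCLM.continuous.comp continuous_subtype_val
  have hpt : ∀ (w : V) (j : I) (x : ℂ) (hx : x ∈ Pg c), Ψ w = pt K j x hx ↔ i = j ∧ w.1 = x := by
    intro w j x hx
    show pt K i w.1 _ = pt K j x hx ↔ _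
    rw [pt_eq_iff]
    constructor
    · rintro (h | ⟨m, hm, -⟩)
      · exact h
      · exact absurd hm (w.2 m).1.ne
    · exact fun h => Or.inl h
  have hΨo : IsOpenMap Ψ := by
    intro O hO
    rw [isOpen_iff_pt]
    intro j
    have hO' : IsOpen (Subtype.val '' O : Set ℂ) := hVo.isOpenMap_subtype_val O hO
    by_cases hj : i = j
    · have e : {x : Pg c | pt K j x x.2 ∈ Ψ '' O} = Subtype.val ⁻¹' (Subtype.val '' O : Set ℂ) := by
        ext x
        simp only [Set.mem_ofPred_eq, mem_image, mem_preimage]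
        constructor
        · rintro ⟨w, hw, h⟩
          exact ⟨w, hw, ((hpt w j x x.2).1 h).2⟩
        · rintro ⟨w, hw, h⟩
          exact ⟨w, hw, (hpt w j x x.2).2 ⟨hj, h⟩⟩
      rw [e]
      exact hO'.preimage continuous_subtype_val
    · have e : {x : Pg c | pt K j x x.2 ∈ Ψ '' O} = ∅ := by
        ext x
        simp only [Set.mem_ofPred_eq, mem_image, mem_empty_iff_false, iff_false]
        rintro ⟨w, hw, h⟩
        exact hj ((hpt w j x x.2).1 h).1
      rw [e]
      exact isOpen_empty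
  have hgo : IsOpenMap g := Complex.equivRealProdCLM.toHomeomorph.isOpenMap.comp
    hVo.isOpenMap_subtype_val
  have : Nonempty V := ⟨⟨z, hzV⟩⟩
  obtain ⟨e, he⟩ := exists_chart_of_pair Ψ g hΨc hgc hΨo hgo (fun v w => by
    rw [show Ψ w = pt K i w.1 (hVP w.1 w.2) from rfl, hpt]
    show _ ↔ Complex.equivRealProdCLM v.1 = Complex.equivRealProdCLM w.1
    rw [Complex.equivRealProdCLM.injective.eq_iff]
    exact ⟨fun h => h.2, fun h => ⟨rfl, h⟩⟩)
  refine ⟨e, ?_⟩
  rw [he]
  exact ⟨⟨z, hzV⟩, rfl⟩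

theorem flat (x : Sf K) : ∃ e : OpenPartialHomeomorph (Sf K) (ℝ × ℝ), x ∈ e.source := by
  obtain ⟨i, z, hz, rfl⟩ := exists_pt K x
  by_cases h : ∀ m : ℤ, R c (2 * m) z ≠ ca c
  · exact flat_int K i hz h
  · push Not at h
    obtain ⟨m, hm⟩ := h
    exact flat_side K i hz hm

/-- The surface is connected: the polygons are connected (convex) and consecutive polygons `lv t`,
`lv (t + 1)` of the walk share the side `t`. -/
theorem connected : ConnectedSpace (Sf K) := by
  have hc : 3 ≤ c := Fact.out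
  have hP : PreconnectedSpace (Pg c) :=
    isPreconnected_iff_preconnectedSpace.1 (convex_Pg c).isPreconnected
  -- one polygon
  have hpre : ∀ (i : I) (z w : ℂ) (hz : z ∈ Pg c) (hw : w ∈ Pg c),
      pt K i w hw ∈ connectedComponent (pt K i z hz) := by
    intro i z w hz hw
    have h1 : IsPreconnected (range fun x : Pg c => pt K i x x.2) :=
      isPreconnected_range (continuous_pt K i)
    exact h1.subset_connectedComponent ⟨⟨z, hz⟩, rfl⟩ ⟨⟨w, hw⟩, rfl⟩
  -- consecutive polygons
  have hstep : ∀ t : ℤ, connectedComponent (pt K (K.lv (t + 1)) 0 (flatB_zero_mem hc)) =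
      connectedComponent (pt K (K.lv t) 0 (flatB_zero_mem hc)) := by
    intro t
    have hm := flatB_mid_mem hc t
    have hs := flatB_mid_side (c := c) t
    have h1 := hpre (K.lv t) 0 _ (flatB_zero_mem hc) hm
    have h2 := hpre (K.lv (t + 1)) 0 _ (flatB_zero_mem hc) hm
    have h3 : pt K (K.lv t) _ hm = pt K (K.lv (t + 1)) _ hm := by
      rw [pt_eq_iff]
      refine Or.inr ⟨t, hs, K.step t, ?_⟩
      ring
    rw [← h3] at h2
    exact (connectedComponent_eq h2).trans (connectedComponent_eq h1).symm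
  have hall : ∀ t : ℤ, connectedComponent (pt K (K.lv t) 0 (flatB_zero_mem hc)) =
      connectedComponent (pt K (K.lv 0) 0 (flatB_zero_mem hc)) := by
    intro t
    induction t using Int.induction_on with
    | zero => rfl
    | succ t ih => rw [hstep, ih]
    | pred t ih =>
      have h := hstep (-(t : ℤ) - 1)
      rw [sub_add_cancel] at h
      rw [← h, ih]
  have hcc : ∀ x : Sf K, connectedComponent x =
      connectedComponent (pt K (K.lv 0) 0 (flatB_zero_mem hc)) := by
    intro x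
    obtain ⟨i, z, hz, rfl⟩ := exists_pt K x
    obtain ⟨t, ht, -⟩ := K.onto i 0
    rw [← hall t, ht]
    exact connectedComponent_eq (hpre i z 0 hz (flatB_zero_mem hc))
  have hpc : PreconnectedSpace (Sf K) := by
    rw [preconnectedSpace_iff_connectedComponent]
    intro x
    rw [eq_univ_iff_forall]
    intro y
    rw [hcc x, ← hcc y]
    exact mem_connectedComponent
  exact { toPreconnectedSpace := hpc
          toNonempty := ⟨pt K (K.lv 0) 0 (flatB_zero_mem hc)⟩ }

end

end Pool.Agent.H.MP_1611f1_gt.PB.Mo
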