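import Pool.Agent.H.MP_1611f1_gt.PB.Mo.TrigB

/-!
MODEL OF THE FIBRE SURFACE: sectors of the sides and kites of the vertices.
-/

namespace Pool.Agent.H.MP_1611f1_gt.PB.Mo

open Complex Set

noncomputable section

variable {c : ℕ}

/-- The open sector of the side `l`. -/
def Sec (c : ℕ) (l : ℤ) (z : ℂ) : Prop := ca c * |J c (2 * l) z| < sa c * R c (2 * l) z

/-- The kite of the vertex `m`. -/
def Kite (c : ℕ) (m : ℤ) (z : ℂ) : Prop :=
  J c (2 * m) z ≤ 0 ∧ 0 ≤ J c (2 * m - 2) z ∧ 0 ≤ R c (2 * m - 1) z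

theorem PolyB_W1 (c : ℕ) : W c 1 = (ca c : ℂ) + (sa c : ℂ) * Complex.I := by
  unfold W ca sa
  have h1 : ((Real.pi * ((1 : ℤ) : ℝ) / c : ℝ) : ℂ) = ((Real.pi / c : ℝ) : ℂ) := by
    congr 1
    simp
  rw [h1, Complex.exp_mul_I, ← Complex.ofReal_cos, ← Complex.ofReal_sin]

theorem PolyB_JW (c : ℕ) (j : ℤ) : J c j (W c j) = 0 := by
  rw [J_W]
  simp

theorem PolyB_RW (c : ℕ) (j : ℤ) : R c j (W c j) = 1 := by
  rw [R_W]
  simp

/-- the decomposition with respect to the directions `i` and `i + 2` -/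
theorem PolyB_dec (c : ℕ) (i : ℤ) (z : ℂ) : ((2 * ca c * sa c : ℝ) : ℂ) * z =
    ((-J c (i + 2) z : ℝ) : ℂ) * W c i + ((J c i z : ℝ) : ℂ) * W c (i + 2) := by
  have hz := fr_R_J c (i + 1) z
  have h2 : J c (i + 2) z = ca c * J c (i + 1) z - sa c * R c (i + 1) z := by
    have := J_succ c (i + 1) z
    have e : i + 1 + 1 = i + 2 := by ring
    rwa [e] at this
  have h0 : J c i z = ca c * J c (i + 1) z + sa c * R c (i + 1) z := by
    have := J_pred c (i + 1) z
    have e : i + 1 - 1 = i := by ring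
    rwa [e] at this
  have w1 : W c (i + 1) = W c i * ((ca c : ℂ) + (sa c : ℂ) * Complex.I) := by
    rw [W_add, PolyB_W1]
  have w2 : W c (i + 2) = W c i * ((ca c : ℂ) + (sa c : ℂ) * Complex.I) ^ 2 := by
    have e : i + 2 = (i + 1) + 1 := by ring
    rw [e, W_add, w1, PolyB_W1]
    ring
  have h1 : ((ca c : ℂ)) ^ 2 + (sa c : ℂ) ^ 2 = 1 := by
    have := ca_sq_add c
    exact_mod_cast this
  have hI : Complex.I ^ 2 = -1 := Complex.I_sq
  rw [h2, h0, w2]
  unfold fr at hz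
  rw [w1] at hz
  generalize R c (i + 1) z = r at *
  generalize J c (i + 1) z = t at *
  rw [← hz]
  push_cast
  linear_combination (W c i * ((sa c : ℂ) * r - ca c * t)) * h1 +
    (W c i * ((ca c : ℂ) * (sa c : ℂ) ^ 2 * t - (sa c : ℂ) ^ 3 * r)) * hI

theorem PolyB_J (c : ℕ) (i k : ℤ) (z : ℂ) : 2 * ca c * sa c * J c k z =
    -J c (i + 2) z * Real.sin (Real.pi * (i - k) / c) +
      J c i z * Real.sin (Real.pi * ((i + 2 : ℤ) - k) / c) := by
  have h := congrArg (J c k) (PolyB_dec c i z)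
  rw [J_smul, J_add, J_smul, J_smul, J_W, J_W] at h
  exact h

theorem PolyB_sin_nonneg (hc : 3 ≤ c) {n : ℤ} (h0 : 0 ≤ n) (h1 : n ≤ c) {x : ℝ} (hx : x = n) :
    0 ≤ Real.sin (Real.pi * x / c) := by
  have hc0 : (0 : ℝ) < c := by
    have : 0 < c := by omega
    exact_mod_cast this
  have h0' : (0 : ℝ) ≤ n := by exact_mod_cast h0
  have h1' : (n : ℝ) ≤ c := by exact_mod_cast h1
  subst hx
  apply Real.sin_nonneg_of_nonneg_of_le_pi
  · have := Real.pi_pos
    positivity
  · rw [div_le_iff₀ hc0]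
    exact mul_le_mul_of_nonneg_left h1' Real.pi_pos.le

theorem PolyB_sin_nonpos (hc : 3 ≤ c) {n : ℤ} (h0 : (c : ℤ) ≤ n) (h1 : n ≤ 2 * c) {x : ℝ}
    (hx : x = n) : Real.sin (Real.pi * x / c) ≤ 0 := by
  have hc0 : (0 : ℝ) < c := by
    have : 0 < c := by omega
    exact_mod_cast this
  have h2 := PolyB_sin_nonneg (c := c) hc (n := n - c) (by omega) (by omega)
    (x := x - c) (by rw [hx]; push_cast; ring)
  have h3 : Real.pi * (x - c) / c = Real.pi * x / c - Real.pi := by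
    field_simp
  rw [h3, Real.sin_sub_pi] at h2
  linarith

/-- PROOF: `exists_cone`. -/
theorem exists_kite (hc : 3 ≤ c) (z : ℂ) : ∃ m : ℤ, Kite c m z := by
  obtain ⟨j, x, y, hx, hy, hz⟩ := exists_cone hc z
  have h1 := ca_pos hc
  have h2 := sa_pos hc
  have a0 := PolyB_JW c j
  have a1 := PolyB_RW c j
  have b0 := PolyB_JW c (j + 1)
  have b1 := PolyB_RW c (j + 1)
  have hxc : 0 ≤ x * (sa c * ca c) := by positivity
  have hyc : 0 ≤ y * (sa c * ca c) := by positivity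
  have hxs : 0 ≤ x * sa c := by positivity
  have hys : 0 ≤ y * sa c := by positivity
  have hxa : 0 ≤ x * ca c := by positivity
  have hya : 0 ≤ y * ca c := by positivity
  rcases Int.even_or_odd' j with ⟨k, hk | hk⟩
  · -- `j = 2 m - 2`
    refine ⟨k + 1, ?_, ?_, ?_⟩
    · have e1 : 2 * (k + 1) = j + 1 + 1 := by omega
      rw [e1, hz, J_add, J_smul, J_smul, J_succ, J_succ, R_succ, J_succ c (j + 1), a0, a1, b0, b1]
      nlinarith
    · have e1 : 2 * (k + 1) - 2 = j := by omega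
      have e2 : J c j (W c (j + 1)) = sa c := by
        have := J_pred c (j + 1) (W c (j + 1))
        rw [b0, b1, add_sub_cancel_right] at this
        rw [this]
        ring
      rw [e1, hz, J_add, J_smul, J_smul, a0, e2]
      linarith
    · have e1 : 2 * (k + 1) - 1 = j + 1 := by omega
      rw [e1, hz, R_add, R_smul, R_smul, R_succ, a0, a1, b1]
      nlinarith
  · -- `j = 2 m - 1`
    refine ⟨k + 1, ?_, ?_, ?_⟩
    · have e1 : 2 * (k + 1) = j + 1 := by omega
      rw [e1, hz, J_add, J_smul, J_smul, J_succ, a0, a1, b0]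
      nlinarith
    · have e1 : 2 * (k + 1) - 2 = j - 1 := by omega
      have e3 : J c j (W c (j + 1)) = sa c := by
        have := J_pred c (j + 1) (W c (j + 1))
        rw [b0, b1, add_sub_cancel_right] at this
        rw [this]
        ring
      have e4 : R c j (W c (j + 1)) = ca c := by
        have := R_pred c (j + 1) (W c (j + 1))
        rw [b0, b1, add_sub_cancel_right] at this
        rw [this]
        ring
      rw [e1, hz, J_add, J_smul, J_smul, J_pred, J_pred, a0, a1, e3, e4]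
      nlinarith
    · have e1 : 2 * (k + 1) - 1 = j := by omega
      have e4 : R c j (W c (j + 1)) = ca c := by
        have := R_pred c (j + 1) (W c (j + 1))
        rw [b0, b1, add_sub_cancel_right] at this
        rw [this]
        ring
      rw [e1, hz, R_add, R_smul, R_smul, a1, e4]
      nlinarith

/-- PROOF: `Sec l z` means `0 < J (2 l - 1) z` and `J (2 l + 1) z < 0`. -/
theorem sec_iff (hc : 3 ≤ c) (l : ℤ) (z : ℂ) :
    Sec c l z ↔ 0 < J c (2 * l - 1) z ∧ J c (2 * l + 1) z < 0 := by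
  have h1 := ca_pos hc
  unfold Sec
  rw [J_pred, J_succ]
  have h2 : ca c * |J c (2 * l) z| = |ca c * J c (2 * l) z| := by
    rw [abs_mul, abs_of_pos h1]
  rw [h2, abs_lt]
  constructor
  · rintro ⟨h3, h4⟩
    exact ⟨by linarith, by linarith⟩
  · rintro ⟨h3, h4⟩
    exact ⟨by linarith, by linarith⟩

/-- PROOF: write `z = fr (2 m - 1) x y`, `0 ≤ x`, `|y| ca ≤ x sa` hence `z` is a combination with
coefficients `≥ 0` of the directions `2 m - 2` and `2 m`; `sec_iff` and the signs of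
the sines `sin (π n / c)` (for `n = 2 m - 2 - (2 l ∓ 1)` and so on, modulo `2 c`) leave only
`l ≡ m, m - 1`. -/
theorem sec_kite (hc : 3 ≤ c) {z : ℂ} {l m : ℤ} (hl : Sec c l z) (hm : Kite c m z) :
    (c : ℤ) ∣ l - m ∨ (c : ℤ) ∣ l - (m - 1) := by
  obtain ⟨s1, s2⟩ := (sec_iff hc l z).1 hl
  obtain ⟨k1, k2, -⟩ := hm
  have h1 := ca_pos hc
  have h2 := sa_pos hc
  have hc0 : 0 < c := by omega
  have hpos : 0 < 2 * ca c * sa c := by positivity
  obtain ⟨n, hn⟩ : ∃ n, n = (m - l) % (c : ℤ) := ⟨_, rfl⟩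
  have hn0 : 0 ≤ n := by
    rw [hn]
    exact Int.emod_nonneg _ (by omega)
  have hn1 : n < c := by
    rw [hn]
    exact Int.emod_lt_of_pos _ (by omega)
  have hd : (c : ℤ) ∣ (m - l) - n := by
    rw [hn]
    exact Int.dvd_self_sub_emod
  have hd' : (2 * c : ℤ) ∣ 2 * ((m - l) - n) := mul_dvd_mul_left 2 hd
  -- replace `l` by `m - n`
  have p1 : J c (2 * l - 1) z = J c (2 * (m - n) - 1) z := by
    apply J_per hc0
    obtain ⟨q, hq⟩ := hd'
    exact ⟨-q, by linarith⟩
  have p2 : J c (2 * l + 1) z = J c (2 * (m - n) + 1) z := by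
    apply J_per hc0
    obtain ⟨q, hq⟩ := hd'
    exact ⟨-q, by linarith⟩
  rw [p1] at s1
  rw [p2] at s2
  have k1' : 0 ≤ -J c (2 * m - 2 + 2) z := by
    have e : 2 * m - 2 + 2 = 2 * m := by ring
    rw [e]
    linarith
  have d1 := PolyB_J c (2 * m - 2) (2 * (m - n) - 1) z
  have d2 := PolyB_J c (2 * m - 2) (2 * (m - n) + 1) z
  rcases le_or_gt 2 n with h3 | h3
  · exfalso
    rcases le_or_gt (c : ℤ) (2 * n - 1) with h4 | h4
    · have t1 := PolyB_sin_nonpos (c := c) hc (n := 2 * n - 1) h4 (by omega)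
        (x := ((2 * m - 2 : ℤ) : ℝ) - ((2 * (m - n) - 1 : ℤ) : ℝ)) (by push_cast; ring)
      have t2 := PolyB_sin_nonpos (c := c) hc (n := 2 * n + 1) (by omega) (by omega)
        (x := ((2 * m - 2 + 2 : ℤ) : ℝ) - ((2 * (m - n) - 1 : ℤ) : ℝ)) (by push_cast; ring)
      have t3 := mul_nonpos_of_nonneg_of_nonpos k1' t1
      have t4 := mul_nonpos_of_nonneg_of_nonpos k2 t2
      have t5 := mul_pos hpos s1
      linarith
    · have t1 := PolyB_sin_nonneg (c := c) hc (n := 2 * n - 3) (by omega) (by omega)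
        (x := ((2 * m - 2 : ℤ) : ℝ) - ((2 * (m - n) + 1 : ℤ) : ℝ)) (by push_cast; ring)
      have t2 := PolyB_sin_nonneg (c := c) hc (n := 2 * n - 1) (by omega) (by omega)
        (x := ((2 * m - 2 + 2 : ℤ) : ℝ) - ((2 * (m - n) + 1 : ℤ) : ℝ)) (by push_cast; ring)
      have t3 := mul_nonneg k1' t1
      have t4 := mul_nonneg k2 t2
      have t5 := mul_neg_of_pos_of_neg hpos s2
      linarith
  · obtain ⟨q, hq⟩ := hd
    have h5 : n = 0 ∨ n = 1 := by omega
    rcases h5 with h5 | h5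
    · left
      exact ⟨-q, by rw [h5] at hq; linarith⟩
    · right
      exact ⟨-q, by rw [h5] at hq; linarith⟩

/-- PROOF: `exists_cone` (or `exists_kite` and `sec_kite`, and the sign of `J (2 m - 1)`). -/
theorem sec_unique (hc : 3 ≤ c) {z : ℂ} {l m : ℤ} (hl : Sec c l z) (hm : Sec c m z) :
    (c : ℤ) ∣ l - m := by
  obtain ⟨s1, s2⟩ := (sec_iff hc l z).1 hl
  obtain ⟨k2, k1⟩ := (sec_iff hc m z).1 hm
  have h1 := ca_pos hc
  have h2 := sa_pos hc
  have hc0 : 0 < c := by omega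
  have hpos : 0 < 2 * ca c * sa c := by positivity
  obtain ⟨n, hn⟩ : ∃ n, n = (m - l) % (c : ℤ) := ⟨_, rfl⟩
  have hn0 : 0 ≤ n := by
    rw [hn]
    exact Int.emod_nonneg _ (by omega)
  have hn1 : n < c := by
    rw [hn]
    exact Int.emod_lt_of_pos _ (by omega)
  have hd : (c : ℤ) ∣ (m - l) - n := by
    rw [hn]
    exact Int.dvd_self_sub_emod
  have hd' : (2 * c : ℤ) ∣ 2 * ((m - l) - n) := mul_dvd_mul_left 2 hd
  have p1 : J c (2 * l - 1) z = J c (2 * (m - n) - 1) z := by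
    apply J_per hc0
    obtain ⟨q, hq⟩ := hd'
    exact ⟨-q, by linarith⟩
  have p2 : J c (2 * l + 1) z = J c (2 * (m - n) + 1) z := by
    apply J_per hc0
    obtain ⟨q, hq⟩ := hd'
    exact ⟨-q, by linarith⟩
  rw [p1] at s1
  rw [p2] at s2
  have k1' : 0 ≤ -J c (2 * m - 1 + 2) z := by
    have e : 2 * m - 1 + 2 = 2 * m + 1 := by ring
    rw [e]
    linarith
  have d1 := PolyB_J c (2 * m - 1) (2 * (m - n) - 1) z
  have d2 := PolyB_J c (2 * m - 1) (2 * (m - n) + 1) z
  rcases le_or_gt 1 n with h3 | h3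
  · exfalso
    rcases le_or_gt (c : ℤ) (2 * n) with h4 | h4
    · have t1 := PolyB_sin_nonpos (c := c) hc (n := 2 * n) h4 (by omega)
        (x := ((2 * m - 1 : ℤ) : ℝ) - ((2 * (m - n) - 1 : ℤ) : ℝ)) (by push_cast; ring)
      have t2 := PolyB_sin_nonpos (c := c) hc (n := 2 * n + 2) (by omega) (by omega)
        (x := ((2 * m - 1 + 2 : ℤ) : ℝ) - ((2 * (m - n) - 1 : ℤ) : ℝ)) (by push_cast; ring)
      have t3 := mul_nonpos_of_nonneg_of_nonpos k1' t1
      have t4 := mul_nonpos_of_nonneg_of_nonpos k2.le t2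
      have t5 := mul_pos hpos s1
      linarith
    · have t1 := PolyB_sin_nonneg (c := c) hc (n := 2 * n - 2) (by omega) (by omega)
        (x := ((2 * m - 1 : ℤ) : ℝ) - ((2 * (m - n) + 1 : ℤ) : ℝ)) (by push_cast; ring)
      have t2 := PolyB_sin_nonneg (c := c) hc (n := 2 * n) (by omega) (by omega)
        (x := ((2 * m - 1 + 2 : ℤ) : ℝ) - ((2 * (m - n) + 1 : ℤ) : ℝ)) (by push_cast; ring)
      have t3 := mul_nonneg k1' t1
      have t4 := mul_nonneg k2.le t2
      have t5 := mul_neg_of_pos_of_neg hpos s2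
      linarith
  · obtain ⟨q, hq⟩ := hd
    have h5 : n = 0 := by omega
    exact ⟨-q, by rw [h5] at hq; linarith⟩

end

end Pool.Agent.H.MP_1611f1_gt.PB.Mo
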