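import Pool.Agent.H.MP_1611f1_gt.PB.Mo.PolyA
import Pool.Agent.H.MP_1611f1_gt.PB.Mo.PolyB
import Pool.Agent.H.MP_1611f1_gt.PB.Mo.PolyC

/-!
MODEL OF THE FIBRE SURFACE: the profile of the strips around the sides.
-/

namespace Pool.Agent.H.MP_1611f1_gt.PB.Mo

open Complex Set

noncomputable section

variable {c : ℕ}

/-- the distance (in the direction of the nearer vertex) `1 - max (R (2 l - 1)) (R (2 l + 1))` -/
def dv (c : ℕ) (l : ℤ) (z : ℂ) : ℝ := 1 - ca c * R c (2 * l) z - sa c * |J c (2 * l) z|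

/-- The profile of the strip around the side `l`: `1/2` on the side `l`, and it decreases to `0` when
one leaves the side; near the vertices (`dv < sa² / 2`) it is constant along the rays. -/
def kp (c : ℕ) (l : ℤ) (z : ℂ) : ℝ :=
  1 / 2 * max 0 (1 - (ca c - R c (2 * l) z) / (ca c * dv c l z) *
    (1 + 3 / sa c ^ 2 * max 0 (dv c l z - sa c ^ 2 / 2)))

theorem kp_per (hc : 3 ≤ c) {l l' : ℤ} (h : (c : ℤ) ∣ l - l') (z : ℂ) : kp c l z = kp c l' z := by
  have hd : (2 * c : ℤ) ∣ 2 * l - 2 * l' := by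
    obtain ⟨k, hk⟩ := h
    exact ⟨k, by rw [mul_assoc, ← hk]; ring⟩
  have hc0 : 0 < c := by omega
  unfold kp dv
  rw [R_per hc0 hd, J_per hc0 hd]

theorem StripA_sa_nonneg (c : ℕ) : 0 ≤ sa c := by
  unfold sa
  apply Real.sin_nonneg_of_nonneg_of_le_pi
  · positivity
  · rcases Nat.eq_zero_or_pos c with h | h
    · rw [h, Nat.cast_zero, div_zero]
      exact Real.pi_pos.le
    · exact div_le_self Real.pi_pos.le (by exact_mod_cast h)

theorem StripA_F (c : ℕ) (l : ℤ) (z : ℂ) :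
    1 ≤ 1 + 3 / sa c ^ 2 * max 0 (dv c l z - sa c ^ 2 / 2) := by
  have h1 : 0 ≤ 3 / sa c ^ 2 := by positivity
  have h2 := mul_nonneg h1 (le_max_left 0 (dv c l z - sa c ^ 2 / 2))
  linarith

theorem dv_eq_min (c : ℕ) (l : ℤ) (z : ℂ) :
    dv c l z = min (1 - R c (2 * l - 1) z) (1 - R c (2 * l + 1) z) := by
  have h1 : R c (2 * l - 1) z = ca c * R c (2 * l) z - sa c * J c (2 * l) z := R_pred c (2 * l) z
  have h2 : R c (2 * l + 1) z = ca c * R c (2 * l) z + sa c * J c (2 * l) z := R_succ c (2 * l) z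
  have hs := StripA_sa_nonneg c
  unfold dv
  rw [h1, h2]
  rcases le_total 0 (J c (2 * l) z) with h | h
  · rw [abs_of_nonneg h, min_eq_right]
    · ring
    · have := mul_nonneg hs h
      linarith
  · rw [abs_of_nonpos h, min_eq_left]
    · ring
    · have := mul_nonneg hs (neg_nonneg.2 h)
      linarith

theorem dv_pos (hc : 3 ≤ c) {z : ℂ} (hz : z ∈ Pg c) (l : ℤ) : 0 < dv c l z := by
  rw [dv_eq_min]
  have h1 := hz.2 l
  have h2 := hz.2 (l + 1)
  have e : 2 * (l + 1) - 1 = 2 * l + 1 := by ring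
  rw [e] at h2
  exact lt_min (by linarith) (by linarith)

theorem continuousOn_kp (hc : 3 ≤ c) (l : ℤ) : ContinuousOn (kp c l) (Pg c) := by
  have hd : Continuous (dv c l) := by
    unfold dv
    fun_prop
  have hR : Continuous (R c (2 * l)) := continuous_R c _
  unfold kp
  refine continuousOn_const.mul (ContinuousOn.sup continuousOn_const ?_)
  refine continuousOn_const.sub (ContinuousOn.mul ?_ ?_)
  · refine ContinuousOn.div (continuousOn_const.sub hR.continuousOn)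
      (continuousOn_const.mul hd.continuousOn) ?_
    intro z hz
    exact (mul_pos (ca_pos hc) (dv_pos hc hz l)).ne'
  · exact continuousOn_const.add (continuousOn_const.mul
      (ContinuousOn.sup continuousOn_const (hd.continuousOn.sub continuousOn_const)))

theorem kp_nonneg (c : ℕ) (l : ℤ) (z : ℂ) : 0 ≤ kp c l z := by
  unfold kp
  exact mul_nonneg (by norm_num) (le_max_left _ _)

theorem kp_le_half (hc : 3 ≤ c) {z : ℂ} (hz : z ∈ Pg c) (l : ℤ) : kp c l z ≤ 1 / 2 := by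
  have h1 : 0 ≤ (ca c - R c (2 * l) z) / (ca c * dv c l z) :=
    div_nonneg (sub_nonneg.2 (hz.1 l)) (mul_pos (ca_pos hc) (dv_pos hc hz l)).le
  have h2 := StripA_F c l z
  have h3 := mul_nonneg h1 (zero_le_one.trans h2)
  unfold kp
  have h4 : max 0 (1 - (ca c - R c (2 * l) z) / (ca c * dv c l z) *
    (1 + 3 / sa c ^ 2 * max 0 (dv c l z - sa c ^ 2 / 2))) ≤ 1 := max_le zero_le_one (by linarith)
  linarith

theorem kp_side (c : ℕ) {z : ℂ} {l : ℤ} (h : R c (2 * l) z = ca c) : kp c l z = 1 / 2 := by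
  unfold kp
  rw [h, sub_self, zero_div, zero_mul, sub_zero, max_eq_right zero_le_one, mul_one]

/-- PROOF: `1 - (ca - R) / (ca dv) > 0` gives `ca |J| < sa R`. -/
theorem sec_of_kp (hc : 3 ≤ c) {z : ℂ} (hz : z ∈ Pg c) {l : ℤ} (h : kp c l z ≠ 0) : Sec c l z := by
  have hca := ca_pos hc
  have hsa := sa_pos hc
  have hd := dv_pos hc hz l
  have h1 : 0 ≤ (ca c - R c (2 * l) z) / (ca c * dv c l z) :=
    div_nonneg (sub_nonneg.2 (hz.1 l)) (mul_pos hca hd).le
  have h2 := StripA_F c l z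
  have h3 : (ca c - R c (2 * l) z) / (ca c * dv c l z) < 1 := by
    by_contra h4
    rw [not_lt] at h4
    apply h
    unfold kp
    rw [max_eq_left, mul_zero]
    have h5 := mul_le_mul h4 h2 zero_le_one h1
    linarith
  rw [div_lt_one (mul_pos hca hd)] at h3
  unfold dv at h3
  have h4 := ca_sq_add c
  unfold Sec
  have h5 : sa c * (ca c * |J c (2 * l) z|) < sa c * (sa c * R c (2 * l) z) := by
    have e : R c (2 * l) z = (ca c ^ 2 + sa c ^ 2) * R c (2 * l) z := by rw [h4, one_mul]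
    nlinarith [e, h3]
  exact lt_of_mul_lt_mul_left h5 hsa.le

theorem kp_disj (hc : 3 ≤ c) {z : ℂ} (hz : z ∈ Pg c) {l m : ℤ} (h : ¬ (c : ℤ) ∣ l - m) :
    kp c l z = 0 ∨ kp c m z = 0 := by
  by_contra h1
  rw [not_or] at h1
  exact h (sec_unique hc (sec_of_kp hc hz h1.1) (sec_of_kp hc hz h1.2))

theorem StripA_J1 (hc : 3 ≤ c) (m : ℤ) {u x : ℝ} (hu : |u| ≤ 1 / 2) (hx : 0 < x)
    (hx' : x < sa c ^ 2 / 2) : J c (2 * m) (cp c m u x) < 0 := by
  have hca := ca_pos hc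
  have hsa := sa_pos hc
  have h1 := J_succ c (2 * m - 1) (cp c m u x)
  rw [sub_add_cancel, J_cp, R_cp] at h1
  have h2 := (abs_le.1 hu).2
  have h3 := ca_sq_add c
  have h4 : sa c * J c (2 * m) (cp c m u x) = x * (2 * ca c ^ 2 * u) - sa c ^ 2 * (1 - x) := by
    rw [h1]
    field_simp
  have h5 : x * (2 * ca c ^ 2 * u) ≤ x * ca c ^ 2 := by
    apply mul_le_mul_of_nonneg_left _ hx.le
    nlinarith [sq_nonneg (ca c)]
  have h6 : sa c * J c (2 * m) (cp c m u x) < 0 := by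
    have h7 : x * ca c ^ 2 + x * sa c ^ 2 = x := by rw [← mul_add, h3, mul_one]
    have h8 : 0 < sa c ^ 2 := by positivity
    linarith
  by_contra h7
  rw [not_lt] at h7
  have h8 := mul_nonneg hsa.le h7
  linarith

theorem StripA_J2 (hc : 3 ≤ c) (m : ℤ) {u x : ℝ} (hu : |u| ≤ 1 / 2) (hx : 0 < x)
    (hx' : x < sa c ^ 2 / 2) : 0 < J c (2 * m - 2) (cp c m u x) := by
  have hca := ca_pos hc
  have hsa := sa_pos hc
  have h1 := J_pred c (2 * m - 1) (cp c m u x)
  have e : 2 * m - 1 - 1 = 2 * m - 2 := by ring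
  rw [e, J_cp, R_cp] at h1
  have h2 := (abs_le.1 hu).1
  have h3 := ca_sq_add c
  have h4 : sa c * J c (2 * m - 2) (cp c m u x) = x * (2 * ca c ^ 2 * u) + sa c ^ 2 * (1 - x) := by
    rw [h1]
    field_simp
  have h5 : -(x * ca c ^ 2) ≤ x * (2 * ca c ^ 2 * u) := by
    rw [← mul_neg]
    apply mul_le_mul_of_nonneg_left _ hx.le
    nlinarith [sq_nonneg (ca c)]
  have h6 : 0 < sa c * J c (2 * m - 2) (cp c m u x) := by
    have h7 : x * ca c ^ 2 + x * sa c ^ 2 = x := by rw [← mul_add, h3, mul_one]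
    have h8 : 0 < sa c ^ 2 := by positivity
    linarith
  by_contra h7
  rw [not_lt] at h7
  have h8 := mul_nonneg hsa.le (neg_nonneg.2 h7)
  linarith

theorem StripA_half {a x t : ℝ} (ha : 0 < a) (hx : 0 < x) (F : ℝ) (hF : F = 0) :
    1 / 2 * max 0 (1 - (a - (a - a * x * (1 - t))) / (a * x) * (1 + F)) = max 0 (t / 2) := by
  have e : (a - (a - a * x * (1 - t))) / (a * x) = 1 - t := by
    field_simp
    ring
  rw [e, hF, add_zero, mul_one, sub_sub_cancel]
  rcases le_total 0 t with h | h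
  · rw [max_eq_right h, max_eq_right (by linarith)]
    ring
  · rw [max_eq_left h, max_eq_left (by linarith), mul_zero]

theorem StripA_k1 (hc : 3 ≤ c) (m : ℤ) {u x : ℝ} (hu : |u| ≤ 1 / 2) (hx : 0 < x)
    (hx' : x < sa c ^ 2 / 2) : kp c m (cp c m u x) = max 0 u := by
  have hdv : dv c m (cp c m u x) = x := by
    have h1 := StripA_J1 hc m hu hx hx'
    have h2 := R_pred c (2 * m) (cp c m u x)
    rw [R_cp] at h2
    unfold dv
    rw [abs_of_neg h1]
    linarith
  unfold kp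
  rw [hdv, R_cp_side hc, StripA_half (ca_pos hc) hx]
  · congr 1
    ring
  · rw [max_eq_left (by linarith), mul_zero]

theorem StripA_k2 (hc : 3 ≤ c) (m : ℤ) {u x : ℝ} (hu : |u| ≤ 1 / 2) (hx : 0 < x)
    (hx' : x < sa c ^ 2 / 2) : kp c (m - 1) (cp c m u x) = max 0 (-u) := by
  have e : 2 * (m - 1) = 2 * m - 2 := by ring
  have hdv : dv c (m - 1) (cp c m u x) = x := by
    have h1 := StripA_J2 hc m hu hx hx'
    have h2 := R_succ c (2 * m - 2) (cp c m u x)
    have e2 : 2 * m - 2 + 1 = 2 * m - 1 := by ring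
    rw [e2, R_cp] at h2
    unfold dv
    rw [e, abs_of_pos h1]
    linarith
  have e3 : ca c - ca c * x * (1 + 2 * u) = ca c - ca c * x * (1 - (-(2 * u))) := by ring
  unfold kp
  rw [hdv, e, R_cp_side' hc, e3, StripA_half (ca_pos hc) hx]
  · congr 1
    ring
  · rw [max_eq_left (by linarith), mul_zero]

/-- the strips in the corner `m`, `u ≥ 0` -/
theorem kp_cp_pos (hc : 3 ≤ c) (m : ℤ) {u x : ℝ} (hu : 0 ≤ u) (hu' : u ≤ 1 / 2) (hx : 0 < x)
    (hx' : x < sa c ^ 2 / 2) : kp c m (cp c m u x) = u := by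
  rw [StripA_k1 hc m (abs_le.2 ⟨by linarith, hu'⟩) hx hx', max_eq_right hu]

/-- the strips in the corner `m`, `u ≤ 0` -/
theorem kp_cp_neg (hc : 3 ≤ c) (m : ℤ) {u x : ℝ} (hu : u ≤ 0) (hu' : -(1 / 2) ≤ u) (hx : 0 < x)
    (hx' : x < sa c ^ 2 / 2) : kp c (m - 1) (cp c m u x) = -u := by
  rw [StripA_k2 hc m (abs_le.2 ⟨hu', by linarith⟩) hx hx', max_eq_right (by linarith)]

/-- the other strips in the corner `m` -/
theorem kp_cp_zero (hc : 3 ≤ c) (m l : ℤ) {u x : ℝ} (hu : |u| ≤ 1 / 2) (hx : 0 < x)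
    (hx' : x < sa c ^ 2 / 2) (h1 : ¬ (c : ℤ) ∣ l - m ∨ u ≤ 0)
    (h2 : ¬ (c : ℤ) ∣ l - (m - 1) ∨ 0 ≤ u) : kp c l (cp c m u x) = 0 := by
  by_cases e1 : (c : ℤ) ∣ l - m
  · have hu0 : u ≤ 0 := h1.resolve_left fun h => h e1
    rw [kp_per hc e1, StripA_k1 hc m hu hx hx', max_eq_left hu0]
  by_cases e2 : (c : ℤ) ∣ l - (m - 1)
  · have hu0 : 0 ≤ u := h2.resolve_left fun h => h e2
    rw [kp_per hc e2, StripA_k2 hc m hu hx hx', max_eq_left (by linarith)]
  by_contra h3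
  have hsa := sa_pos hc
  have hmem : cp c m u x ∈ Pg c := cp_mem hc m hu hx (by nlinarith [sq_nonneg (sa c)])
  have hS := sec_of_kp hc hmem h3
  have hK : Kite c m (cp c m u x) := by
    refine ⟨(StripA_J1 hc m hu hx hx').le, (StripA_J2 hc m hu hx hx').le, ?_⟩
    rw [R_cp]
    have h4 : sa c ^ 2 ≤ 1 := by
      have := ca_sq_add c
      nlinarith [sq_nonneg (ca c)]
    linarith
  rcases sec_kite hc hS hK with h4 | h4
  · exact e1 h4
  · exact e2 h4

end

end Pool.Agent.H.MP_1611f1_gt.PB.Mo
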