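import Pool.Agent.H.MP_1611f1_gt.PB.Mo.ColA
import Pool.Agent.H.MP_1611f1_gt.PB.Mo.StripA

/-!
MODEL OF THE FIBRE SURFACE: the strips.
-/

namespace Pool.Agent.H.MP_1611f1_gt.PB.Mo

open Complex Set Topology

noncomputable section

variable {c L : ℕ} {I : Type} [Fact (3 ≤ c)] (K : Comb c L I)
variable [TopologicalSpace I] [DiscreteTopology I]

theorem KapA_int {a b : ℝ} (n : ℤ) (h : a - b = n) :
    (a : AddCircle (1 : ℝ)) = (b : AddCircle (1 : ℝ)) := by
  rw [← sub_eq_zero, ← AddCircle.coe_sub, AddCircle.coe_eq_zero_iff]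
  exact ⟨n, by rw [h]; simp⟩

/-- the collapse map of the strip `l`, for a sign function `sg` -/
theorem exists_kap (sg : I → ℤ) (l : ℤ) (hsg : ∀ i, sg (K.σ l i) = -sg i)
    (hsg1 : ∀ i, sg i = 1 ∨ sg i = -1 ∨ sg i = 0) :
    ∃ F : C(Sf K, AddCircle (1 : ℝ)), ∀ (i : I) (z : ℂ) (hz : z ∈ Pg c),
      F (pt K i z hz) = (((sg i : ℝ) * kp c l z : ℝ) : AddCircle (1 : ℝ)) := by
  have hc : 3 ≤ c := Fact.out
  have hcont : ∀ i : I, Continuous fun z : Pg c =>
      (((sg i : ℝ) * kp c l z : ℝ) : AddCircle (1 : ℝ)) := by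
    intro i
    have h1 : Continuous fun z : Pg c => kp c l z :=
      continuousOn_iff_continuous_domRestrict.1 (continuousOn_kp hc l)
    exact (AddCircle.continuous_mk' (1 : ℝ)).comp (continuous_const.mul h1)
  obtain ⟨F, hF⟩ := exists_glue_fun K
    (fun i (z : Pg c) => (((sg i : ℝ) * kp c l z : ℝ) : AddCircle (1 : ℝ))) hcont (by
      intro i m z hz hm
      show (((sg i : ℝ) * kp c l z : ℝ) : AddCircle (1 : ℝ)) =
        (((sg (K.σ m i) : ℝ) * kp c l (2 * (ca c : ℂ) * W c (2 * m) - z) : ℝ) :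
          AddCircle (1 : ℝ))
      have hw := refl_mem hc hz hm
      have hwm : R c (2 * m) (2 * (ca c : ℂ) * W c (2 * m) - z) = ca c := by
        rw [R_refl, hm]
        ring
      by_cases hlm : (c : ℤ) ∣ l - m
      · rw [kp_per hc hlm, kp_per hc hlm, kp_side c hm, kp_side c hwm, ← K.σ_congr hlm, hsg i]
        refine KapA_int (sg i) ?_
        push_cast
        ring
      · have h1 : kp c l z = 0 := by
          rcases kp_disj hc hz hlm with h | h
          · exact h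
          · rw [kp_side c hm] at h
            norm_num at h
        have h2 : kp c l (2 * (ca c : ℂ) * W c (2 * m) - z) = 0 := by
          rcases kp_disj hc hw hlm with h | h
          · exact h
          · rw [kp_side c hwm] at h
            norm_num at h
        rw [h1, h2, mul_zero, mul_zero])
  exact ⟨F, fun i z hz => hF i ⟨z, hz⟩⟩

/-- The value in the collar: in the sector `[t, t + 1]` (between the corners `t` and `t + 1`, i.e. around the
side `t`) it is `sg (lv t) * u` if `l ≡ t` and `0` otherwise. PROOF: `u ≤ 1/2`: the corner `t` with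
the coordinate `u`; `u ≥ 1/2`: the corner `t + 1` with the coordinate `u - 1`, the level `σ t (lv t)`;
`kp_cp_pos`, `kp_cp_neg`, `kp_cp_zero`. -/
theorem kap_collar {sg : I → ℤ} {l : ℤ} (hsg : ∀ i, sg (K.σ l i) = -sg i)
    {F : C(Sf K, AddCircle (1 : ℝ))}
    (hF : ∀ (i : I) (z : ℂ) (hz : z ∈ Pg c),
      F (pt K i z hz) = (((sg i : ℝ) * kp c l z : ℝ) : AddCircle (1 : ℝ)))
    {E : Surf (Sf K) Unit} (hE : ∀ (t : ℤ) (u : ℝ) (hu : |u| ≤ 1 / 2) (r : Ioo (1 : ℝ) 2),
      E.collar () (((((t + u) / L : ℝ)) : AddCircle (1 : ℝ)), r) = cpt K t u hu r)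
    (t : ℤ) (u : ℝ) (hu : u ∈ Icc (0 : ℝ) 1) (r : Ioo (1 : ℝ) 2) :
    F (E.collar () (((((t + u) / L : ℝ)) : AddCircle (1 : ℝ)), r)) =
      ((if (c : ℤ) ∣ l - t then (sg (K.lv t) : ℝ) * u else 0 : ℝ) : AddCircle (1 : ℝ)) := by
  have hc : 3 ≤ c := Fact.out
  have hr0 : 0 < rad c r := rad_pos r
  have hr1 : rad c r < sa c ^ 2 / 2 := rad_lt r
  rcases le_total u (1 / 2) with h | h
  · have hu' : |u| ≤ 1 / 2 := by
      rw [abs_of_nonneg hu.1]
      exact h
    rw [hE t u hu' r]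
    show F (pt K (K.lv t) (cp c t u (rad c r)) _) = _
    rw [hF]
    by_cases hlt : (c : ℤ) ∣ l - t
    · rw [if_pos hlt, kp_per hc hlt, kp_cp_pos hc t hu.1 h hr0 hr1]
    · rw [if_neg hlt, kp_cp_zero hc t l hu' hr0 hr1 (Or.inl hlt) (Or.inr hu.1), mul_zero]
  · have hu1 : u - 1 ≤ 0 := by linarith [hu.2]
    have hu2 : -(1 / 2) ≤ u - 1 := by linarith
    have hu' : |u - 1| ≤ 1 / 2 := abs_le.2 ⟨hu2, by linarith⟩
    have e1 : ((t + u) / L : ℝ) = (((t + 1 : ℤ) : ℝ) + (u - 1)) / L := by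
      push_cast
      ring
    rw [e1, hE (t + 1) (u - 1) hu' r]
    show F (pt K (K.lv (t + 1)) (cp c (t + 1) (u - 1) (rad c r)) _) = _
    rw [hF]
    by_cases hlt : (c : ℤ) ∣ l - t
    · have h1 : kp c l (cp c (t + 1) (u - 1) (rad c r)) = -(u - 1) := by
        have h2 := kp_cp_neg hc (t + 1) hu1 hu2 hr0 hr1
        rw [add_sub_cancel_right] at h2
        rw [kp_per hc hlt, h2]
      rw [if_pos hlt, h1, K.step, ← K.σ_congr hlt, hsg]
      refine KapA_int (-sg (K.lv t)) ?_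
      push_cast
      ring
    · rw [if_neg hlt, kp_cp_zero hc (t + 1) l hu' hr0 hr1 (Or.inr hu1)
        (Or.inl (by rwa [add_sub_cancel_right])), mul_zero]

end

end Pool.Agent.H.MP_1611f1_gt.PB.Mo
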