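import Pool.Agent.H.MP_1611f1_gt.PB.Mo.StripA

/-!
MODEL OF THE FIBRE SURFACE: paths to the corners.
-/

namespace Pool.Agent.H.MP_1611f1_gt.PB.Mo

open Complex Set

noncomputable section

variable {c : ℕ}

theorem StripB_R (c : ℕ) (m : ℤ) (a b : ℝ) :
    R c (2 * m) (fr c (2 * m - 1) a b) = ca c * a + sa c * b := by
  have h := R_succ c (2 * m - 1) (fr c (2 * m - 1) a b)
  rw [sub_add_cancel, R_fr, J_fr] at h
  exact h

theorem StripB_J (c : ℕ) (m : ℤ) (a b : ℝ) :
    J c (2 * m) (fr c (2 * m - 1) a b) = ca c * b - sa c * a := by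
  have h := J_succ c (2 * m - 1) (fr c (2 * m - 1) a b)
  rw [sub_add_cancel, R_fr, J_fr] at h
  exact h

theorem StripB_R' (c : ℕ) (m : ℤ) (a b : ℝ) :
    R c (2 * m - 2) (fr c (2 * m - 1) a b) = ca c * a - sa c * b := by
  have h := R_pred c (2 * m - 1) (fr c (2 * m - 1) a b)
  have e : 2 * m - 1 - 1 = 2 * m - 2 := by ring
  rw [e, R_fr, J_fr] at h
  exact h

theorem StripB_J' (c : ℕ) (m : ℤ) (a b : ℝ) :
    J c (2 * m - 2) (fr c (2 * m - 1) a b) = ca c * b + sa c * a := by
  have h := J_pred c (2 * m - 1) (fr c (2 * m - 1) a b)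
  have e : 2 * m - 1 - 1 = 2 * m - 2 := by ring
  rw [e, R_fr, J_fr] at h
  exact h

/-- the profile increases with `R` if the distance does not change -/
theorem StripB_mono (hc : 3 ≤ c) {l : ℤ} {z w : ℂ} (hz : 0 < dv c l z) (hd : dv c l w = dv c l z)
    (hR : R c (2 * l) w ≤ R c (2 * l) z) : kp c l w ≤ kp c l z := by
  have hC := ca_pos hc
  have hS := sa_pos hc
  unfold kp
  rw [hd]
  have h1 : 0 < ca c * dv c l z := mul_pos hC hz
  have h2 : (0 : ℝ) ≤ 1 + 3 / sa c ^ 2 * max 0 (dv c l z - sa c ^ 2 / 2) := by positivity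
  have h3 : (ca c - R c (2 * l) z) / (ca c * dv c l z) ≤
      (ca c - R c (2 * l) w) / (ca c * dv c l z) :=
    div_le_div_of_nonneg_right (by linarith) h1.le
  have h4 := mul_le_mul_of_nonneg_right h3 h2
  have h5 := max_le_max (le_refl (0 : ℝ)) (sub_le_sub_left h4 1)
  linarith

/-- the points of the axis of the corner `m` -/
theorem StripB_axis (hc : 3 ≤ c) (m : ℤ) {a : ℝ} (h0 : 0 ≤ a) (h1 : a < 1) :
    fr c (2 * m - 1) a 0 ∈ Pg c := by
  have hC := ca_pos hc
  have hw : fr c (2 * m - 1) a 0 = (a : ℂ) * W c (2 * m - 1) := by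
    unfold fr
    simp
  refine ⟨fun l => ?_, fun l => ?_⟩
  · rw [hw, R_smul, R_W]
    have hn : ¬ (2 * c : ℤ) ∣ (2 * m - 1 - 2 * l) := by
      rintro ⟨k, hk⟩
      have : (2 : ℤ) ∣ 2 * m - 1 - 2 * l := ⟨c * k, by rw [hk]; ring⟩
      omega
    have h2 := cos_le_ca hc hn
    push_cast at h2 ⊢
    calc a * Real.cos (Real.pi * (2 * m - 1 - 2 * l) / c) ≤ a * ca c :=
          mul_le_mul_of_nonneg_left h2 h0
      _ ≤ 1 * ca c := mul_le_mul_of_nonneg_right h1.le hC.le
      _ = ca c := one_mul _
  · rw [hw, R_smul, R_W]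
    have h2 := Real.cos_le_one (Real.pi * (((2 * m - 1 : ℤ) : ℝ) - ((2 * l - 1 : ℤ) : ℝ)) / c)
    calc a * Real.cos (Real.pi * (((2 * m - 1 : ℤ) : ℝ) - ((2 * l - 1 : ℤ) : ℝ)) / c) ≤ a * 1 :=
          mul_le_mul_of_nonneg_left h2 h0
      _ < 1 := by rw [mul_one]; exact h1

/-- Every point can be joined in `Pg c` to a corner, such that no strip profile increases. PROOF: let `z` be
in the kite `m` (`exists_kite`), `x = R (2 m - 1) z`, `y = J (2 m - 1) z`. First the path
`fr (2 m - 1) x ((1 - t) y)`, then along the axis to `fr (2 m - 1) (1 - sa² / 4) 0` (if `x` is smaller than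
this). Everything is in the kite `m`, so only the strips `m`, `m - 1` matter (`sec_kite`);
there `dv = 1 - R (2 m - 1)` and `ca - R (2 m) = ca (1 - x) + ca ... ` increases on the
first part (or the profile is `0`), and on the axis all profiles are `0`. -/
theorem exists_path (hc : 3 ≤ c) {z : ℂ} (hz : z ∈ Pg c) : ∃ (m : ℤ) (x : ℝ) (γ : ℝ → ℂ),
    0 < x ∧ x < sa c ^ 2 / 2 ∧ ContinuousOn γ (Icc 0 1) ∧ γ 0 = z ∧ γ 1 = cp c m 0 x ∧
      ∀ t ∈ Icc (0 : ℝ) 1, γ t ∈ Pg c ∧ ∀ l, kp c l (γ t) ≤ kp c l z := by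
  have hC := ca_pos hc
  have hS := sa_pos hc
  have hCS := ca_sq_add c
  obtain ⟨m, hk1, hk2, hk3⟩ := exists_kite hc z
  obtain ⟨x, hx⟩ : ∃ x : ℝ, x = R c (2 * m - 1) z := ⟨_, rfl⟩
  obtain ⟨y, hy⟩ : ∃ y : ℝ, y = J c (2 * m - 1) z := ⟨_, rfl⟩
  have hzf : z = fr c (2 * m - 1) x y := by rw [hx, hy, fr_R_J]
  rw [← hx] at hk3
  have k1 : ca c * y - sa c * x ≤ 0 := by
    rw [hzf, StripB_J] at hk1
    exact hk1
  have k2 : 0 ≤ ca c * y + sa c * x := by
    rw [hzf, StripB_J'] at hk2
    exact hk2
  have hx1 : x < 1 := by rw [hx]; exact hz.2 m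
  obtain ⟨x', hx'⟩ : ∃ x' : ℝ, x' = max x (1 - sa c ^ 2 / 4) := ⟨_, rfl⟩
  have hxx' : x ≤ x' := by rw [hx']; exact le_max_left _ _
  have hx'1 : x' < 1 := by
    rw [hx']
    exact max_lt hx1 (by have := pow_pos hS 2; linarith)
  have hx'2 : 1 - sa c ^ 2 / 4 ≤ x' := by rw [hx']; exact le_max_right _ _
  refine ⟨m, 1 - x', fun t => fr c (2 * m - 1) (x + max 0 (2 * t - 1) * (x' - x))
    (max 0 (1 - 2 * t) * y), by linarith, by have := pow_pos hS 2; linarith, ?_, ?_, ?_, ?_⟩
  · refine Continuous.continuousOn ?_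
    unfold fr
    fun_prop
  · show fr c (2 * m - 1) (x + max 0 (2 * 0 - 1) * (x' - x)) (max 0 (1 - 2 * 0) * y) = z
    rw [hzf]
    norm_num
  · show fr c (2 * m - 1) (x + max 0 (2 * 1 - 1) * (x' - x)) (max 0 (1 - 2 * 1) * y) = cp c m 0 (1 - x')
    unfold cp
    norm_num
  · intro t ht
    show fr c (2 * m - 1) (x + max 0 (2 * t - 1) * (x' - x)) (max 0 (1 - 2 * t) * y) ∈ Pg c ∧
      ∀ l, kp c l (fr c (2 * m - 1) (x + max 0 (2 * t - 1) * (x' - x)) (max 0 (1 - 2 * t) * y)) ≤
        kp c l z
    rcases le_total t (1 / 2) with h | h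
    · -- the first part
      obtain ⟨τ, hτ⟩ : ∃ τ : ℝ, τ = 1 - 2 * t := ⟨_, rfl⟩
      have hτ0 : 0 ≤ τ := by rw [hτ]; linarith
      have hτ1 : τ ≤ 1 := by rw [hτ]; linarith [ht.1]
      rw [max_eq_left (by linarith : 2 * t - 1 ≤ 0), max_eq_right (by linarith : 0 ≤ 1 - 2 * t),
        zero_mul, add_zero, ← hτ]
      have hw : fr c (2 * m - 1) x (τ * y) = τ • z + (1 - τ) • fr c (2 * m - 1) x 0 := by
        rw [hzf]
        unfold fr
        simp only [Complex.real_smul]
        push_cast
        ring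
      have hmem : fr c (2 * m - 1) x (τ * y) ∈ Pg c := by
        rw [hw]
        exact convex_Pg c hz (StripB_axis hc m hk3 hx1) hτ0 (by linarith) (by ring)
      have b1 : ca c * (τ * y) ≤ sa c * x := by
        have h1 : τ * (ca c * y) ≤ τ * (sa c * x) := mul_le_mul_of_nonneg_left (by linarith) hτ0
        have h2 : τ * (sa c * x) ≤ 1 * (sa c * x) :=
          mul_le_mul_of_nonneg_right hτ1 (mul_nonneg hS.le hk3)
        linarith
      have b2 : -(ca c * (τ * y)) ≤ sa c * x := by
        have h1 : τ * (-(ca c * y)) ≤ τ * (sa c * x) := mul_le_mul_of_nonneg_left (by linarith) hτ0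
        have h2 : τ * (sa c * x) ≤ 1 * (sa c * x) :=
          mul_le_mul_of_nonneg_right hτ1 (mul_nonneg hS.le hk3)
        linarith
      refine ⟨hmem, fun l => ?_⟩
      by_cases hne : kp c l (fr c (2 * m - 1) x (τ * y)) = 0
      · rw [hne]
        exact kp_nonneg c l z
      · have hsec := sec_of_kp hc hmem hne
        have hkite : Kite c m (fr c (2 * m - 1) x (τ * y)) := by
          refine ⟨?_, ?_, ?_⟩
          · rw [StripB_J]; linarith
          · rw [StripB_J']; linarith
          · rw [R_fr]; exact hk3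
        rcases sec_kite hc hsec hkite with hl | hl
        · rw [kp_per hc hl, kp_per hc hl z]
          have hy0 : 0 < τ * y := by
            have h1 : Sec c m (fr c (2 * m - 1) x (τ * y)) :=
              sec_of_kp hc hmem (by rw [← kp_per hc hl]; exact hne)
            have h2 := ((sec_iff hc m _).1 h1).1
            rw [J_fr] at h2
            exact h2
          have hyy : τ * y ≤ y := by
            have h1 : 0 < y := by
              by_contra hneg
              have : τ * y ≤ 0 := mul_nonpos_of_nonneg_of_nonpos hτ0 (not_lt.1 hneg)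
              linarith
            have h2 : τ * y ≤ 1 * y := mul_le_mul_of_nonneg_right hτ1 h1.le
            linarith
          have d1 : ∀ b : ℝ, ca c * b - sa c * x ≤ 0 →
              dv c m (fr c (2 * m - 1) x b) = 1 - x := by
            intro b hb
            unfold dv
            rw [StripB_R, StripB_J, abs_of_nonpos hb]
            linear_combination (-x) * hCS
          refine StripB_mono hc ?_ ?_ ?_
          · rw [hzf, d1 y k1]; linarith
          · rw [hzf, d1 y k1, d1 (τ * y) (by linarith)]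
          · rw [hzf, StripB_R, StripB_R]
            have := mul_le_mul_of_nonneg_left hyy hS.le
            linarith
        · rw [kp_per hc hl, kp_per hc hl z]
          have e2 : 2 * (m - 1) = 2 * m - 2 := by ring
          have hy0 : τ * y < 0 := by
            have h1 : Sec c (m - 1) (fr c (2 * m - 1) x (τ * y)) :=
              sec_of_kp hc hmem (by rw [← kp_per hc hl]; exact hne)
            have h2 := ((sec_iff hc (m - 1) _).1 h1).2
            have e : 2 * (m - 1) + 1 = 2 * m - 1 := by ring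
            rw [e, J_fr] at h2
            exact h2
          have hyy : y ≤ τ * y := by
            have h1 : y < 0 := by
              by_contra hneg
              have : 0 ≤ τ * y := mul_nonneg hτ0 (not_lt.1 hneg)
              linarith
            have h2 : τ * (-y) ≤ 1 * (-y) := mul_le_mul_of_nonneg_right hτ1 (by linarith)
            linarith
          have d1 : ∀ b : ℝ, 0 ≤ ca c * b + sa c * x →
              dv c (m - 1) (fr c (2 * m - 1) x b) = 1 - x := by
            intro b hb
            unfold dv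
            rw [e2, StripB_R', StripB_J', abs_of_nonneg hb]
            linear_combination (-x) * hCS
          refine StripB_mono hc ?_ ?_ ?_
          · rw [hzf, d1 y k2]; linarith
          · rw [hzf, d1 y k2, d1 (τ * y) (by linarith)]
          · rw [hzf, e2, StripB_R', StripB_R']
            have := mul_le_mul_of_nonneg_left hyy hS.le
            linarith
    · -- on the axis
      obtain ⟨a, ha⟩ : ∃ a : ℝ, a = x + (2 * t - 1) * (x' - x) := ⟨_, rfl⟩
      have ha0 : 0 ≤ a := by
        have h1 : 0 ≤ (2 * t - 1) * (x' - x) := mul_nonneg (by linarith) (by linarith)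
        rw [ha]; linarith
      have ha1 : a < 1 := by
        have h1 : (2 * t - 1) * (x' - x) ≤ 1 * (x' - x) :=
          mul_le_mul_of_nonneg_right (by linarith [ht.2]) (by linarith)
        rw [ha]; linarith
      rw [max_eq_right (by linarith : 0 ≤ 2 * t - 1), max_eq_left (by linarith : 1 - 2 * t ≤ 0),
        zero_mul, ← ha]
      have hmem := StripB_axis hc m ha0 ha1
      refine ⟨hmem, fun l => ?_⟩
      have h0 : kp c l (fr c (2 * m - 1) a 0) = 0 := by
        by_contra hne
        have hsec := sec_of_kp hc hmem hne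
        have hSa : 0 ≤ sa c * a := mul_nonneg hS.le ha0
        have hkite : Kite c m (fr c (2 * m - 1) a 0) := by
          refine ⟨?_, ?_, ?_⟩
          · rw [StripB_J]; linarith
          · rw [StripB_J']; linarith
          · rw [R_fr]; exact ha0
        rcases sec_kite hc hsec hkite with hl | hl
        · have h1 : Sec c m (fr c (2 * m - 1) a 0) :=
            sec_of_kp hc hmem (by rw [← kp_per hc hl]; exact hne)
          have h2 := ((sec_iff hc m _).1 h1).1
          rw [J_fr] at h2
          exact lt_irrefl _ h2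
        · have h1 : Sec c (m - 1) (fr c (2 * m - 1) a 0) :=
            sec_of_kp hc hmem (by rw [← kp_per hc hl]; exact hne)
          have h2 := ((sec_iff hc (m - 1) _).1 h1).2
          have e : 2 * (m - 1) + 1 = 2 * m - 1 := by ring
          rw [e, J_fr] at h2
          exact lt_irrefl _ h2
      rw [h0]
      exact kp_nonneg c l z

end

end Pool.Agent.H.MP_1611f1_gt.PB.Mo
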