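import Pool.Agent.H.MP_1611f1_gt.PB.Mo.ColA
import Pool.Agent.H.MP_1611f1_gt.PB.Mo.StripB

/-!
MODEL OF THE FIBRE SURFACE: the strips.
-/

namespace Pool.Agent.H.MP_1611f1_gt.PB.Mo

open Complex Set Topology

noncomputable section

variable {c L : ℕ} {I : Type} [Fact (3 ≤ c)] (K : Comb c L I)
variable [TopologicalSpace I] [DiscreteTopology I]

theorem KapB_norm {a : ℤ} (ha : a = 1 ∨ a = -1 ∨ a = 0) {v : ℝ} (h0 : 0 ≤ v) (h1 : v ≤ 1 / 2) :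
    ‖((((a : ℝ) * v : ℝ)) : AddCircle (1 : ℝ))‖ = |(a : ℝ)| * v := by
  have h2 : |(a : ℝ)| ≤ 1 := by
    rcases ha with h | h | h <;> rw [h] <;> norm_num
  have h3 : |(a : ℝ) * v| = |(a : ℝ)| * v := by rw [abs_mul, abs_of_nonneg h0]
  rw [← h3]
  refine (AddCircle.norm_coe_eq_abs_iff (1 : ℝ) one_ne_zero).2 ?_
  rw [h3, abs_one]
  calc |(a : ℝ)| * v ≤ 1 * v := mul_le_mul_of_nonneg_right h2 h0
    _ ≤ 1 / 2 := by linarith

theorem KapB_pt {i j : I} (hij : i = j) {z w : ℂ} (hzw : z = w) (hz : z ∈ Pg c) (hw : w ∈ Pg c) :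
    pt K i z hz = pt K j w hw := by
  subst hij hzw
  rfl

/-- Every point outside the strips can be joined to the collar outside the strips. PROOF: `exists_path`;
`‖(sg * v : ℝ/ℤ)‖ = |sg| * v` for `0 ≤ v ≤ 1/2`; the end point of the path is `cpt K t 0 r` where
`t` is a time with `lv t = i`, `t ≡ m` (`K.onto`, `cp_per`). -/
theorem kap_reach {ι : Type*} {sg : ι → I → ℤ} {l : ι → ℤ}
    (hsg1 : ∀ e i, sg e i = 1 ∨ sg e i = -1 ∨ sg e i = 0)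
    {F : ι → C(Sf K, AddCircle (1 : ℝ))}
    (hF : ∀ (e : ι) (i : I) (z : ℂ) (hz : z ∈ Pg c),
      F e (pt K i z hz) = (((sg e i : ℝ) * kp c (l e) z : ℝ) : AddCircle (1 : ℝ)))
    {E : Surf (Sf K) Unit} (hE : ∀ (t : ℤ) (u : ℝ) (hu : |u| ≤ 1 / 2) (r : Ioo (1 : ℝ) 2),
      E.collar () (((((t + u) / L : ℝ)) : AddCircle (1 : ℝ)), r) = cpt K t u hu r)
    (x : Sf K) (hx : ∀ e, ‖F e x‖ < 1 / 4) :
    ∃ z, JoinedIn {x : Sf K | ∀ e, ‖F e x‖ < 1 / 4} x (E.collar () z) := by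
  have hc : 3 ≤ c := Fact.out
  have hS := sa_pos hc
  obtain ⟨i, z, hz, rfl⟩ := exists_pt K x
  obtain ⟨m, y, γ, hy0, hy1, hγc, hγ0, hγ1, hγ⟩ := exists_path hc hz
  have hle : ∀ w ∈ Pg c, (∀ l, kp c l w ≤ kp c l z) → ∀ (hw : w ∈ Pg c) (e : ι),
      ‖F e (pt K i w hw)‖ < 1 / 4 := by
    intro w _ hwz hw e
    have h1 := hx e
    rw [hF, KapB_norm (hsg1 e i) (kp_nonneg c _ z) (kp_le_half hc hz _)] at h1
    rw [hF, KapB_norm (hsg1 e i) (kp_nonneg c _ w) (kp_le_half hc hw _)]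
    exact lt_of_le_of_lt (mul_le_mul_of_nonneg_left (hwz (l e)) (abs_nonneg _)) h1
  have hS2 : 0 < sa c ^ 2 / 2 := by positivity
  obtain ⟨t, ht1, ht2⟩ := K.onto i m
  have hr1 : 0 < y / (sa c ^ 2 / 2) := div_pos hy0 hS2
  have hr2 : y / (sa c ^ 2 / 2) < 1 := (div_lt_one hS2).2 hy1
  have h0 : |(0 : ℝ)| ≤ 1 / 2 := by norm_num
  have hrad : rad c ⟨1 + y / (sa c ^ 2 / 2), by constructor <;> linarith⟩ = y := by
    unfold rad
    show sa c ^ 2 / 2 * (1 + y / (sa c ^ 2 / 2) - 1) = y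
    rw [add_sub_cancel_left]
    exact mul_div_cancel₀ _ hS2.ne'
  refine ⟨(((((t + 0) / L : ℝ)) : AddCircle (1 : ℝ)),
    ⟨1 + y / (sa c ^ 2 / 2), by constructor <;> linarith⟩), ?_⟩
  rw [hE t 0 h0]
  refine ⟨⟨⟨fun s : unitInterval => pt K i (γ s) (hγ s s.2).1, ?_⟩, ?_, ?_⟩, ?_⟩
  · have h5 : Continuous fun s : unitInterval => γ s :=
      continuousOn_iff_continuous_restrict.1 hγc
    have h6 : Continuous fun s : unitInterval => (⟨γ s, (hγ s s.2).1⟩ : Pg c) :=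
      h5.subtype_mk fun s => (hγ s s.2).1
    exact (continuous_pt K i).comp h6
  · exact KapB_pt K rfl (by simpa using hγ0) _ _
  · refine KapB_pt K ht1.symm ?_ _ _
    have e1 : γ ((1 : unitInterval) : ℝ) = γ 1 := rfl
    rw [e1, hγ1, hrad]
    exact cp_per hc (by rw [← neg_sub]; exact (dvd_neg.2 ht2)) 0 y
  · intro s e
    exact hle _ (hγ s s.2).1 (hγ s s.2).2 _ e

end

end Pool.Agent.H.MP_1611f1_gt.PB.Mo
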