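import Mathlib

/-!
MODEL OF THE FIBRE SURFACE: general topological lemmas.
-/

namespace Pool.Agent.H.MP_1611f1_gt.PB.Mo

open Set Topology

/-- The shift of the annulus. -/
noncomputable def TopC_sh (e : ℤ) (z : AddCircle (1 : ℝ) × Icc (-1 : ℝ) 1) :
    AddCircle (1 : ℝ) × Icc (-1 : ℝ) 1 :=
  (z.1 + (((e : ℝ) * ((1 + (z.2 : ℝ)) / 2) : ℝ) : AddCircle (1 : ℝ)), z.2)

lemma TopC_sh_cont (e : ℤ) : Continuous (TopC_sh e) := by
  unfold TopC_sh
  refine Continuous.prodMk ?_ continuous_snd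
  refine continuous_fst.add ?_
  refine (AddCircle.continuous_mk' (1 : ℝ)).comp ?_
  fun_prop

lemma TopC_sh_sh (e : ℤ) (z : AddCircle (1 : ℝ) × Icc (-1 : ℝ) 1) :
    TopC_sh e (TopC_sh (-e) z) = z := by
  unfold TopC_sh
  refine Prod.ext ?_ rfl
  simp only
  rw [add_assoc, ← AddCircle.coe_add]
  have : ((-e : ℤ) : ℝ) * ((1 + (z.2 : ℝ)) / 2) + (e : ℝ) * ((1 + (z.2 : ℝ)) / 2) = 0 := by
    push_cast
    ring
  rw [this, AddCircle.coe_zero, add_zero]

lemma TopC_sh_bd (e : ℤ) (z : AddCircle (1 : ℝ) × Icc (-1 : ℝ) 1) (hz : ¬ |(z.2 : ℝ)| < 1) :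
    TopC_sh e z = z := by
  unfold TopC_sh
  refine Prod.ext ?_ rfl
  simp only
  have h1 : (z.2 : ℝ) = 1 ∨ (z.2 : ℝ) = -1 := by
    have h2 := z.2.2.1
    have h3 := z.2.2.2
    rw [abs_lt] at hz
    by_contra hcon
    rw [not_or] at hcon
    apply hz
    exact ⟨lt_of_le_of_ne h2 (Ne.symm hcon.2), lt_of_le_of_ne h3 hcon.1⟩
  have h2 : (((e : ℝ) * ((1 + (z.2 : ℝ)) / 2) : ℝ) : AddCircle (1 : ℝ)) = 0 := by
    rcases h1 with h1 | h1
    · rw [h1]
      rw [AddCircle.coe_eq_zero_iff]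
      refine ⟨e, ?_⟩
      rw [zsmul_eq_mul]
      ring
    · rw [h1]
      norm_num
  rw [h2, add_zero]

open Classical in
/-- The twist map. -/
noncomputable def TopC_map {S : Type*} (a : AddCircle (1 : ℝ) × Icc (-1 : ℝ) 1 → S) (e : ℤ)
    (x : S) : S := if hx : ∃ z, a z = x then a (TopC_sh e hx.choose) else x

lemma TopC_map_a {S : Type*} (a : AddCircle (1 : ℝ) × Icc (-1 : ℝ) 1 → S)
    (ha : Function.Injective a) (e : ℤ) (z : AddCircle (1 : ℝ) × Icc (-1 : ℝ) 1) :
    TopC_map a e (a z) = a (TopC_sh e z) := by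
  have hx : ∃ w, a w = a z := ⟨z, rfl⟩
  unfold TopC_map
  rw [dif_pos hx, ha hx.choose_spec]

lemma TopC_map_out {S : Type*} (a : AddCircle (1 : ℝ) × Icc (-1 : ℝ) 1 → S)
    (e : ℤ) (x : S) (hx : x ∉ range a) : TopC_map a e x = x := by
  have hx' : ¬ ∃ w, a w = x := hx
  unfold TopC_map
  rw [dif_neg hx']

lemma TopC_map_map {S : Type*} (a : AddCircle (1 : ℝ) × Icc (-1 : ℝ) 1 → S)
    (ha : Function.Injective a) (e : ℤ) (x : S) :
    TopC_map a e (TopC_map a (-e) x) = x := by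
  by_cases hx : x ∈ range a
  · obtain ⟨z, rfl⟩ := hx
    rw [TopC_map_a a ha, TopC_map_a a ha, TopC_sh_sh]
  · rw [TopC_map_out a (-e) x hx, TopC_map_out a e x hx]

lemma TopC_map_cont {S : Type*} [TopologicalSpace S]
    (a : AddCircle (1 : ℝ) × Icc (-1 : ℝ) 1 → S) (ha : IsClosedEmbedding a)
    (ho : IsOpen (a '' {z | |(z.2 : ℝ)| < 1})) (e : ℤ) : Continuous (TopC_map a e) := by
  rw [continuous_iff_isClosed]
  intro C hC
  have h1 : TopC_map a e ⁻¹' C =
      a '' ((fun z => a (TopC_sh e z)) ⁻¹' C) ∪ C ∩ (a '' {z | |(z.2 : ℝ)| < 1})ᶜ := by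
    ext x
    rw [mem_preimage, mem_union]
    by_cases hx : x ∈ range a
    · obtain ⟨z, rfl⟩ := hx
      rw [TopC_map_a a ha.injective]
      constructor
      · intro h2
        exact Or.inl ⟨z, h2, rfl⟩
      · rintro (⟨w, h2, h3⟩ | ⟨h2, h3⟩)
        · rw [ha.injective h3] at h2
          exact h2
        · have h4 : ¬ |(z.2 : ℝ)| < 1 := fun h4 => h3 ⟨z, h4, rfl⟩
          rw [TopC_sh_bd e z h4]
          exact h2
    · rw [TopC_map_out a e x hx]
      constructor
      · intro h2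
        refine Or.inr ⟨h2, ?_⟩
        rintro ⟨z, -, rfl⟩
        exact hx (mem_range_self z)
      · rintro (⟨w, h2, rfl⟩ | ⟨h2, h3⟩)
        · exact absurd (mem_range_self w) hx
        · exact h2
  rw [h1]
  apply IsClosed.union
  · exact ha.isClosedMap _ (hC.preimage (ha.continuous.comp (TopC_sh_cont e)))
  · exact hC.inter ho.isClosed_compl

/-- The `e`-th power of the Dehn twist along an embedded annulus. PROOF: the map `T` is
`a (θ + e (1 + r) / 2, r)` on the closed set `range a` and the identity on the closed set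
`(a '' {|r| < 1})ᶜ`; they agree on the intersection (`r = ± 1`: the shift is `0` or the integer `e`);
the inverse is the map for `-e`. -/
theorem exists_twist_map {S : Type*} [TopologicalSpace S]
    (a : AddCircle (1 : ℝ) × Icc (-1 : ℝ) 1 → S) (ha : IsClosedEmbedding a)
    (ho : IsOpen (a '' {z | |(z.2 : ℝ)| < 1})) (e : ℤ) :
    ∃ T : S ≃ₜ S, (∀ (θ : AddCircle (1 : ℝ)) (r : Icc (-1 : ℝ) 1), T (a (θ, r)) =
      a (θ + (((e : ℝ) * ((1 + r) / 2) : ℝ) : AddCircle (1 : ℝ)), r)) ∧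
      ∀ x ∉ range a, T x = x := by
  have hinv : ∀ x, TopC_map a (-e) (TopC_map a e x) = x := by
    intro x
    have := TopC_map_map a ha.injective (-e) x
    rwa [neg_neg] at this
  refine ⟨{ toFun := TopC_map a e, invFun := TopC_map a (-e), left_inv := hinv,
            right_inv := TopC_map_map a ha.injective e,
            continuous_toFun := TopC_map_cont a ha ho e,
            continuous_invFun := TopC_map_cont a ha ho (-e) }, ?_, ?_⟩
  · intro θ r
    exact TopC_map_a a ha.injective e (θ, r)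
  · intro x hx
    exact TopC_map_out a e x hx

end Pool.Agent.H.MP_1611f1_gt.PB.Mo
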