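import Pool.Agent.H.MP_1611f1_gt.PB.Mo.Space
import Pool.Agent.H.MP_1611f1_gt.PB.Stmt

/-!
MODEL OF THE FIBRE SURFACE: the combinatorial data of a braid word.
-/

namespace Pool.Agent.H.MP_1611f1_gt.PB.Mo

open Set

theorem Word_swap_lt {k x i : ℕ} (h : x + 1 < k) (hi : i < k) : Equiv.swap x (x + 1) i < k := by
  rw [Equiv.swap_apply_def]
  split_ifs <;> omega

theorem Word_level_lt {k c : ℕ} [NeZero c] {β : Fin c → ℕ} (h : ∀ m, β m + 1 < k) (t : ℕ) :
    level β t < k := by
  induction t with
  | zero =>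
    have := h 0
    show 0 < k
    omega
  | succ t ih => exact Word_swap_lt (h _) ih

theorem Word_ofNat_congr {c : ℕ} [NeZero c] {t t' : ℕ} (h : t % c = t' % c) :
    Fin.ofNat c t = Fin.ofNat c t' := Fin.ext h

/-- Equal levels at congruent times remain equal, and they were equal before. -/
theorem Word_shift {c : ℕ} [NeZero c] (β : Fin c → ℕ) {t t' : ℕ} (h : t % c = t' % c) (s : ℕ) :
    level β (t + s) = level β (t' + s) ↔ level β t = level β t' := by
  induction s with
  | zero => exact Iff.rfl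
  | succ s ih =>
    rw [← ih]
    have h1 : (t + s) % c = (t' + s) % c := by
      rw [Nat.add_mod, h, ← Nat.add_mod]
    show Equiv.swap (β (Fin.ofNat c (t + s))) (β (Fin.ofNat c (t + s)) + 1) (level β (t + s)) =
      Equiv.swap (β (Fin.ofNat c (t' + s))) (β (Fin.ofNat c (t' + s)) + 1) (level β (t' + s)) ↔ _
    rw [Word_ofNat_congr h1]
    exact (Equiv.swap _ _).injective.eq_iff

theorem Word_mul_mod (c q : ℕ) : (q * c) % c = 0 % c := by
  rw [Nat.mul_mod_left, Nat.zero_mod]

/-- one turn: the period and the injectivity -/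
theorem Word_turn {k c : ℕ} [NeZero c] {β : Fin c → ℕ} (hβ : Knot k β) :
    level β (k * c) = 0 ∧ ∀ a < k, ∀ b < k, level β (a * c) = level β (b * c) → a = b := by
  have hlt := Word_level_lt hβ.1
  have hmap : ∀ j ∈ Finset.range (k + 1), level β (j * c) ∈ Finset.range k := fun j _ =>
    Finset.mem_range.2 (hlt _)
  have hcard : (Finset.range k).card < (Finset.range (k + 1)).card := by simp
  -- a return time
  obtain ⟨q, hq0, hqk, hq⟩ : ∃ q, 0 < q ∧ q ≤ k ∧ level β (q * c) = 0 := by
    obtain ⟨a, ha, b, hb, hab, he⟩ := Finset.exists_ne_map_eq_of_card_lt_of_maps_to hcard hmap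
    rw [Finset.mem_range] at ha hb
    have key : ∀ a b : ℕ, a < b → b ≤ k → level β (a * c) = level β (b * c) →
        ∃ q, 0 < q ∧ q ≤ k ∧ level β (q * c) = 0 := by
      intro a b hab hb he
      refine ⟨b - a, by omega, by omega, ?_⟩
      have h1 := (Word_shift β (Word_mul_mod c (b - a)) (a * c)).1 (by
        rw [← add_mul, Nat.sub_add_cancel hab.le, zero_add]
        exact he.symm)
      exact h1
    rcases Nat.lt_or_gt_of_ne hab with h | h
    · exact key a b h (by omega) he
    · exact key b a h (by omega) he.symm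
  have hper : ∀ a, level β ((a + q) * c) = level β (a * c) := by
    intro a
    have h1 := (Word_shift β (Word_mul_mod c q) (a * c)).2 hq
    rw [← add_mul, add_comm q a, zero_add] at h1
    exact h1
  have hmod : ∀ a, level β ((a % q) * c) = level β (a * c) := by
    intro a
    induction a using Nat.strong_induction_on with
    | _ a ih =>
      rcases Nat.lt_or_ge a q with h | h
      · rw [Nat.mod_eq_of_lt h]
      · have h2 := hper (a - q)
        rw [Nat.sub_add_cancel h] at h2
        rw [h2, ← ih (a - q) (by omega), Nat.mod_eq_sub_mod h]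
  have hsurj : ∀ b ∈ Finset.range k, b ∈ (Finset.range q).image (fun j => level β (j * c)) := by
    intro b hb
    obtain ⟨a, ha⟩ := hβ.2 b (Finset.mem_range.1 hb)
    exact Finset.mem_image.2 ⟨a % q, Finset.mem_range.2 (Nat.mod_lt _ hq0), by rw [hmod, ha]⟩
  have h1 := Finset.card_le_card (show Finset.range k ⊆ _ from hsurj)
  have h2 := Finset.card_image_le (s := Finset.range q) (f := fun j => level β (j * c))
  simp only [Finset.card_range] at h1 h2
  have hqk' : q = k := by omega
  subst hqk'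
  refine ⟨hq, fun a ha b hb he => ?_⟩
  have h3 : ((Finset.range q).image (fun j => level β (j * c))).card = (Finset.range q).card := by
    rw [Finset.card_range]
    omega
  have h4 := Finset.card_image_iff.1 h3
  exact h4 (Finset.mem_coe.2 (Finset.mem_range.2 ha)) (Finset.mem_coe.2 (Finset.mem_range.2 hb)) he

theorem Word_per {k c : ℕ} [NeZero c] {β : Fin c → ℕ} (hβ : Knot k β) (t : ℕ) :
    level β (t + k * c) = level β t := by
  have h1 := (Word_shift β (Word_mul_mod c k) t).2 (Word_turn hβ).1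
  rw [zero_add, add_comm] at h1
  exact h1

theorem Word_mod {k c : ℕ} [NeZero c] {β : Fin c → ℕ} (hβ : Knot k β) (t : ℕ) :
    level β (t % (k * c)) = level β t := by
  induction t using Nat.strong_induction_on with
  | _ t ih =>
    rcases Nat.lt_or_ge t (k * c) with h | h
    · rw [Nat.mod_eq_of_lt h]
    · have hk : 0 < k := by
        have := hβ.1 0
        omega
      have hc : 0 < c := Nat.pos_of_ne_zero (NeZero.ne c)
      have hkc : 0 < k * c := Nat.mul_pos hk hc
      have h2 := Word_per hβ (t - k * c)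
      rw [Nat.sub_add_cancel h] at h2
      rw [h2, ← ih (t - k * c) (by omega), Nat.mod_eq_sub_mod h]

/-- Levels at congruent times in one period are different. -/
theorem Word_inj {k c : ℕ} [NeZero c] {β : Fin c → ℕ} (hβ : Knot k β) {s s' : ℕ}
    (hs : s < k * c) (hs' : s' < k * c) (h : s % c = s' % c) (he : level β s = level β s') :
    s = s' := by
  have hc : 0 < c := Nat.pos_of_ne_zero (NeZero.ne c)
  have e1 : s = s / c * c + s % c := by rw [mul_comm]; exact (Nat.div_add_mod s c).symm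
  have e2 : s' = s' / c * c + s % c := by rw [h, mul_comm]; exact (Nat.div_add_mod s' c).symm
  have h1 : (s / c * c) % c = (s' / c * c) % c := by
    rw [Nat.mul_mod_left, Nat.mul_mod_left]
  have h2 := (Word_shift β h1 (s % c)).1 (by rw [← e1, ← e2]; exact he)
  have h3 : s / c < k := Nat.div_lt_of_lt_mul (by rw [mul_comm]; exact hs)
  have h4 : s' / c < k := Nat.div_lt_of_lt_mul (by rw [mul_comm]; exact hs')
  have h5 := (Word_turn hβ).2 _ h3 _ h4 h2
  rw [e1, e2, h5]

theorem Word_onto {k c : ℕ} [NeZero c] {β : Fin c → ℕ} (hβ : Knot k β) {r i : ℕ} (hr : r < c)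
    (hi : i < k) : ∃ s < k * c, s % c = r ∧ level β s = i := by
  have hlt := Word_level_lt hβ.1
  have hb : ∀ a : Fin k, (a : ℕ) * c + r < k * c := by
    intro a
    have h1 : ((a : ℕ) + 1) * c ≤ k * c := Nat.mul_le_mul_right c a.2
    rw [add_mul, one_mul] at h1
    omega
  have hm : ∀ a : Fin k, ((a : ℕ) * c + r) % c = r := by
    intro a
    rw [add_comm, Nat.add_mul_mod_self_right, Nat.mod_eq_of_lt hr]
  have hi' : Function.Injective (fun a : Fin k => (⟨level β ((a : ℕ) * c + r), hlt _⟩ : Fin k)) := by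
    intro a b hab
    have h1 := Word_inj hβ (hb a) (hb b) (by rw [hm, hm]) (congrArg Fin.val hab)
    have h2 : (a : ℕ) * c = (b : ℕ) * c := by omega
    exact Fin.ext (Nat.eq_of_mul_eq_mul_right (by omega) h2)
  obtain ⟨a, ha⟩ := (Finite.injective_iff_surjective.1 hi') ⟨i, hi⟩
  exact ⟨(a : ℕ) * c + r, hb a, hm a, congrArg Fin.val ha⟩

/-- the index of the crossing -/
def Word_idx (c : ℕ) [NeZero c] (m : ℤ) : Fin c :=
  ⟨(m % (c : ℤ)).toNat, by
    have hc : (0 : ℤ) < c := by exact_mod_cast Nat.pos_of_ne_zero (NeZero.ne c)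
    have h1 := Int.emod_nonneg m hc.ne'
    have h2 := Int.emod_lt_of_pos m hc
    omega⟩

/-- PROOF: `σ m` = exchange of the levels `β (m mod c)` and `β (m mod c) + 1` in `Fin k`,
`lv t = level β (t mod k c)`. The walk visits the `k` levels at the times `0, c, …, (k - 1) c` (from
`Knot k β`: the map `a ↦ level β (a c)` from `{0, …, k - 1}` is onto the levels, because its values
form the orbit of a permutation (one turn) of the levels; so it is injective and the period is `k`); after each
partial turn the levels are exchanged by a permutation, so the walk visits every `(i, m)` once. -/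
theorem exists_comb {k c : ℕ} [NeZero c] {β : Fin c → ℕ} (hβ : Knot k β) :
    ∃ K : Comb c (k * c) (Fin k),
      (∀ t : ℕ, (K.lv t : ℕ) = level β t) ∧
      ∀ (m : Fin c) (i : Fin k), ((K.σ m i : Fin k) : ℕ) = Equiv.swap (β m) (β m + 1) i := by
  have hk : 0 < k := by
    have := hβ.1 0
    omega
  have hc : 0 < c := Nat.pos_of_ne_zero (NeZero.ne c)
  have hkc : 0 < k * c := Nat.mul_pos hk hc
  have hcz : (0 : ℤ) < c := by exact_mod_cast hc
  have hLz : (0 : ℤ) < ((k * c : ℕ) : ℤ) := by exact_mod_cast hkc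
  have hlt := Word_level_lt hβ.1
  have hdvd : (c : ℤ) ∣ ((k * c : ℕ) : ℤ) := ⟨k, by push_cast; ring⟩
  -- the residue of the time
  have hres : ∀ t : ℤ, ∃ s : ℕ, s < k * c ∧ (s : ℤ) = t % ((k * c : ℕ) : ℤ) := by
    intro t
    have h1 := Int.emod_nonneg t hLz.ne'
    have h2 := Int.emod_lt_of_pos t hLz
    exact ⟨(t % ((k * c : ℕ) : ℤ)).toNat, by omega, by omega⟩
  have hmod : ∀ (t : ℤ) (s : ℕ), (s : ℤ) = t % ((k * c : ℕ) : ℤ) →
      ((s % c : ℕ) : ℤ) = t % (c : ℤ) := by
    intro t s hs
    push_cast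
    rw [hs, Int.emod_emod_of_dvd t hdvd]
  have hidx : ∀ (t : ℤ) (s : ℕ), (s : ℤ) = t % ((k * c : ℕ) : ℤ) →
      Word_idx c t = Fin.ofNat c s := by
    intro t s hs
    have h1 := hmod t s hs
    refine Fin.ext ?_
    show (t % (c : ℤ)).toNat = s % c
    rw [← h1, Int.toNat_natCast]
  refine ⟨{
    σ := fun m i => ⟨Equiv.swap (β (Word_idx c m)) (β (Word_idx c m) + 1) i,
      Word_swap_lt (hβ.1 _) i.2⟩
    σ_per := ?_
    inv := ?_
    lv := fun t => ⟨level β (t % ((k * c : ℕ) : ℤ)).toNat, hlt _⟩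
    step := ?_
    per := ?_
    pos := hkc
    dvd := ⟨k, mul_comm k c⟩
    onto := ?_
    inj := ?_ }, ?_, ?_⟩
  · intro m
    have h1 : Word_idx c (m + c) = Word_idx c m := by
      refine Fin.ext ?_
      show ((m + (c : ℤ)) % (c : ℤ)).toNat = (m % (c : ℤ)).toNat
      rw [Int.add_emod_right]
    funext i
    simp only [h1]
  · intro m i
    refine Fin.ext ?_
    show Equiv.swap (β (Word_idx c m)) (β (Word_idx c m) + 1)
      (Equiv.swap (β (Word_idx c m)) (β (Word_idx c m) + 1) (i : ℕ)) = (i : ℕ)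
    rw [← Equiv.Perm.mul_apply, Equiv.swap_mul_self, Equiv.Perm.one_apply]
  · intro t
    obtain ⟨s, hs, he⟩ := hres t
    have e1 : (t % ((k * c : ℕ) : ℤ)).toNat = s := by rw [← he, Int.toNat_natCast]
    refine Fin.ext ?_
    show level β ((t + 1) % ((k * c : ℕ) : ℤ)).toNat =
      Equiv.swap (β (Word_idx c t)) (β (Word_idx c t) + 1) (level β (t % ((k * c : ℕ) : ℤ)).toNat)
    rw [e1, hidx t s he]
    show _ = level β (s + 1)
    have h2 : (t + 1) % ((k * c : ℕ) : ℤ) = (((s + 1) % (k * c) : ℕ) : ℤ) := by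
      have h3 : (t + 1) % ((k * c : ℕ) : ℤ) = ((s : ℤ) + 1) % ((k * c : ℕ) : ℤ) := by
        rw [he, Int.emod_add_emod]
      rw [h3]
      push_cast
      rfl
    rw [h2, Int.toNat_natCast, Word_mod hβ]
  · intro t
    refine Fin.ext ?_
    show level β ((t + ((k * c : ℕ) : ℤ)) % ((k * c : ℕ) : ℤ)).toNat = _
    rw [Int.add_emod_right]
  · intro i m
    have h1 := Int.emod_nonneg m hcz.ne'
    have h2 := Int.emod_lt_of_pos m hcz
    obtain ⟨s, hs, hsr, hsi⟩ := Word_onto hβ (r := (m % (c : ℤ)).toNat) (i := i) (by omega) i.2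
    refine ⟨s, Fin.ext ?_, ?_⟩
    · show level β ((s : ℤ) % ((k * c : ℕ) : ℤ)).toNat = i
      have h3 : (s : ℤ) % ((k * c : ℕ) : ℤ) = ((s % (k * c) : ℕ) : ℤ) := by push_cast; rfl
      rw [h3, Int.toNat_natCast, Nat.mod_eq_of_lt hs]
      exact hsi
    · refine Int.ModEq.dvd ?_
      have h3 : (s : ℤ) % (c : ℤ) = m % (c : ℤ) := by
        have h4 : ((s % c : ℕ) : ℤ) = m % (c : ℤ) := by rw [hsr]; omega
        rw [← h4]
        push_cast
        rfl
      exact h3.symm
  · intro t t' h h'
    obtain ⟨s, hs, he⟩ := hres t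
    obtain ⟨s', hs', he'⟩ := hres t'
    have h1 : level β (t % ((k * c : ℕ) : ℤ)).toNat = level β (t' % ((k * c : ℕ) : ℤ)).toNat :=
      congrArg Fin.val h
    rw [← he, ← he', Int.toNat_natCast, Int.toNat_natCast] at h1
    have h2 : t % (c : ℤ) = t' % (c : ℤ) := (Int.emod_eq_emod_iff_emod_sub_eq_zero.2 (Int.emod_eq_zero_of_dvd h'))
    have h3 : s % c = s' % c := by
      have a1 := hmod t s he
      have a2 := hmod t' s' he'
      omega
    have h4 := Word_inj hβ hs hs' h3 h1
    refine Int.ModEq.dvd ?_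
    show t' % _ = t % _
    rw [← he, ← he', h4]
  · intro t
    show level β ((t : ℤ) % ((k * c : ℕ) : ℤ)).toNat = level β t
    have h3 : (t : ℤ) % ((k * c : ℕ) : ℤ) = ((t % (k * c) : ℕ) : ℤ) := by push_cast; rfl
    rw [h3, Int.toNat_natCast, Word_mod hβ]
  · intro m i
    have h1 : Word_idx c ((m : ℕ) : ℤ) = m := by
      refine Fin.ext ?_
      show (((m : ℕ) : ℤ) % (c : ℤ)).toNat = m
      rw [Int.emod_eq_of_lt (by omega) (by omega), Int.toNat_natCast]
    show Equiv.swap (β (Word_idx c ((m : ℕ) : ℤ))) (β (Word_idx c ((m : ℕ) : ℤ)) + 1) (i : ℕ) = _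
    rw [h1]

end Pool.Agent.H.MP_1611f1_gt.PB.Mo
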