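import Pool.Agent.H.MP_1611f1_gt.PB.Mo.ColB
import Pool.Agent.H.MP_1611f1_gt.PB.Mo.KapA
import Pool.Agent.H.MP_1611f1_gt.PB.Mo.KapB
import Pool.Agent.H.MP_1611f1_gt.PB.Mo.Ann
import Pool.Agent.H.MP_1611f1_gt.PB.Mo.Word
import Pool.Agent.H.MP_1611f1_gt.PB.Twist
import Pool.Agent.H.MP_1611f1_gt.PB.Mo.ChordC
import Pool.Agent.H.MP_1611f1_gt.PB.Mo.TopC

/-!
MODEL OF THE FIBRE SURFACE: existence of the surface, the strips and the twists.
-/

namespace Pool.Agent.H.MP_1611f1_gt.PB.Mo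

open Complex Set Topology

noncomputable section

section

variable {c L : ℕ} {I : Type} [Fact (3 ≤ c)] (K : Comb c L I)

/-- the properties of the annulus of a brick -/
structure IsAnn [TopologicalSpace I] (i j : I) (m m' : ℤ)
    (a : AddCircle (1 : ℝ) × Icc (-1 : ℝ) 1 → Sf K) : Prop where
  emb : IsClosedEmbedding a
  inner : IsOpen (a '' {z | |(z.2 : ℝ)| < 1})
  fst : ∀ (t : ℝ) (_ : t ∈ Icc (0 : ℝ) 1) (r : Icc (-1 : ℝ) 1),
    ∃ hz, a (((t / 2 : ℝ) : AddCircle (1 : ℝ)), r) = pt K i (ch c m m' t (wd c * r)) hz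
  snd : ∀ (t : ℝ) (_ : t ∈ Icc (0 : ℝ) 1) (r : Icc (-1 : ℝ) 1),
    ∃ hz, a (((1 - t / 2 : ℝ) : AddCircle (1 : ℝ)), r) = pt K j (ch c m m' t (-(wd c * r))) hz

theorem circle_cases (θ : AddCircle (1 : ℝ)) : ∃ t ∈ Icc (0 : ℝ) 1,
    θ = ((t / 2 : ℝ) : AddCircle (1 : ℝ)) ∨ θ = ((1 - t / 2 : ℝ) : AddCircle (1 : ℝ)) := by
  obtain ⟨x, hx, rfl⟩ : ∃ x ∈ Ico (0 : ℝ) 1, (x : AddCircle (1 : ℝ)) = θ := by
    have h := AddCircle.coe_image_Ico_eq (1 : ℝ) 0
    have h2 : θ ∈ (QuotientAddGroup.mk : ℝ → AddCircle (1 : ℝ)) '' Ico (0 : ℝ) (0 + 1) := by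
      rw [h]
      exact mem_univ _
    rw [zero_add] at h2
    exact h2
  rcases le_total x (1 / 2) with h | h
  · exact ⟨2 * x, ⟨by linarith [hx.1], by linarith⟩, Or.inl (by congr 1; ring)⟩
  · exact ⟨2 * (1 - x), ⟨by linarith [hx.2], by linarith⟩, Or.inr (by congr 1; ring)⟩

theorem wd_nonneg : 0 ≤ wd c := by
  have h1 := (ca_pos (c := c) Fact.out).le
  unfold wd
  positivity

theorem wd_mul_le (r : Icc (-1 : ℝ) 1) : |wd c * r| ≤ wd c := by
  rw [abs_mul, abs_of_nonneg wd_nonneg]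
  have : |(r : ℝ)| ≤ 1 := abs_le.2 ⟨r.2.1, r.2.2⟩
  nlinarith [wd_nonneg (c := c)]

variable {K}
variable [TopologicalSpace I] {i j : I} {m m' : ℤ} {a : AddCircle (1 : ℝ) × Icc (-1 : ℝ) 1 → Sf K}

/-- the points of the annulus -/
theorem IsAnn.cases (ha : IsAnn K i j m m' a) (x) : ∃ p, (p = i ∨ p = j) ∧
    ∃ t ∈ Icc (0 : ℝ) 1, ∃ s, |s| ≤ wd c ∧ ∃ hz, a x = pt K p (ch c m m' t s) hz := by
  obtain ⟨θ, r⟩ := x
  obtain ⟨t, ht, h | h⟩ := circle_cases θ
  · obtain ⟨hz, h2⟩ := ha.fst t ht r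
    exact ⟨i, Or.inl rfl, t, ht, wd c * r, wd_mul_le r, hz, by rw [h, h2]⟩
  · obtain ⟨hz, h2⟩ := ha.snd t ht r
    exact ⟨j, Or.inr rfl, t, ht, -(wd c * r), by rw [abs_neg]; exact wd_mul_le r, hz,
      by rw [h, h2]⟩

/-- if a point of the annulus is the point `w` of the polygon `p`, then `w` is in the band -/
theorem IsAnn.mem (ha : IsAnn K i j m m' a) (h : m < m') (h' : m' < m + c) (hj : K.σ m i = j)
    (hj' : K.σ m' i = j) (x) {p : I} {w : ℂ} {hw : w ∈ Pg c} (hx : a x = pt K p w hw) :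
    (p = i ∨ p = j) ∧ ∃ t ∈ Icc (0 : ℝ) 1, ∃ s, |s| ≤ wd c ∧ w = ch c m m' t s := by
  obtain ⟨q, hq, t, ht, s, hs, hz, h1⟩ := ha.cases x
  rw [hx] at h1
  have h2 := (pt_eq_iff K hz hw).1 h1.symm
  rcases h2 with ⟨rfl, h2⟩ | ⟨l, hl, h2, h3⟩
  · exact ⟨hq, t, ht, s, hs, h2.symm⟩
  · have hi1 : K.σ m j = i := by rw [← hj, K.inv]
    have hi2 : K.σ m' j = i := by rw [← hj', K.inv]
    have hW : ∀ {l m : ℤ}, (c : ℤ) ∣ l - m → W c (2 * l) = W c (2 * m) := fun {l m} hlm =>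
      W_per (by have : 3 ≤ c := Fact.out; omega) (by
        rw [← mul_sub]
        exact mul_dvd_mul_left 2 hlm)
    rcases ch_side Fact.out h h' ht hs hl with ⟨h4, rfl⟩ | ⟨h4, rfl⟩
    · refine ⟨?_, 0, ht, -s, by rwa [abs_neg], ?_⟩
      · rw [h2, K.σ_congr h4]
        rcases hq with rfl | rfl
        · exact Or.inr hj
        · exact Or.inl hi1
      · rw [h3, hW h4, ch_glue_zero]
    · refine ⟨?_, 1, ht, -s, by rwa [abs_neg], ?_⟩
      · rw [h2, K.σ_congr h4]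
        rcases hq with rfl | rfl
        · exact Or.inr hj'
        · exact Or.inl hi2
      · rw [h3, hW h4, ch_glue_one]

/-- the annulus does not meet the collar -/
theorem IsAnn.collar (ha : IsAnn K i j m m' a) (h : m < m') (h' : m' < m + c)
    (hj : K.σ m i = j) (hj' : K.σ m' i = j) (x) (t : ℤ) (u : ℝ) (hu : |u| ≤ 1 / 2)
    (r : Ioo (1 : ℝ) 2) : a x ≠ cpt K t u hu r := by
  intro hx
  obtain ⟨-, t', ht', s, hs, h1⟩ := ha.mem h h' hj hj' x hx
  have h2 := ch_corner (c := c) Fact.out m m' ht' hs t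
  rw [← h1, R_cp] at h2
  have h3 := rad_lt (c := c) r
  have h4 := sa_pos (c := c) Fact.out
  nlinarith

/-- two annuli are disjoint if their bands are disjoint or their polygons are different -/
theorem IsAnn.disj (ha : IsAnn K i j m m' a) (h : m < m') (h' : m' < m + c)
    (hj : K.σ m i = j) (hj' : K.σ m' i = j)
    {i₂ j₂ : I} {d d' : ℤ} {b : AddCircle (1 : ℝ) × Icc (-1 : ℝ) 1 → Sf K}
    (hb : IsAnn K i₂ j₂ d d' b)
    (H : (i ≠ i₂ ∧ i ≠ j₂ ∧ j ≠ i₂ ∧ j ≠ j₂) ∨ ∀ t ∈ Icc (0 : ℝ) 1, ∀ s, |s| ≤ wd c →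
      ∀ t' ∈ Icc (0 : ℝ) 1, ∀ s', |s'| ≤ wd c → ch c m m' t s ≠ ch c d d' t' s') :
    Disjoint (range a) (range b) := by
  rw [Set.disjoint_left]
  rintro _ ⟨x, rfl⟩ ⟨y, hy⟩
  obtain ⟨q, hq, t, ht, s, hs, hz, h1⟩ := hb.cases y
  rw [hy] at h1
  obtain ⟨hp, t', ht', s', hs', h2⟩ := ha.mem h h' hj hj' x h1
  rcases H with ⟨g1, g2, g3, g4⟩ | H
  · rcases hp with rfl | rfl <;> rcases hq with hq | hq
    · exact g1 hq
    · exact g2 hq
    · exact g3 hq
    · exact g4 hq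
  · exact H t' ht' s' hs' t ht s hs h2.symm

/-- the strips on the annulus -/
theorem IsAnn.kap_zero (ha : IsAnn K i j m m' a) {sg : I → ℤ} {l : ℤ}
    {F : C(Sf K, AddCircle (1 : ℝ))}
    (hF : ∀ (i : I) (z : ℂ) (hz : z ∈ Pg c),
      F (pt K i z hz) = (((sg i : ℝ) * kp c l z : ℝ) : AddCircle (1 : ℝ)))
    (h1 : ¬ (c : ℤ) ∣ l - m) (h2 : ¬ (c : ℤ) ∣ l - m') (x) : F (a x) = 0 := by
  obtain ⟨q, hq, t, ht, s, hs, hz, h3⟩ := ha.cases x
  rw [h3, hF, ch_kp Fact.out h1 h2 ht hs, mul_zero]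
  exact AddCircle.coe_zero ..

theorem half_iff {v : ℝ} (hv0 : 0 ≤ v) (hv : v ≤ 1 / 2) {σ : ℤ} (hσ : σ = 1 ∨ σ = -1) :
    ((((σ : ℝ) * v : ℝ)) : AddCircle (1 : ℝ)) = ((1 / 2 : ℝ) : AddCircle (1 : ℝ)) ↔
      v = 1 / 2 := by
  constructor
  · intro h
    rw [← sub_eq_zero, ← AddCircle.coe_sub, AddCircle.coe_eq_zero_iff] at h
    obtain ⟨n, hn⟩ := h
    rw [zsmul_eq_mul, mul_one] at hn
    rcases hσ with rfl | rfl
    · push_cast at hn
      have h1 : (-1 : ℝ) < n := by linarith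
      have h2 : (n : ℝ) < 1 := by linarith
      have h1' : (-1 : ℤ) < n := by exact_mod_cast h1
      have h2' : n < (1 : ℤ) := by exact_mod_cast h2
      have : n = 0 := by omega
      subst this
      push_cast at hn
      linarith
    · push_cast at hn
      have h1 : (-2 : ℝ) < n := by linarith
      have h2 : (n : ℝ) < 0 := by linarith
      have h1' : (-2 : ℤ) < n := by exact_mod_cast h1
      have h2' : n < (0 : ℤ) := by exact_mod_cast h2
      have : n = -1 := by omega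
      subst this
      push_cast at hn
      linarith
  · rintro rfl
    rcases hσ with rfl | rfl
    · congr 1
      push_cast
      ring
    · rw [← sub_eq_zero, ← AddCircle.coe_sub, AddCircle.coe_eq_zero_iff]
      refine ⟨-1, ?_⟩
      rw [zsmul_eq_mul, mul_one]
      push_cast
      ring

theorem side_of_kp {z : ℂ} (hz : z ∈ Pg c) {l : ℤ} (h : kp c l z = 1 / 2) :
    R c (2 * l) z = ca c := by
  have h1 : R c (2 * l) z ≤ ca c := hz.1 l
  have h2 := dv_pos (c := c) Fact.out hz l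
  have h3 := ca_pos (c := c) Fact.out
  have h4 := sa_pos (c := c) Fact.out
  by_contra hne
  have h5 : 0 < ca c - R c (2 * l) z := by
    rcases lt_or_eq_of_le h1 with h | h
    · linarith
    · exact absurd h hne
  have h6 : 0 < (ca c - R c (2 * l) z) / (ca c * dv c l z) *
      (1 + 3 / sa c ^ 2 * max 0 (dv c l z - sa c ^ 2 / 2)) := by
    have : 0 ≤ max 0 (dv c l z - sa c ^ 2 / 2) := le_max_left _ _
    positivity
  have h7 : kp c l z < 1 / 2 := by
    unfold kp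
    have : max 0 (1 - (ca c - R c (2 * l) z) / (ca c * dv c l z) *
        (1 + 3 / sa c ^ 2 * max 0 (dv c l z - sa c ^ 2 / 2))) < 1 :=
      max_lt one_pos (by linarith)
    linarith
  linarith

theorem ch_zero (m m' : ℤ) (s : ℝ) : R c (2 * m) (ch c m m' 0 s) = ca c := by
  unfold ch
  have : (((1 - 0 : ℝ) : ℂ)) * fr c (2 * m) (ca c) s + ((0 : ℝ) : ℂ) * fr c (2 * m') (ca c) (-s) =
      fr c (2 * m) (ca c) s := by
    push_cast
    ring
  rw [this, R_fr]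

theorem ch_one (m m' : ℤ) (s : ℝ) : R c (2 * m') (ch c m m' 1 s) = ca c := by
  unfold ch
  have : (((1 - 1 : ℝ) : ℂ)) * fr c (2 * m) (ca c) s + ((1 : ℝ) : ℂ) * fr c (2 * m') (ca c) (-s) =
      fr c (2 * m') (ca c) (-s) := by
    push_cast
    ring
  rw [this, R_fr]

omit [Fact (3 ≤ c)] in
theorem not_dvd_of_lt {m m' : ℤ} (h : m < m') (h' : m' < m + c) : ¬ (c : ℤ) ∣ m - m' := by
  rintro ⟨q, hq⟩
  have h1 : (c : ℤ) * q < 0 := by omega
  have h2 : -(c : ℤ) < c * q := by omega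
  have hc : 0 < (c : ℤ) := by omega
  have h3 : q < 0 := by
    by_contra h4
    push Not at h4
    nlinarith
  have h5 : -1 < q := by
    by_contra h4
    push Not at h4
    nlinarith
  omega

/-- the cocore `m` is met once -/
theorem IsAnn.kap_fst (ha : IsAnn K i j m m' a) (h : m < m') (h' : m' < m + c) {sg : I → ℤ}
    {F : C(Sf K, AddCircle (1 : ℝ))}
    (hF : ∀ (i : I) (z : ℂ) (hz : z ∈ Pg c),
      F (pt K i z hz) = (((sg i : ℝ) * kp c m z : ℝ) : AddCircle (1 : ℝ)))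
    (hi : sg i = 1 ∨ sg i = -1) (hj : sg j = 1 ∨ sg j = -1) (θ r) :
    F (a (θ, r)) = ((1 / 2 : ℝ) : AddCircle (1 : ℝ)) ↔ θ = 0 := by
  constructor
  · intro h1
    obtain ⟨t, ht, h2⟩ := circle_cases θ
    have key : ∀ p, (p = i ∨ p = j) → ∀ s, |s| ≤ wd c → ∀ hz,
        F (pt K p (ch c m m' t s) hz) = ((1 / 2 : ℝ) : AddCircle (1 : ℝ)) → t = 0 := by
      intro p hp s hs hz h3
      rw [hF, half_iff (kp_nonneg c m _) (kp_le_half Fact.out hz m)
        (by rcases hp with rfl | rfl <;> assumption)] at h3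
      rcases ch_side Fact.out h h' ht hs (side_of_kp hz h3) with ⟨-, h4⟩ | ⟨h4, -⟩
      · exact h4
      · exact absurd h4 (not_dvd_of_lt h h')
    rcases h2 with rfl | rfl
    · obtain ⟨hz, h3⟩ := ha.fst t ht r
      rw [h3] at h1
      rw [key i (Or.inl rfl) _ (wd_mul_le r) hz h1, zero_div]
      exact AddCircle.coe_zero ..
    · obtain ⟨hz, h3⟩ := ha.snd t ht r
      rw [h3] at h1
      rw [key j (Or.inr rfl) _ (by rw [abs_neg]; exact wd_mul_le r) hz h1, zero_div, sub_zero]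
      exact AddCircle.coe_period 1
  · rintro rfl
    obtain ⟨hz, h3⟩ := ha.fst 0 ⟨le_rfl, zero_le_one⟩ r
    have h4 : (((0 / 2 : ℝ)) : AddCircle (1 : ℝ)) = 0 := by
      rw [zero_div]
      exact AddCircle.coe_zero ..
    rw [h4] at h3
    rw [h3, hF, half_iff (kp_nonneg c m _) (kp_le_half Fact.out hz m) hi,
      kp_side c (ch_zero m m' _)]

/-- the cocore `m'` is met once -/
theorem IsAnn.kap_snd (ha : IsAnn K i j m m' a) (h : m < m') (h' : m' < m + c) {sg : I → ℤ}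
    {F : C(Sf K, AddCircle (1 : ℝ))}
    (hF : ∀ (i : I) (z : ℂ) (hz : z ∈ Pg c),
      F (pt K i z hz) = (((sg i : ℝ) * kp c m' z : ℝ) : AddCircle (1 : ℝ)))
    (hi : sg i = 1 ∨ sg i = -1) (hj : sg j = 1 ∨ sg j = -1) (θ r) :
    F (a (θ, r)) = ((1 / 2 : ℝ) : AddCircle (1 : ℝ)) ↔
      θ = ((1 / 2 : ℝ) : AddCircle (1 : ℝ)) := by
  constructor
  · intro h1
    obtain ⟨t, ht, h2⟩ := circle_cases θ
    have key : ∀ p, (p = i ∨ p = j) → ∀ s, |s| ≤ wd c → ∀ hz,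
        F (pt K p (ch c m m' t s) hz) = ((1 / 2 : ℝ) : AddCircle (1 : ℝ)) → t = 1 := by
      intro p hp s hs hz h3
      rw [hF, half_iff (kp_nonneg c m' _) (kp_le_half Fact.out hz m')
        (by rcases hp with rfl | rfl <;> assumption)] at h3
      rcases ch_side Fact.out h h' ht hs (side_of_kp hz h3) with ⟨h4, -⟩ | ⟨-, h4⟩
      · exact absurd ((dvd_neg.2 h4)) (by rw [neg_sub]; exact not_dvd_of_lt h h')
      · exact h4
    rcases h2 with rfl | rfl
    · obtain ⟨hz, h3⟩ := ha.fst t ht r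
      rw [h3] at h1
      rw [key i (Or.inl rfl) _ (wd_mul_le r) hz h1]
    · obtain ⟨hz, h3⟩ := ha.snd t ht r
      rw [h3] at h1
      rw [key j (Or.inr rfl) _ (by rw [abs_neg]; exact wd_mul_le r) hz h1]
      congr 1
      norm_num
  · rintro rfl
    obtain ⟨hz, h3⟩ := ha.fst 1 ⟨zero_le_one, le_rfl⟩ r
    rw [h3, hF, half_iff (kp_nonneg c m' _) (kp_le_half Fact.out hz m') hi,
      kp_side c (ch_one m m' _)]

end

section

variable {S : Type*} [TopologicalSpace S] {a b : AddCircle (1 : ℝ) × Icc (-1 : ℝ) 1 → S}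
  {e e' : ℤ} {T T' : S ≃ₜ S}

theorem _root_.Pool.Agent.H.MP_1611f1_gt.PB.IsTwist.mem_range (h : IsTwist a e T) {x : S}
    (hx : x ∈ range a) : T x ∈ range a := by
  obtain ⟨⟨θ, r⟩, rfl⟩ := hx
  rw [h.on_annulus]
  exact mem_range_self _

theorem twist_commute (h : IsTwist a e T) (h' : IsTwist b e' T')
    (hd : Disjoint (range a) (range b)) : T * T' = T' * T := by
  ext x
  show T (T' x) = T' (T x)
  by_cases hx : x ∈ range a
  · have h1 : x ∉ range b := Set.disjoint_left.1 hd hx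
    have h2 : T x ∉ range b := Set.disjoint_left.1 hd (h.mem_range hx)
    rw [h'.outside x h1, h'.outside _ h2]
  · by_cases hy : x ∈ range b
    · have h2 : T' x ∉ range a := Set.disjoint_right.1 hd (h'.mem_range hy)
      rw [h.outside _ h2, h.outside x hx]
    · rw [h'.outside x hy, h.outside x hx, h'.outside x hy]

theorem twist_kap (h : IsTwist a e T) {Z : Type*} [Zero Z] {F : S → Z} (hF : ∀ x, F (a x) = 0) (x : S) :
    F (T x) = F x := by
  by_cases hx : x ∈ range a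
  · obtain ⟨y, hy⟩ := h.mem_range hx
    obtain ⟨w, rfl⟩ := hx
    rw [← hy, hF, hF]
  · rw [h.outside x hx]

end

end

end Pool.Agent.H.MP_1611f1_gt.PB.Mo
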