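import Pool.Agent.H.MP_1611f1_gt.PB.Mo.TrigB

/-!
MODEL OF THE FIBRE SURFACE: the polygon, its sides and corners.
-/

namespace Pool.Agent.H.MP_1611f1_gt.PB.Mo

open Complex Set

noncomputable section

variable {c : ℕ}

theorem PolyA_ext (c : ℕ) (i : ℤ) {z w : ℂ} (h1 : R c i z = R c i w) (h2 : J c i z = J c i w) :
    z = w := by
  rw [← fr_R_J c i z, h1, h2, fr_R_J]

theorem PolyA_le (hc : 3 ≤ c) {i j : ℤ} (h : ¬ (2 * c : ℤ) ∣ j - i) : R c i (W c j) ≤ ca c := by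
  rw [R_W]
  have h1 := cos_le_ca hc h
  push_cast at h1
  exact h1

theorem PolyA_odd (c : ℕ) {n k : ℤ} (h : n = 2 * k + 1) : ¬ (2 * c : ℤ) ∣ n := by
  rintro ⟨q, hq⟩
  have h1 : 2 * k + 1 = 2 * ((c : ℤ) * q) := by rw [← h, hq]; ring
  omega

theorem PolyA_two (hc : 3 ≤ c) {i j n : ℤ} (h : j - i = 2 * n) (hn : ¬ (c : ℤ) ∣ n) :
    R c i (W c j) ≤ 2 * ca c ^ 2 - 1 := by
  rw [R_W]
  have e : ((j : ℝ) - (i : ℝ)) = 2 * n := by exact_mod_cast h
  rw [e]
  exact cos_two_le hc hn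

theorem PolyA_RW (c : ℕ) (i : ℤ) : R c i (W c i) = 1 := by
  rw [R_W, sub_self, mul_zero, zero_div, Real.cos_zero]

theorem PolyA_JW (c : ℕ) (i : ℤ) : J c i (W c i) = 0 := by
  rw [J_W, sub_self, mul_zero, zero_div, Real.sin_zero]

theorem PolyA_RW1 (c : ℕ) (i : ℤ) : R c i (W c (i + 1)) = ca c := by
  rw [R_W]
  push_cast
  rw [add_sub_cancel_left, mul_one]
  rfl

theorem PolyA_JW1 (c : ℕ) (i : ℤ) : J c i (W c (i + 1)) = sa c := by
  rw [J_W]
  push_cast
  rw [add_sub_cancel_left, mul_one]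
  rfl

theorem PolyA_RW2 (c : ℕ) (i : ℤ) : R c i (W c (i - 1)) = ca c := by
  rw [R_W]
  push_cast
  rw [show ((i : ℝ) - 1 - i) = -1 by ring, mul_neg, mul_one, neg_div, Real.cos_neg]
  rfl

theorem PolyA_JW2 (c : ℕ) (i : ℤ) : J c i (W c (i - 1)) = - sa c := by
  rw [J_W]
  push_cast
  rw [show ((i : ℝ) - 1 - i) = -1 by ring, mul_neg, mul_one, neg_div, Real.sin_neg]
  rfl

/-- the component in a general direction -/
theorem PolyA_rot (c : ℕ) (i k : ℤ) (z : ℂ) : R c (i + k) z =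
    R c i z * Real.cos (Real.pi * k / c) + J c i z * Real.sin (Real.pi * k / c) := by
  have h1 : z * (starRingEnd ℂ) (W c (i + k)) =
      (z * (starRingEnd ℂ) (W c i)) * (starRingEnd ℂ) (W c k) := by
    rw [W_add, map_mul, mul_assoc]
  have h2 : (W c k).re = Real.cos (Real.pi * k / c) := by
    unfold W
    rw [Complex.exp_ofReal_mul_I_re]
  have h3 : (W c k).im = Real.sin (Real.pi * k / c) := by
    unfold W
    rw [Complex.exp_ofReal_mul_I_im]
  unfold R J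
  rw [h1, Complex.mul_re, Complex.conj_re, Complex.conj_im, h2, h3]
  ring

/-- the form of a point on a side -/
theorem PolyA_side (hc : 3 ≤ c) {z : ℂ} (hz : z ∈ Pg c) {l : ℤ} (hl : R c (2 * l) z = ca c) :
    ∃ t : ℝ, 0 ≤ t ∧ t < 1 ∧
      (z = ((ca c * (1 - t) : ℝ) : ℂ) * W c (2 * l) + (t : ℂ) * W c (2 * l + 1) ∨
        z = ((ca c * (1 - t) : ℝ) : ℂ) * W c (2 * l) + (t : ℂ) * W c (2 * l - 1)) := by
  have hs := sa_pos hc
  have hq := ca_sq_add c
  have h1 : R c (2 * l + 1) z < 1 := by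
    have := hz.2 (l + 1)
    rwa [show 2 * (l + 1) - 1 = 2 * l + 1 by ring] at this
  have h2 : R c (2 * l - 1) z < 1 := hz.2 l
  rw [R_succ, hl] at h1
  rw [R_pred, hl] at h2
  have h3 : J c (2 * l) z < sa c := by
    by_contra h
    nlinarith
  have h4 : - J c (2 * l) z < sa c := by
    by_contra h
    nlinarith
  rcases le_total 0 (J c (2 * l) z) with h5 | h5
  · refine ⟨J c (2 * l) z / sa c, div_nonneg h5 hs.le, (div_lt_one hs).2 h3, Or.inl ?_⟩
    apply PolyA_ext c (2 * l)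
    · rw [R_add, R_smul, R_smul, PolyA_RW, PolyA_RW1, hl]
      ring
    · rw [J_add, J_smul, J_smul, PolyA_JW, PolyA_JW1]
      field_simp
      ring
  · refine ⟨- J c (2 * l) z / sa c, div_nonneg (by linarith) hs.le, (div_lt_one hs).2 h4,
      Or.inr ?_⟩
    apply PolyA_ext c (2 * l)
    · rw [R_add, R_smul, R_smul, PolyA_RW, PolyA_RW2, hl]
      ring
    · rw [J_add, J_smul, J_smul, PolyA_JW, PolyA_JW2]
      field_simp
      ring

theorem PolyA_cA (hc : 3 ≤ c) {z : ℂ} {l m : ℤ} {x y : ℝ} (hx : 0 ≤ x) (hy : 0 ≤ y)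
    (hz : z = (x : ℂ) * W c (2 * l) + (y : ℂ) * W c (2 * l + 1)) (hl : R c (2 * l) z ≤ ca c)
    (hm : ca c ^ 2 < R c (2 * m - 1) z) : (c : ℤ) ∣ m - (l + 1) := by
  by_contra h
  have h' : ¬ (c : ℤ) ∣ l + 1 - m := fun h1 => h (by rw [← dvd_neg]; simpa using h1)
  have hp := ca_pos hc
  have h1 := ca_lt_one hc
  have e1 : R c (2 * m - 1) (W c (2 * l)) ≤ ca c :=
    PolyA_le hc (PolyA_odd c (k := l - m) (by ring))
  have e2 : R c (2 * m - 1) (W c (2 * l + 1)) ≤ 2 * ca c ^ 2 - 1 :=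
    PolyA_two hc (n := l + 1 - m) (by ring) h'
  have e3 : x + y * ca c ≤ ca c := by
    rw [hz, R_add, R_smul, R_smul, PolyA_RW, PolyA_RW1, mul_one] at hl
    exact hl
  rw [hz, R_add, R_smul, R_smul] at hm
  have e4 := mul_le_mul_of_nonneg_left e1 hx
  have e5 := mul_le_mul_of_nonneg_left e2 hy
  have e6 := mul_le_mul_of_nonneg_left e3 hp.le
  have e7 : y * (1 - ca c ^ 2) ≥ 0 := mul_nonneg hy (by nlinarith)
  nlinarith

theorem PolyA_cB (hc : 3 ≤ c) {z : ℂ} {l m : ℤ} {x y : ℝ} (hx : 0 ≤ x) (hy : 0 ≤ y)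
    (hz : z = (x : ℂ) * W c (2 * l) + (y : ℂ) * W c (2 * l - 1)) (hl : R c (2 * l) z ≤ ca c)
    (hm : ca c ^ 2 < R c (2 * m - 1) z) : (c : ℤ) ∣ m - l := by
  by_contra h
  have h' : ¬ (c : ℤ) ∣ l - m := fun h1 => h (by rw [← dvd_neg]; simpa using h1)
  have hp := ca_pos hc
  have h1 := ca_lt_one hc
  have e1 : R c (2 * m - 1) (W c (2 * l)) ≤ ca c :=
    PolyA_le hc (PolyA_odd c (k := l - m) (by ring))
  have e2 : R c (2 * m - 1) (W c (2 * l - 1)) ≤ 2 * ca c ^ 2 - 1 :=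
    PolyA_two hc (n := l - m) (by ring) h'
  have e3 : x + y * ca c ≤ ca c := by
    rw [hz, R_add, R_smul, R_smul, PolyA_RW, PolyA_RW2, mul_one] at hl
    exact hl
  rw [hz, R_add, R_smul, R_smul] at hm
  have e4 := mul_le_mul_of_nonneg_left e1 hx
  have e5 := mul_le_mul_of_nonneg_left e2 hy
  have e6 := mul_le_mul_of_nonneg_left e3 hp.le
  have e7 : y * (1 - ca c ^ 2) ≥ 0 := mul_nonneg hy (by nlinarith)
  nlinarith

/-- in every cone there is only one corner -/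
theorem PolyA_cone (hc : 3 ≤ c) {z : ℂ} (hz : z ∈ Pg c) :
    ∃ n : ℤ, ∀ m : ℤ, ca c ^ 2 < R c (2 * m - 1) z → (c : ℤ) ∣ m - n := by
  obtain ⟨j, x, y, hx, hy, e⟩ := exists_cone hc z
  rcases Int.even_or_odd' j with ⟨l, rfl | rfl⟩
  · exact ⟨l + 1, fun m hm => PolyA_cA hc hx hy e (hz.1 l) hm⟩
  · refine ⟨l + 1, fun m hm => PolyA_cB hc hy hx ?_ (hz.1 (l + 1)) hm⟩
    rw [e, add_comm, show 2 * (l + 1) - 1 = 2 * l + 1 by ring,
      show 2 * (l + 1) = 2 * l + 1 + 1 by ring]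

theorem convex_Pg (c : ℕ) : Convex ℝ (Pg c) := by
  intro x hx y hy a b ha hb hab
  have key : ∀ j : ℤ, R c j (a • x + b • y) = a * R c j x + b * R c j y := by
    intro j
    rw [Complex.real_smul, Complex.real_smul, R_add, R_smul, R_smul]
  constructor
  · intro m
    rw [key]
    have h1 := mul_le_mul_of_nonneg_left (hx.1 m) ha
    have h2 := mul_le_mul_of_nonneg_left (hy.1 m) hb
    have h3 : a * ca c + b * ca c = ca c := by rw [← add_mul, hab, one_mul]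
    linarith
  · intro m
    rw [key]
    have h1 := hx.2 m
    have h2 := hy.2 m
    rcases ha.eq_or_lt with h0 | h0
    · have hb1 : b = 1 := by linarith
      rw [← h0, hb1]
      linarith
    · have h3 := mul_lt_mul_of_pos_left h1 h0
      have h4 := mul_le_mul_of_nonneg_left h2.le hb
      linarith

/-- a point of `Pg c` lies on at most one side. PROOF: `z = W (2 l) (ca + i y)`, `|y| < sa` (both
vertices of the side `l` are excluded); `y ≥ 0`: `z = ca (1 - y / sa) W (2 l) + (y / sa) W (2 l + 1)`, so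
`R (2 m) z ≤ ca (1 - y / sa) (2 ca² - 1) + (y / sa) ca < ca` for `m ≢ l`; the same for `y ≤ 0` with
`W (2 l - 1)`. -/
theorem side_unique (hc : 3 ≤ c) {z : ℂ} (hz : z ∈ Pg c) {l m : ℤ} (hl : R c (2 * l) z = ca c)
    (hm : R c (2 * m) z = ca c) : (c : ℤ) ∣ l - m := by
  by_contra h
  obtain ⟨t, ht0, ht1, e⟩ := PolyA_side hc hz hl
  have hp := ca_pos hc
  have h1 := ca_lt_one hc
  have e1 : R c (2 * m) (W c (2 * l)) ≤ 2 * ca c ^ 2 - 1 :=
    PolyA_two hc (n := l - m) (by ring) h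
  have h3 : 0 ≤ ca c * (1 - t) := mul_nonneg hp.le (by linarith)
  have e4 := mul_le_mul_of_nonneg_left e1 h3
  have e6 : 0 < ca c * (1 - t) * (1 - ca c ^ 2) :=
    mul_pos (mul_pos hp (by linarith)) (by nlinarith)
  rcases e with e | e
  · have e2 : R c (2 * m) (W c (2 * l + 1)) ≤ ca c :=
      PolyA_le hc (PolyA_odd c (k := l - m) (by ring))
    have e5 := mul_le_mul_of_nonneg_left e2 ht0
    rw [e, R_add, R_smul, R_smul] at hm
    nlinarith
  · have e2 : R c (2 * m) (W c (2 * l - 1)) ≤ ca c :=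
      PolyA_le hc (PolyA_odd c (k := l - m - 1) (by ring))
    have e5 := mul_le_mul_of_nonneg_left e2 ht0
    rw [e, R_add, R_smul, R_smul] at hm
    nlinarith

/-- the side `m` is symmetric. PROOF: with `z = W (2 m) (ca + i y)` one has
`R (2 (m + j)) (2 ca W (2 m) - z) = R (2 (m - j)) z`, and the same for odd directions. -/
theorem refl_mem (hc : 3 ≤ c) {z : ℂ} (hz : z ∈ Pg c) {m : ℤ} (hm : R c (2 * m) z = ca c) :
    2 * (ca c : ℂ) * W c (2 * m) - z ∈ Pg c := by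
  have key : ∀ k : ℤ, R c (2 * m + k) (2 * (ca c : ℂ) * W c (2 * m) - z) =
      R c (2 * m + -k) z := by
    intro k
    rw [PolyA_rot, PolyA_rot, R_refl, J_refl, hm]
    push_cast
    rw [mul_neg, neg_div, Real.cos_neg, Real.sin_neg]
    ring
  constructor
  · intro j
    have h1 := key (2 * (j - m))
    rw [show 2 * m + 2 * (j - m) = 2 * j by ring,
      show 2 * m + -(2 * (j - m)) = 2 * (2 * m - j) by ring] at h1
    rw [h1]
    exact hz.1 _
  · intro j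
    have h1 := key (2 * (j - m) - 1)
    rw [show 2 * m + (2 * (j - m) - 1) = 2 * j - 1 by ring,
      show 2 * m + -(2 * (j - m) - 1) = 2 * (2 * m - j + 1) - 1 by ring] at h1
    rw [h1]
    exact hz.2 _

/-- the corners `1 - R (2 m - 1) < sa²` are disjoint. PROOF (`1 - sa² = ca²`): `exists_cone`; if `z` lies in
the cone of the directions `2 l, 2 l + 1` (coefficients `x, y`) then `R (2 l) z ≤ ca` gives
`x + y ca ≤ ca`, and for `m ≢ l + 1`: `R (2 m - 1) z ≤ x ca + y (2 ca² - 1) ≤ ca²`; so only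
`m ≡ l + 1` is possible. The cone of `2 l - 1, 2 l` in the same way (`m ≡ l`). -/
theorem corner_unique (hc : 3 ≤ c) {z : ℂ} (hz : z ∈ Pg c) {m m' : ℤ}
    (hm : ca c ^ 2 < R c (2 * m - 1) z) (hm' : ca c ^ 2 < R c (2 * m' - 1) z) :
    (c : ℤ) ∣ m - m' := by
  obtain ⟨n, hn⟩ := PolyA_cone hc hz
  have h1 := dvd_sub (hn m hm) (hn m' hm')
  rwa [show m - n - (m' - n) = m - m' by ring] at h1

/-- a point of the side `l` lies only in the corners `l` and `l + 1`. PROOF: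
`z = W (2 l) (ca + i y)`; for `y ≥ 0` it is in the cone of `2 l, 2 l + 1` and for `m ≢ l + 1` as above
`R (2 m - 1) z ≤ ca²`. -/
theorem side_corner (hc : 3 ≤ c) {z : ℂ} (hz : z ∈ Pg c) {l m : ℤ} (hl : R c (2 * l) z = ca c)
    (hm : ca c ^ 2 < R c (2 * m - 1) z) : (c : ℤ) ∣ m - l ∨ (c : ℤ) ∣ m - (l + 1) := by
  obtain ⟨t, ht0, ht1, e | e⟩ := PolyA_side hc hz hl
  · exact Or.inr (PolyA_cA hc (mul_nonneg (ca_pos hc).le (by linarith)) ht0 e hl.le hm)
  · exact Or.inl (PolyA_cB hc (mul_nonneg (ca_pos hc).le (by linarith)) ht0 e hl.le hm)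

end

end Pool.Agent.H.MP_1611f1_gt.PB.Mo
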