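import Pool.Agent.H.MP_1611f1_gt.PB.Mo.PolyA
import Pool.Agent.H.MP_1611f1_gt.Defs

/-!
MODEL OF THE FIBRE SURFACE: the surface. Copies of the regular `c`-gon without vertices (one for
every `i : I`) are glued along their sides: the side `m` of the copy `i` to the side `m` of the
copy `σ m i` by the rotation by `π` about the midpoint of the side.
-/

namespace Pool.Agent.H.MP_1611f1_gt.PB.Mo

open Complex Set Topology

/-- The combinatorial data: involutions `σ m` of the set `I` of the polygons (`m : ℤ`, period `c`), and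
the boundary walk `lv`, of the period `L`, which visits every corner `(i, m)` once. -/
structure Comb (c L : ℕ) (I : Type) where
  σ : ℤ → I → I
  σ_per : ∀ m, σ (m + c) = σ m
  inv : ∀ m i, σ m (σ m i) = i
  lv : ℤ → I
  step : ∀ t, lv (t + 1) = σ t (lv t)
  per : ∀ t, lv (t + L) = lv t
  pos : 0 < L
  dvd : c ∣ L
  onto : ∀ i (m : ℤ), ∃ t : ℤ, lv t = i ∧ (c : ℤ) ∣ t - m
  inj : ∀ t t' : ℤ, lv t = lv t' → (c : ℤ) ∣ t - t' → (L : ℤ) ∣ t - t'

noncomputable section

variable {c L : ℕ} {I : Type}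

theorem Comb.σ_congr (K : Comb c L I) {m m' : ℤ} (h : (c : ℤ) ∣ m - m') : K.σ m = K.σ m' := by
  obtain ⟨k, hk⟩ := h
  have h1 : Function.Periodic K.σ (c : ℤ) := K.σ_per
  have h2 := h1.int_mul k m'
  rw [← h2]
  congr 1
  linear_combination hk

theorem Comb.lv_congr (K : Comb c L I) {t t' : ℤ} (h : (L : ℤ) ∣ t - t') : K.lv t = K.lv t' := by
  obtain ⟨k, hk⟩ := h
  have h1 : Function.Periodic K.lv (L : ℤ) := K.per
  have h2 := h1.int_mul k t'
  rw [← h2]
  congr 1
  linear_combination hk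

/-- the disjoint union of the polygons -/
def Pts (c : ℕ) (I : Type) : Type := I × Pg c

instance [TopologicalSpace I] : TopologicalSpace (Pts c I) :=
  inferInstanceAs (TopologicalSpace (I × Pg c))

/-- the gluing -/
def Glue (K : Comb c L I) (x y : Pts c I) : Prop :=
  x = y ∨ ∃ m : ℤ, R c (2 * m) x.2 = ca c ∧ y.1 = K.σ m x.1 ∧
    (y.2 : ℂ) = 2 * (ca c : ℂ) * W c (2 * m) - x.2

/-- PROOF: symmetry: `R_refl`, `K.inv`; transitivity: `side_unique` (a point lies on at most one
side), so two gluings follow each other only along the same side, and then they cancel. -/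
theorem glue_equiv (hc : 3 ≤ c) (K : Comb c L I) : Equivalence (Glue K) := by
  have key : ∀ {x y : Pts c I} {m : ℤ}, R c (2 * m) x.2 = ca c →
      (y.2 : ℂ) = 2 * (ca c : ℂ) * W c (2 * m) - x.2 → R c (2 * m) y.2 = ca c := by
    intro x y m h1 h2
    rw [h2, R_refl, h1]
    ring
  refine ⟨fun x => Or.inl rfl, ?_, ?_⟩
  · rintro x y (h | ⟨m, h1, h2, h3⟩)
    · exact Or.inl h.symm
    · refine Or.inr ⟨m, key h1 h3, ?_, ?_⟩
      · rw [h2, K.inv]
      · rw [h3]
        ring
  · rintro x y z (h | ⟨m, h1, h2, h3⟩) (h' | ⟨m', h1', h2', h3'⟩)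
    · exact Or.inl (h.trans h')
    · rw [h]
      exact Or.inr ⟨m', h1', h2', h3'⟩
    · rw [← h']
      exact Or.inr ⟨m, h1, h2, h3⟩
    · left
      have h4 : (c : ℤ) ∣ m' - m := side_unique hc y.2.2 h1' (key h1 h3)
      have h5 : (2 * c : ℤ) ∣ 2 * m' - 2 * m := by
        rw [← mul_sub]
        exact mul_dvd_mul_left 2 h4
      refine Prod.ext ?_ (Subtype.ext ?_)
      · rw [h2', h2, K.σ_congr h4, K.inv]
      · rw [h3', h3, W_per (by omega) h5]
        ring

variable [Fact (3 ≤ c)]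

/-- the gluing as a setoid -/
def gl (K : Comb c L I) : Setoid (Pts c I) := ⟨Glue K, glue_equiv Fact.out K⟩

/-- the surface -/
def Sf (K : Comb c L I) : Type := Quotient (gl K)

instance [TopologicalSpace I] (K : Comb c L I) : TopologicalSpace (Sf K) :=
  inferInstanceAs (TopologicalSpace (Quotient (gl K)))

/-- the point of the surface given by the point `z` of the polygon `i` -/
def pt (K : Comb c L I) (i : I) (z : ℂ) (hz : z ∈ Pg c) : Sf K :=
  Quotient.mk (gl K) (i, ⟨z, hz⟩)

variable (K : Comb c L I)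

theorem exists_pt (x : Sf K) : ∃ (i : I) (z : ℂ) (hz : z ∈ Pg c), pt K i z hz = x := by
  obtain ⟨y, rfl⟩ := Quotient.exists_rep x
  exact ⟨y.1, y.2.1, y.2.2, rfl⟩

theorem pt_eq_iff {i j : I} {z w : ℂ} (hz : z ∈ Pg c) (hw : w ∈ Pg c) :
    pt K i z hz = pt K j w hw ↔ (i = j ∧ z = w) ∨ ∃ m : ℤ, R c (2 * m) z = ca c ∧
      j = K.σ m i ∧ w = 2 * (ca c : ℂ) * W c (2 * m) - z := by
  constructor
  · intro h
    have h1 : Glue K (i, ⟨z, hz⟩) (j, ⟨w, hw⟩) := Quotient.exact h
    rcases h1 with h1 | h1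
    · left
      have h2 := congrArg (fun x : Pts c I => x.1) h1
      have h3 := congrArg (fun x : Pts c I => (x.2 : ℂ)) h1
      exact ⟨h2, h3⟩
    · exact Or.inr h1
  · rintro (⟨rfl, rfl⟩ | h)
    · rfl
    · exact Quotient.sound (s := gl K) (Or.inr h : Glue K (i, ⟨z, hz⟩) (j, ⟨w, hw⟩))

theorem pt_glue {i : I} {z : ℂ} (hz : z ∈ Pg c) {m : ℤ} (hm : R c (2 * m) z = ca c) :
    pt K i z hz = pt K (K.σ m i) (2 * (ca c : ℂ) * W c (2 * m) - z)
      (refl_mem Fact.out hz hm) :=
  (pt_eq_iff K hz _).2 (Or.inr ⟨m, hm, rfl, rfl⟩)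

variable [TopologicalSpace I] [DiscreteTopology I]

/-- the inclusion of a polygon is continuous -/
theorem continuous_pt (i : I) : Continuous fun z : Pg c => pt K i z z.2 := by
  have h1 : Continuous fun z : Pg c => ((i, z) : I × Pg c) := by fun_prop
  have h2 : Continuous (Quotient.mk (gl K)) := continuous_quotient_mk'
  exact h2.comp h1

/-- a set is open if its preimages in all polygons are open (relatively) -/
theorem isOpen_iff_pt {U : Set (Sf K)} :
    IsOpen U ↔ ∀ i, IsOpen {z : Pg c | pt K i z z.2 ∈ U} := by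
  constructor
  · intro h i
    exact h.preimage (continuous_pt K i)
  · intro h
    change IsOpen {x : I × Pg c | Quotient.mk (gl K) x ∈ U}
    have h1 : {x : I × Pg c | Quotient.mk (gl K) x ∈ U} =
        ⋃ i, ({i} : Set I) ×ˢ {z : Pg c | pt K i z z.2 ∈ U} := by
      ext x
      simp only [mem_setOf_eq, mem_iUnion, mem_prod, mem_singleton_iff]
      constructor
      · intro hx
        exact ⟨x.1, rfl, hx⟩
      · rintro ⟨i, hi, hx⟩
        subst hi
        exact hx
    rw [h1]
    exact isOpen_iUnion fun i => (isOpen_discrete {i}).prod (h i)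

theorem isClosed_iff_pt {U : Set (Sf K)} :
    IsClosed U ↔ ∀ i, IsClosed {z : Pg c | pt K i z z.2 ∈ U} := by
  rw [← isOpen_compl_iff, isOpen_iff_pt]
  exact forall_congr' fun i => isOpen_compl_iff

/-- functions on the surface: glue functions `f i` on the polygons -/
theorem exists_glue_fun {Y : Type*} [TopologicalSpace Y] (f : I → Pg c → Y)
    (hf : ∀ i, Continuous (f i))
    (hg : ∀ (i : I) (m : ℤ) (z : ℂ) (hz : z ∈ Pg c) (hm : R c (2 * m) z = ca c),
      f i ⟨z, hz⟩ = f (K.σ m i) ⟨2 * (ca c : ℂ) * W c (2 * m) - z, refl_mem Fact.out hz hm⟩) :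
    ∃ F : C(Sf K, Y), ∀ (i : I) (z : Pg c), F (pt K i z z.2) = f i z := by
  have hs : ∀ x y : Pts c I, (gl K) x y → f x.1 x.2 = f y.1 y.2 := by
    rintro ⟨i, z⟩ ⟨j, w⟩ h
    have h0 : Glue K (i, z) (j, w) := h
    rcases h0 with h1 | ⟨m, h1, h2, h3⟩
    · rw [h1]
    · have h4 := hg i m z z.2 h1
      have h5 : w = ⟨2 * (ca c : ℂ) * W c (2 * m) - z, refl_mem Fact.out z.2 h1⟩ := Subtype.ext h3
      change j = K.σ m i at h2
      change f i z = f j w
      rw [h2, h5]
      exact h4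
  refine ⟨⟨Quotient.lift (fun x : Pts c I => f x.1 x.2) hs, ?_⟩, fun i z => rfl⟩
  have h1 : Continuous (fun x : I × Pg c => f x.1 x.2) :=
    continuous_prod_of_discrete_left.2 hf
  exact Continuous.quotient_lift h1 hs

end

end Pool.Agent.H.MP_1611f1_gt.PB.Mo
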