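import Mathlib

/-!
MODEL OF THE FIBRE SURFACE, trigonometry of the regular `c`-gon with the circumradius `1`.

The `2 c` directions `W j` (`j : ℤ`, period `2 c`): the midpoint of the side `m` is
`ca * W (2 m)`, the vertex between the sides `m - 1` and `m` is `W (2 m - 1)`
(`ca = cos (π / c)`, `sa = sin (π / c)`).
-/

namespace Pool.Agent.H.MP_1611f1_gt.PB.Mo

open Complex

noncomputable section

/-- the direction number `j` -/
def W (c : ℕ) (j : ℤ) : ℂ := Complex.exp (((Real.pi * j / c : ℝ) : ℂ) * Complex.I)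

def ca (c : ℕ) : ℝ := Real.cos (Real.pi / c)

def sa (c : ℕ) : ℝ := Real.sin (Real.pi / c)

/-- the component of `z` in the direction `j` -/
def R (c : ℕ) (j : ℤ) (z : ℂ) : ℝ := (z * (starRingEnd ℂ) (W c j)).re

/-- the component of `z` orthogonal to the direction `j` -/
def J (c : ℕ) (j : ℤ) (z : ℂ) : ℝ := (z * (starRingEnd ℂ) (W c j)).im

/-- the closed regular `c`-gon without its vertices -/
def Pg (c : ℕ) : Set ℂ := {z | (∀ m : ℤ, R c (2 * m) z ≤ ca c) ∧ ∀ m : ℤ, R c (2 * m - 1) z < 1}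

/-- the point `x + i y` in the frame of the direction `j` -/
def fr (c : ℕ) (j : ℤ) (x y : ℝ) : ℂ := ((x : ℂ) + (y : ℂ) * Complex.I) * W c j

/-- the corner point at the vertex `m` with the coordinates `u ∈ [-1/2, 1/2]` (`u = 1/2`: side `m`,
`u = -1/2`: side `m - 1`) and `x > 0` -/
def cp (c : ℕ) (m : ℤ) (u x : ℝ) : ℂ := fr c (2 * m - 1) (1 - x) (x * (2 * ca c / sa c) * u)

variable {c : ℕ}

theorem Trig_W_re (c : ℕ) (j : ℤ) : (W c j).re = Real.cos (Real.pi * j / c) :=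
  Complex.exp_ofReal_mul_I_re _

theorem Trig_W_im (c : ℕ) (j : ℤ) : (W c j).im = Real.sin (Real.pi * j / c) :=
  Complex.exp_ofReal_mul_I_im _

theorem Trig_R (c : ℕ) (j : ℤ) (z : ℂ) :
    R c j z = z.re * Real.cos (Real.pi * j / c) + z.im * Real.sin (Real.pi * j / c) := by
  unfold R
  rw [Complex.mul_re, Complex.conj_re, Complex.conj_im, Trig_W_re, Trig_W_im]
  ring

theorem Trig_J (c : ℕ) (j : ℤ) (z : ℂ) :
    J c j z = z.im * Real.cos (Real.pi * j / c) - z.re * Real.sin (Real.pi * j / c) := by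
  unfold J
  rw [Complex.mul_im, Complex.conj_re, Complex.conj_im, Trig_W_re, Trig_W_im]
  ring

theorem Trig_ang (c : ℕ) (i j : ℤ) : Real.pi * ((i + j : ℤ) : ℝ) / c =
    Real.pi * i / c + Real.pi * j / c := by
  push_cast
  ring

theorem Trig_ang_one (c : ℕ) : Real.pi * ((1 : ℤ) : ℝ) / c = Real.pi / c := by
  push_cast
  rw [mul_one]

theorem Trig_small (hc : 3 ≤ c) : 0 < Real.pi / c ∧ Real.pi / c ≤ Real.pi / 3 := by
  have h1 : (3 : ℝ) ≤ c := by exact_mod_cast hc
  have h2 := Real.pi_pos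
  exact ⟨by positivity, div_le_div_of_nonneg_left h2.le (by norm_num) h1⟩

theorem ca_pos (hc : 3 ≤ c) : 0 < ca c := by
  obtain ⟨h1, h2⟩ := Trig_small hc
  have h3 := Real.pi_pos
  exact Real.cos_pos_of_mem_Ioo ⟨by linarith, by linarith⟩

theorem half_le_ca (hc : 3 ≤ c) : 1 / 2 ≤ ca c := by
  obtain ⟨h1, h2⟩ := Trig_small hc
  have h3 := Real.pi_pos
  rw [← Real.cos_pi_div_three]
  exact Real.cos_le_cos_of_nonneg_of_le_pi h1.le (by linarith) h2

theorem ca_lt_one (hc : 3 ≤ c) : ca c < 1 := by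
  obtain ⟨h1, h2⟩ := Trig_small hc
  have h3 := Real.pi_pos
  rw [← Real.cos_zero]
  exact Real.cos_lt_cos_of_nonneg_of_le_pi le_rfl (by linarith) h1

theorem sa_pos (hc : 3 ≤ c) : 0 < sa c := by
  obtain ⟨h1, h2⟩ := Trig_small hc
  have h3 := Real.pi_pos
  exact Real.sin_pos_of_pos_of_lt_pi h1 (by linarith)

theorem sa_lt_one (hc : 3 ≤ c) : sa c < 1 := by
  have h1 : ca c ^ 2 + sa c ^ 2 = 1 := Real.cos_sq_add_sin_sq _
  have h2 := ca_pos hc
  by_contra h3
  push Not at h3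
  nlinarith [mul_pos h2 h2]

theorem ca_sq_add (c : ℕ) : ca c ^ 2 + sa c ^ 2 = 1 := by
  exact Real.cos_sq_add_sin_sq _

theorem W_add (c : ℕ) (i j : ℤ) : W c (i + j) = W c i * W c j := by
  unfold W
  rw [← Complex.exp_add, ← add_mul, ← Complex.ofReal_add, Trig_ang]

/-- period `2 c` -/
theorem W_per (hc : 0 < c) {i j : ℤ} (h : (2 * c : ℤ) ∣ i - j) : W c i = W c j := by
  obtain ⟨k, hk⟩ := h
  have hc' : (c : ℂ) ≠ 0 := by exact_mod_cast hc.ne'
  unfold W
  rw [Complex.exp_eq_exp_iff_exists_int]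
  refine ⟨k, ?_⟩
  have h1 : (i : ℂ) = j + 2 * c * k := by
    have h2 : (i : ℤ) = j + 2 * c * k := by linarith
    rw [h2]
    push_cast
    ring
  push_cast
  rw [h1]
  field_simp

theorem R_per (hc : 0 < c) {i j : ℤ} (h : (2 * c : ℤ) ∣ i - j) (z : ℂ) : R c i z = R c j z := by
  unfold R
  rw [W_per hc h]

theorem J_per (hc : 0 < c) {i j : ℤ} (h : (2 * c : ℤ) ∣ i - j) (z : ℂ) : J c i z = J c j z := by
  unfold J
  rw [W_per hc h]

@[fun_prop]
theorem continuous_R (c : ℕ) (j : ℤ) : Continuous (R c j) := by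
  unfold R
  fun_prop

@[fun_prop]
theorem continuous_J (c : ℕ) (j : ℤ) : Continuous (J c j) := by
  unfold J
  fun_prop

theorem R_fr (c : ℕ) (j : ℤ) (x y : ℝ) : R c j (fr c j x y) = x := by
  have h := Real.cos_sq_add_sin_sq (Real.pi * j / c)
  have h1 : (fr c j x y).re = x * Real.cos (Real.pi * j / c) - y * Real.sin (Real.pi * j / c) := by
    unfold fr
    rw [Complex.mul_re, Trig_W_re, Trig_W_im]
    simp
  have h2 : (fr c j x y).im = x * Real.sin (Real.pi * j / c) + y * Real.cos (Real.pi * j / c) := by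
    unfold fr
    rw [Complex.mul_im, Trig_W_re, Trig_W_im]
    simp
  rw [Trig_R, h1, h2]
  linear_combination x * h

theorem J_fr (c : ℕ) (j : ℤ) (x y : ℝ) : J c j (fr c j x y) = y := by
  have h := Real.cos_sq_add_sin_sq (Real.pi * j / c)
  have h1 : (fr c j x y).re = x * Real.cos (Real.pi * j / c) - y * Real.sin (Real.pi * j / c) := by
    unfold fr
    rw [Complex.mul_re, Trig_W_re, Trig_W_im]
    simp
  have h2 : (fr c j x y).im = x * Real.sin (Real.pi * j / c) + y * Real.cos (Real.pi * j / c) := by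
    unfold fr
    rw [Complex.mul_im, Trig_W_re, Trig_W_im]
    simp
  rw [Trig_J, h1, h2]
  linear_combination y * h

theorem fr_R_J (c : ℕ) (j : ℤ) (z : ℂ) : fr c j (R c j z) (J c j z) = z := by
  have h := Real.cos_sq_add_sin_sq (Real.pi * j / c)
  apply Complex.ext
  · unfold fr
    rw [Complex.mul_re, Trig_W_re, Trig_W_im, Trig_R, Trig_J]
    simp only [add_re, add_im, ofReal_re, ofReal_im, mul_re, mul_im, I_re, I_im]
    linear_combination z.re * h
  · unfold fr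
    rw [Complex.mul_im, Trig_W_re, Trig_W_im, Trig_R, Trig_J]
    simp only [add_re, add_im, ofReal_re, ofReal_im, mul_re, mul_im, I_re, I_im]
    linear_combination z.im * h

theorem R_W (c : ℕ) (i j : ℤ) : R c i (W c j) = Real.cos (Real.pi * (j - i) / c) := by
  rw [Trig_R, Trig_W_re, Trig_W_im, mul_sub, sub_div, Real.cos_sub]

theorem J_W (c : ℕ) (i j : ℤ) : J c i (W c j) = Real.sin (Real.pi * (j - i) / c) := by
  rw [Trig_J, Trig_W_re, Trig_W_im, mul_sub, sub_div, Real.sin_sub]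

theorem R_add (c : ℕ) (j : ℤ) (z w : ℂ) : R c j (z + w) = R c j z + R c j w := by
  rw [Trig_R, Trig_R, Trig_R, add_re, add_im]
  ring

theorem J_add (c : ℕ) (j : ℤ) (z w : ℂ) : J c j (z + w) = J c j z + J c j w := by
  rw [Trig_J, Trig_J, Trig_J, add_re, add_im]
  ring

theorem R_smul (c : ℕ) (j : ℤ) (t : ℝ) (z : ℂ) : R c j ((t : ℂ) * z) = t * R c j z := by
  rw [Trig_R, Trig_R, re_ofReal_mul, im_ofReal_mul]
  ring

theorem J_smul (c : ℕ) (j : ℤ) (t : ℝ) (z : ℂ) : J c j ((t : ℂ) * z) = t * J c j z := by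
  rw [Trig_J, Trig_J, re_ofReal_mul, im_ofReal_mul]
  ring

theorem R_succ (c : ℕ) (j : ℤ) (z : ℂ) : R c (j + 1) z = ca c * R c j z + sa c * J c j z := by
  rw [Trig_R, Trig_R, Trig_J, Trig_ang, Trig_ang_one, Real.cos_add, Real.sin_add]
  unfold ca sa
  ring

theorem J_succ (c : ℕ) (j : ℤ) (z : ℂ) : J c (j + 1) z = ca c * J c j z - sa c * R c j z := by
  rw [Trig_J, Trig_R, Trig_J, Trig_ang, Trig_ang_one, Real.cos_add, Real.sin_add]
  unfold ca sa
  ring

theorem R_pred (c : ℕ) (j : ℤ) (z : ℂ) : R c (j - 1) z = ca c * R c j z - sa c * J c j z := by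
  have h := ca_sq_add c
  have h1 := R_succ c (j - 1) z
  have h2 := J_succ c (j - 1) z
  rw [sub_add_cancel] at h1 h2
  rw [h1, h2]
  linear_combination -R c (j - 1) z * h

theorem J_pred (c : ℕ) (j : ℤ) (z : ℂ) : J c (j - 1) z = ca c * J c j z + sa c * R c j z := by
  have h := ca_sq_add c
  have h1 := R_succ c (j - 1) z
  have h2 := J_succ c (j - 1) z
  rw [sub_add_cancel] at h1 h2
  rw [h1, h2]
  linear_combination -J c (j - 1) z * h

/-- rotation by `π` about the midpoint of the side `m` -/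
theorem R_refl (c : ℕ) (m : ℤ) (z : ℂ) :
    R c (2 * m) (2 * (ca c : ℂ) * W c (2 * m) - z) = 2 * ca c - R c (2 * m) z := by
  have h1 : 2 * (ca c : ℂ) * W c (2 * m) - z =
      ((2 * ca c : ℝ) : ℂ) * W c (2 * m) + ((-1 : ℝ) : ℂ) * z := by
    push_cast
    ring
  have h2 : R c (2 * m) (W c (2 * m)) = 1 := by
    rw [R_W, sub_self, mul_zero, zero_div, Real.cos_zero]
  rw [h1, R_add, R_smul, R_smul, h2]
  ring

theorem J_refl (c : ℕ) (m : ℤ) (z : ℂ) :
    J c (2 * m) (2 * (ca c : ℂ) * W c (2 * m) - z) = - J c (2 * m) z := by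
  have h1 : 2 * (ca c : ℂ) * W c (2 * m) - z =
      ((2 * ca c : ℝ) : ℂ) * W c (2 * m) + ((-1 : ℝ) : ℂ) * z := by
    push_cast
    ring
  have h2 : J c (2 * m) (W c (2 * m)) = 0 := by
    rw [J_W, sub_self, mul_zero, zero_div, Real.sin_zero]
  rw [h1, J_add, J_smul, J_smul, h2]
  ring

end

end Pool.Agent.H.MP_1611f1_gt.PB.Mo
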