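import Pool.Agent.H.MP_1611f1_gt.PB.Mo.Trig

/-!
MODEL OF THE FIBRE SURFACE: the cones, and values of the cosine.
-/

namespace Pool.Agent.H.MP_1611f1_gt.PB.Mo

open Complex

noncomputable section

variable {c : ℕ}

/-- Every point lies in the closed cone between two consecutive directions. -/
theorem exists_cone (hc : 3 ≤ c) (z : ℂ) : ∃ (j : ℤ) (x y : ℝ), 0 ≤ x ∧ 0 ≤ y ∧
    z = (x : ℂ) * W c j + (y : ℂ) * W c (j + 1) := by
  have hc0 : (0 : ℝ) < c := Nat.cast_pos.2 (by omega)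
  have hsa := sa_pos hc
  obtain ⟨α, hα⟩ : ∃ α : ℝ, α = Real.pi / c := ⟨_, rfl⟩
  have hα0 : 0 < α := by
    rw [hα]
    exact div_pos Real.pi_pos hc0
  have hαpi : α ≤ Real.pi := by
    rw [hα]
    exact div_le_self Real.pi_pos.le (by exact_mod_cast (by omega : 1 ≤ c))
  obtain ⟨j, hj⟩ : ∃ j : ℤ, j = ⌊z.arg / α⌋ := ⟨_, rfl⟩
  obtain ⟨t, ht⟩ : ∃ t : ℝ, t = z.arg / α - j := ⟨_, rfl⟩
  have ht0 : 0 ≤ t := by
    rw [ht, hj]
    exact sub_nonneg.2 (Int.floor_le _)
  have ht1 : t ≤ 1 := by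
    rw [ht, hj]
    have := Int.lt_floor_add_one (z.arg / α)
    linarith
  have harg : z.arg = α * j + α * t := by
    rw [ht]
    field_simp
    ring
  have hWj : W c j = Complex.exp (((α * j : ℝ) : ℂ) * I) := by
    unfold W
    congr 3
    rw [hα]
    ring
  have hW1 : W c 1 = (ca c : ℂ) + (sa c : ℂ) * I := by
    unfold W ca sa
    rw [Complex.exp_mul_I]
    push_cast
    simp
  have hz : z = (‖z‖ : ℂ) * (W c j * (((Real.cos (α * t) : ℝ) : ℂ) + ((Real.sin (α * t) : ℝ) : ℂ) * I)) := by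
    conv_lhs => rw [← Complex.norm_mul_exp_arg_mul_I z]
    rw [hWj, harg]
    congr 1
    push_cast
    rw [← Complex.exp_mul_I, ← Complex.exp_add]
    congr 1
    ring
  have hαt : α * t ≤ α := by nlinarith
  have hs1 : 0 ≤ Real.sin (α * t) :=
    Real.sin_nonneg_of_nonneg_of_le_pi (mul_nonneg hα0.le ht0) (hαt.trans hαpi)
  have hs2 : 0 ≤ Real.sin (α - α * t) :=
    Real.sin_nonneg_of_nonneg_of_le_pi (sub_nonneg.2 hαt)
      (by nlinarith [mul_nonneg hα0.le ht0])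
  refine ⟨j, ‖z‖ * (Real.sin (α - α * t) / sa c), ‖z‖ * (Real.sin (α * t) / sa c),
    mul_nonneg (norm_nonneg _) (div_nonneg hs2 hsa.le),
    mul_nonneg (norm_nonneg _) (div_nonneg hs1 hsa.le), ?_⟩
  have hsα : Real.sin α = sa c := by rw [hα]; rfl
  have hcα : Real.cos α = ca c := by rw [hα]; rfl
  have e1 : Real.sin (α - α * t) / sa c + Real.sin (α * t) / sa c * ca c = Real.cos (α * t) := by
    rw [Real.sin_sub, hsα, hcα]
    field_simp
    ring
  have e2 : Real.sin (α * t) / sa c * sa c = Real.sin (α * t) := by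
    field_simp
  have e1' := congrArg (fun r : ℝ => (r : ℂ)) e1
  have e2' := congrArg (fun r : ℝ => (r : ℂ)) e2
  beta_reduce at e1' e2'
  conv_lhs => rw [hz]
  rw [← e1', ← e2', W_add, hW1]
  push_cast
  ring

theorem TrigB_gen (hc : 3 ≤ c) {n k : ℤ} (hk0 : 0 ≤ k) (hk : k ≤ n % (2 * c))
    (hk' : n % (2 * c) ≤ 2 * c - k) :
    Real.cos (Real.pi * n / c) ≤ Real.cos (Real.pi * k / c) := by
  have hc0 : (0 : ℝ) < c := Nat.cast_pos.2 (by omega)
  have hpi := Real.pi_pos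
  obtain ⟨r, hr⟩ : ∃ r : ℤ, r = n % (2 * c) := ⟨_, rfl⟩
  obtain ⟨q, hq⟩ : ∃ q : ℤ, q = n / (2 * c) := ⟨_, rfl⟩
  have hn : n = 2 * c * q + r := by
    rw [hr, hq]
    exact (Int.mul_ediv_add_emod n (2 * c)).symm
  rw [← hr] at hk hk'
  have hnR : (n : ℝ) = 2 * c * q + r := by
    rw [hn]
    push_cast
    ring
  have hkR : (k : ℝ) ≤ r := Int.cast_le.2 hk
  have hkR' : (r : ℝ) ≤ 2 * c - k := by exact_mod_cast hk'
  have hk0R : (0 : ℝ) ≤ k := Int.cast_nonneg hk0
  have h1 : Real.cos (Real.pi * n / c) = Real.cos (Real.pi * r / c) := by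
    have e : Real.pi * n / c = Real.pi * r / c + q * (2 * Real.pi) := by
      rw [hnR]
      field_simp
      ring
    rw [e, Real.cos_add_int_mul_two_pi]
  rw [h1]
  rcases le_total (r : ℝ) c with h | h
  · apply Real.cos_le_cos_of_nonneg_of_le_pi
    · positivity
    · rw [div_le_iff₀ hc0]
      exact mul_le_mul_of_nonneg_left h hpi.le
    · exact div_le_div_of_nonneg_right (mul_le_mul_of_nonneg_left hkR hpi.le) hc0.le
  · have e : Real.cos (Real.pi * r / c) = Real.cos (Real.pi * (2 * c - r) / c) := by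
      rw [← Real.cos_two_pi_sub]
      congr 1
      field_simp
    rw [e]
    apply Real.cos_le_cos_of_nonneg_of_le_pi
    · positivity
    · rw [div_le_iff₀ hc0]
      exact mul_le_mul_of_nonneg_left (by linarith) hpi.le
    · exact div_le_div_of_nonneg_right (mul_le_mul_of_nonneg_left (by linarith) hpi.le) hc0.le

/-- the cosine of an angle `π n / c`, `n ≢ 0` modulo `2 c`, is at most `ca` -/
theorem cos_le_ca (hc : 3 ≤ c) {n : ℤ} (hn : ¬ (2 * c : ℤ) ∣ n) :
    Real.cos (Real.pi * n / c) ≤ ca c := by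
  have hc1 : (0 : ℤ) < 2 * c := by omega
  have h1 := Int.emod_nonneg n hc1.ne'
  have h2 := Int.emod_lt_of_pos n hc1
  have h3 : n % (2 * c) ≠ 0 := fun h => hn (Int.dvd_of_emod_eq_zero h)
  have h4 := TrigB_gen hc (n := n) (k := 1) (by norm_num) (by omega) (by omega)
  rw [Int.cast_one, mul_one] at h4
  exact h4

/-- the cosine of an angle `2 π n / c`, `n ≢ 0` modulo `c`, is at most `2 ca² - 1` -/
theorem cos_two_le (hc : 3 ≤ c) {n : ℤ} (hn : ¬ (c : ℤ) ∣ n) :
    Real.cos (Real.pi * (2 * n) / c) ≤ 2 * ca c ^ 2 - 1 := by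
  have hc1 : (0 : ℤ) < 2 * c := by omega
  have h0 : (2 * n) % (2 * c) = 2 * (n % c) := Int.mul_emod_mul_of_pos n c (by norm_num)
  have hc2 : (0 : ℤ) < c := by omega
  have h1 := Int.emod_nonneg n hc2.ne'
  have h2 := Int.emod_lt_of_pos n hc2
  have h3 : n % c ≠ 0 := fun h => hn (Int.dvd_of_emod_eq_zero h)
  have h4 := TrigB_gen hc (n := 2 * n) (k := 2) (by norm_num) (by omega) (by omega)
  have h5 : Real.cos (Real.pi * ((2 : ℤ) : ℝ) / c) = 2 * ca c ^ 2 - 1 := by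
    unfold ca
    rw [← Real.cos_two_mul]
    congr 1
    push_cast
    ring
  rw [h5] at h4
  refine le_trans (le_of_eq ?_) h4
  push_cast
  rfl

end

end Pool.Agent.H.MP_1611f1_gt.PB.Mo
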